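import Pool.Agent.Helper62.RH.Stm
import Pool.Agent.Helper62.RE.Geo

set_option autoImplicit false

/-!
# Intersections of closed sets, the sets `x_i = z`, pull-back by projections
-/

namespace Pool.Agent.Helper62.RH.INT

open Pool.Agent.Helper62.RE Pool.Agent.Helper62.RH
open scoped Classical

variable {a b : Qb} {n : ℕ}

theorem inter {ι : Type} (A : ι → Set (Fin n → EPt a b)) (hA : ∀ k, IsZClosed (A k)) :
    IsZClosed (⋂ k, A k) := by
  choose S hS hAS using hA
  refine ⟨{f | ∃ k, f ∈ S k}, ?_, ?_⟩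
  · rintro f ⟨k, hf⟩
    exact hS k f hf
  · ext x
    rw [Set.mem_iInter]
    constructor
    · rintro h f ⟨k, hf⟩
      have h1 := h k
      rw [hAS k] at h1
      exact h1 f hf
    · intro h k
      rw [hAS k]
      intro f hf
      exact h f ⟨k, hf⟩

theorem coord (i : Fin n) (z : EPt a b) : IsZClosed {x : Fin n → EPt a b | x i = z} := by
  refine ⟨{f | ∃ j k, f = MvPolynomial.C (homog z k) * MvPolynomial.X (i, j) -
    MvPolynomial.C (homog z j) * MvPolynomial.X (i, k)}, ?_, ?_⟩
  · rintro _ ⟨j, k, rfl⟩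
    refine ⟨fun i' => if i = i' then 1 else 0, fun i' => ?_⟩
    have h1 : ∀ l : Fin 3, MvPolynomial.IsWeightedHomogeneous
        (fun p : Fin n × Fin 3 => if p.1 = i' then 1 else 0)
        (MvPolynomial.X (i, l) : MvPolynomial (Fin n × Fin 3) Qb) (if i = i' then 1 else 0) :=
      fun l => MvPolynomial.isWeightedHomogeneous_X Qb _ (i, l)
    have h2 : ∀ (c : Qb) (l : Fin 3), MvPolynomial.IsWeightedHomogeneous
        (fun p : Fin n × Fin 3 => if p.1 = i' then 1 else 0)
        (MvPolynomial.C c * MvPolynomial.X (i, l) : MvPolynomial (Fin n × Fin 3) Qb)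
        (if i = i' then 1 else 0) := by
      intro c l
      have := (MvPolynomial.isWeightedHomogeneous_C
        (fun p : Fin n × Fin 3 => if p.1 = i' then 1 else 0) c).mul (h1 l)
      rwa [zero_add] at this
    rw [sub_eq_add_neg, ← neg_mul, ← map_neg]
    exact (h2 _ j).add (h2 _ k)
  · ext x
    simp only [Set.mem_ofPred_eq]
    constructor
    · rintro rfl _ ⟨j, k, rfl⟩
      unfold value
      simp only [map_sub, map_mul, MvPolynomial.eval_C, MvPolynomial.eval_X]
      ring
    · intro h
      apply eq_of_minors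
      intro j k
      have := h _ ⟨j, k, rfl⟩
      unfold value at this
      simp only [map_sub, map_mul, MvPolynomial.eval_C, MvPolynomial.eval_X] at this
      linear_combination this

/-- the change of variables -/
def ren (i : Fin n) (p : Fin 1 × Fin 3) : Fin n × Fin 3 := (i, p.2)

theorem ren_inj (i : Fin n) : Function.Injective (ren i) := by
  rintro ⟨p, q⟩ ⟨p', q'⟩ h
  have h2 := congrArg Prod.snd h
  simp only [ren] at h2
  exact Prod.ext (Subsingleton.elim _ _) h2

theorem value_ren (i : Fin n) (f : MvPolynomial (Fin 1 × Fin 3) Qb) (x : Fin n → EPt a b) :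
    value (MvPolynomial.rename (ren i) f) x = value f (fun _ : Fin 1 => x i) := by
  unfold value
  rw [MvPolynomial.eval_rename]
  rfl

theorem homog_ren (i : Fin n) (f : MvPolynomial (Fin 1 × Fin 3) Qb) (d : Fin 1 → ℕ)
    (hf : MultiHomog f d) : MultiHomog (MvPolynomial.rename (ren i) f)
      (fun i' => if i = i' then d 0 else 0) := by
  intro i' u hu
  obtain ⟨v, rfl, hv⟩ := MvPolynomial.coeff_rename_ne_zero _ _ _ hu
  have h1 := hf 0 hv
  rw [Finsupp.weight_apply] at h1 ⊢
  rw [Finsupp.sum_mapDomain_index (by simp) (by intro p m₁ m₂; rw [add_smul])]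
  show (v.sum fun a m => m • if (ren i a).1 = i' then 1 else 0) = if i = i' then d 0 else 0
  by_cases hi : i = i'
  · rw [if_pos hi, ← h1]
    refine Finsupp.sum_congr fun p _ => ?_
    have h2 : p.1 = 0 := Subsingleton.elim _ _
    simp only [ren, hi, h2, if_true]
  · rw [if_neg hi]
    refine Finset.sum_eq_zero fun p _ => ?_
    simp only [ren, if_neg hi, smul_zero]

theorem pull (i : Fin n) (L : IntermediateField ℚ Qb) (Q : Set (Fin 1 → EPt a b))
    (hQ : IsClosedOver L Q) :
    IsClosedOver L {x : Fin n → EPt a b | (fun _ : Fin 1 => x i) ∈ Q} := by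
  obtain ⟨S, hS, hL, rfl⟩ := hQ
  refine ⟨{g | ∃ f ∈ S, g = MvPolynomial.rename (ren i) f}, ?_, ?_, ?_⟩
  · rintro _ ⟨f, hf, rfl⟩
    obtain ⟨d, hd⟩ := hS f hf
    exact ⟨_, homog_ren i f d hd⟩
  · rintro _ ⟨f, hf, rfl⟩ u
    by_cases h : (MvPolynomial.rename (ren i) f).coeff u = 0
    · rw [h]
      exact zero_mem L
    · obtain ⟨v, rfl, hv⟩ := MvPolynomial.coeff_rename_ne_zero _ _ _ h
      rw [MvPolynomial.coeff_rename_mapDomain _ (ren_inj i)]
      exact hL f hf v
  · ext x
    simp only [Set.mem_ofPred_eq]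
    constructor
    · rintro h _ ⟨f, hf, rfl⟩
      rw [value_ren]
      exact h f hf
    · intro h f hf
      rw [← value_ren]
      exact h _ ⟨f, hf, rfl⟩

theorem main : S_INT := fun a b n =>
  ⟨fun ι A hA => inter A hA, fun i z => coord i z, fun i L Q hQ => pull i L Q hQ⟩

end Pool.Agent.Helper62.RH.INT
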