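import Pool.Agent.Helper62.RH.Stm2
import Pool.Agent.Helper62.RH.INT
import Pool.Agent.Helper62.RE.Geo
import Pool.Agent.Helper62.RE.DSC
import Pool.Agent.Helper62.RE.DEG

/-!
# CLV: the hypersurfaces are defined over `L` (helper35 for helper62)
-/

set_option autoImplicit false

namespace Pool.Agent.Helper62.RH.CLV

open Pool.Agent.Helper62.RE
open scoped Classical

theorem homog_inj {a b : Qb} {P Q : EPt a b} (h : ∀ j, homog P j = homog Q j) : P = Q := by
  rcases P with _ | ⟨x, y, hxy⟩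
  · rcases Q with _ | ⟨x', y', hxy'⟩
    · rfl
    · have h2 : (0 : Qb) = 1 := h 2
      exact absurd h2 zero_ne_one
  · rcases Q with _ | ⟨x', y', hxy'⟩
    · have h2 : (1 : Qb) = 0 := h 2
      exact absurd h2 one_ne_zero
    · have h0 : x = x' := h 0
      have h1 : y = y' := h 1
      subst h0
      subst h1
      rfl

theorem homog_act {a b : Qb} {σ : Qb → Qb} (h0 : σ 0 = 0) (h1 : σ 1 = 1) {φ : EPt a b →+ EPt a b}
    (h : ∀ x y h, ∃ h', φ (.some x y h) = .some (σ x) (σ y) h') (P : EPt a b) (j : Fin 3) :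
    homog (φ P) j = σ (homog P j) := by
  rcases P with _ | ⟨x, y, hxy⟩
  · have : φ (WeierstrassCurve.Affine.Point.zero) = WeierstrassCurve.Affine.Point.zero := map_zero φ
    rw [this]
    show (![0, 1, 0] : Fin 3 → Qb) j = σ ((![0, 1, 0] : Fin 3 → Qb) j)
    fin_cases j
    · exact h0.symm
    · exact h1.symm
    · exact h0.symm
  · obtain ⟨h', e⟩ := h x y hxy
    rw [e]
    show (![σ x, σ y, 1] : Fin 3 → Qb) j = σ ((![x, y, 1] : Fin 3 → Qb) j)
    fin_cases j
    · rfl
    · rfl
    · exact h1.symm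

theorem closed_mem {a b : Qb} {n : ℕ} (i : Fin n) {Q : Set (EPt a b)} (hQ : Q.Finite) :
    IsZClosed {y : Fin n → EPt a b | y i ∈ Q} := by
  induction Q, hQ using Set.Finite.induction_on with
  | empty =>
    have e : {y : Fin n → EPt a b | y i ∈ (∅ : Set (EPt a b))} = ∅ := by
      ext y
      simp
    rw [e]
    exact isZClosed_empty
  | @insert q Q _ _ ih =>
    have e : {y : Fin n → EPt a b | y i ∈ insert q Q} =
        {y : Fin n → EPt a b | y i = q} ∪ {y : Fin n → EPt a b | y i ∈ Q} := by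
      ext y
      simp [Set.mem_insert_iff]
    rw [e]
    exact ((INT.main a b n).2.1 i q).union ih

theorem main : S_RLI → S_CON → S_CLV := by
  intro hR hC a b hab n i A L ha hb Q hQ hst
  obtain ⟨D, hD⟩ := hR a b hab n A
  have hcl : IsZClosed {x : Fin n → EPt a b | lin A x i ∈ Q} :=
    hC a b n D (lin A) hD _ (closed_mem i hQ)
  refine closedOver_of_stable DSC.main hcl ?_
  intro σ x hx
  obtain ⟨φ, hφ⟩ := DEG.act (a := a) (b := b) ha hb (σ : Qb →ₐ[L] Qb)
  have hh : ∀ (P : EPt a b) (j : Fin 3), homog (φ P) j = σ (homog P j) := fun P j =>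
    homog_act (σ := ((σ : Qb →ₐ[L] Qb) : Qb → Qb)) (map_zero _) (map_one _) hφ P j
  refine ⟨fun k => φ (x k), ?_, fun k j => hh (x k) j⟩
  have hlin : lin A (fun k => φ (x k)) i = φ (lin A x i) := by
    show ∑ l, A i l • φ (x l) = φ (∑ l, A i l • x l)
    rw [map_sum]
    exact Finset.sum_congr rfl fun l _ => (map_zsmul φ (A i l) (x l)).symm
  obtain ⟨q', hq', hqq⟩ := hst σ _ hx
  have : q' = φ (lin A x i) := homog_inj fun j => by rw [hqq j, hh]
  show lin A (fun k => φ (x k)) i ∈ Q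
  rw [hlin, ← this]
  exact hq'

end Pool.Agent.Helper62.RH.CLV
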