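import Pool.Agent.Helper62.RH.Stm2

set_option autoImplicit false

/-! Regular maps are continuous (CON, helper16). -/

namespace Pool.Agent.Helper62.RH.CON

open Pool.Agent.Helper62.RE MvPolynomial
open scoped Classical

variable {n : ℕ}

theorem con_weight (m : (Fin n × Fin 3) →₀ ℕ) (k : Fin n) :
    Finsupp.weight (fun p : Fin n × Fin 3 => if p.1 = k then 1 else 0) m = ∑ l, m (k, l) := by
  rw [Finsupp.weight_apply, Finsupp.sum_fintype _ _ (fun p => by simp),
    Fintype.sum_prod_type, Finset.sum_eq_single k]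
  · exact Finset.sum_congr rfl fun l _ => by simp
  · intro j _ hj
    exact Finset.sum_eq_zero fun l _ => by simp [hj]
  · intro h
    exact absurd (Finset.mem_univ k) h

theorem con_exp {f : MvPolynomial (Fin n × Fin 3) Qb} {d : Fin n → ℕ} (hf : MultiHomog f d)
    {m : (Fin n × Fin 3) →₀ ℕ} (hm : f.coeff m ≠ 0) (k : Fin n) : ∑ l, m (k, l) = d k := by
  rw [← con_weight]
  exact hf k hm

/-- values of multihomogeneous polynomials at rescaled points -/
theorem con_scale {f : MvPolynomial (Fin n × Fin 3) Qb} {d : Fin n → ℕ} (hf : MultiHomog f d)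
    (r : Fin n → Qb) (h : Fin n × Fin 3 → Qb) :
    eval (fun p => r p.1 * h p) f = (∏ k, r k ^ d k) * eval h f := by
  rw [eval_eq', eval_eq', Finset.mul_sum]
  refine Finset.sum_congr rfl fun m hm => ?_
  have hm' : f.coeff m ≠ 0 := mem_support_iff.1 hm
  have h1 : ∏ p : Fin n × Fin 3, (r p.1 * h p) ^ m p =
      (∏ k, r k ^ d k) * ∏ p : Fin n × Fin 3, h p ^ m p := by
    simp only [mul_pow, Finset.prod_mul_distrib]
    congr 1
    rw [Fintype.prod_prod_type]
    refine Finset.prod_congr rfl fun k _ => ?_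
    rw [← con_exp hf hm' k]
    exact Finset.prod_pow_eq_pow_sum Finset.univ (fun l => m (k, l)) (r k)
  rw [h1]
  ring

/-- substitution -/
theorem con_hom {f : MvPolynomial (Fin n × Fin 3) Qb} {d : Fin n → ℕ} (hf : MultiHomog f d)
    {D : ℕ} {G : Fin n × Fin 3 → MvPolynomial (Fin n × Fin 3) Qb}
    (hG : ∀ p, MultiHomog (G p) (fun _ => D)) :
    MultiHomog (bind₁ G f) (fun _ => D * ∑ k, d k) := by
  intro i
  rw [f.as_sum, map_sum]
  refine IsWeightedHomogeneous.sum _ _ _ fun m hm => ?_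
  have hm' : f.coeff m ≠ 0 := mem_support_iff.1 hm
  rw [bind₁_monomial]
  have h1 : IsWeightedHomogeneous (fun p : Fin n × Fin 3 => if p.1 = i then 1 else 0)
      (∏ p ∈ m.support, G p ^ m p) (∑ p ∈ m.support, m p * D) := by
    refine IsWeightedHomogeneous.prod _ _ _ fun p _ => ?_
    have h2 := (hG p i).pow (m p)
    rwa [smul_eq_mul] at h2
  have h3 : ∑ p ∈ m.support, m p * D = D * ∑ k, d k := by
    rw [← Finset.sum_mul, mul_comm D]
    congr 1
    rw [Finset.sum_subset (Finset.subset_univ m.support)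
      (fun p _ hp => Finsupp.notMem_support_iff.1 hp), Fintype.sum_prod_type]
    exact Finset.sum_congr rfl fun k _ => con_exp hf hm' k
  rw [h3] at h1
  have h4 := (isWeightedHomogeneous_C
    (fun p : Fin n × Fin 3 => if p.1 = i then 1 else 0) (f.coeff m)).mul h1
  rwa [zero_add] at h4

/-- **Regular maps are continuous.** -/
theorem main : S_CON := by
  intro a b n D ψ hψ W hW
  obtain ⟨S, hS, rfl⟩ := hW
  choose! G r hG hr hv using fun (y₀ : Fin n → EPt a b) (k : Fin n) => hψ k y₀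
  have key : ∀ (y₀ : Fin n → EPt a b) (f : MvPolynomial (Fin n × Fin 3) Qb) (d : Fin n → ℕ),
      MultiHomog f d → ∀ y : Fin n → EPt a b,
        value (bind₁ (fun p => G y₀ p.1 p.2) f) y = (∏ k, r y₀ k y ^ d k) * value f (ψ y) := by
    intro y₀ f d hf y
    have h1 : value (bind₁ (fun p => G y₀ p.1 p.2) f) y =
        eval (fun p : Fin n × Fin 3 => value (G y₀ p.1 p.2) y) f := by
      unfold value
      exact eval₂Hom_bind₁ _ _ _ _
    rw [h1]
    have h2 : (fun p : Fin n × Fin 3 => value (G y₀ p.1 p.2) y) =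
        fun p => r y₀ p.1 y * homog (ψ y p.1) p.2 := by
      funext p
      exact hv y₀ p.1 y p.2
    rw [h2]
    exact con_scale hf (fun k => r y₀ k y) (fun p => homog (ψ y p.1) p.2)
  refine ⟨{F | ∃ y₀, ∃ f ∈ S, F = bind₁ (fun p => G y₀ p.1 p.2) f}, ?_, ?_⟩
  · rintro F ⟨y₀, f, hf, rfl⟩
    obtain ⟨d, hd⟩ := hS f hf
    exact ⟨_, con_hom hd fun p => hG y₀ p.1 p.2⟩
  · ext y
    constructor
    · rintro hy F ⟨y₀, f, hf, rfl⟩
      obtain ⟨d, hd⟩ := hS f hf
      have h1 : value f (ψ y) = 0 := hy f hf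
      rw [key y₀ f d hd y, h1, mul_zero]
    · intro hy f hf
      obtain ⟨d, hd⟩ := hS f hf
      have h1 := hy _ ⟨y, f, hf, rfl⟩
      rw [key y f d hd y, mul_eq_zero] at h1
      rcases h1 with h1 | h1
      · exact absurd h1 (Finset.prod_ne_zero_iff.2 fun k _ => pow_ne_zero _ (hr y k))
      · exact h1

end Pool.Agent.Helper62.RH.CON
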