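import Pool.Agent.Helper62.RH.Stm
import Pool.Agent.Helper62.RE.RK

set_option autoImplicit false

namespace Pool.Agent.Helper62.RH.RKR

open Pool.Agent.Helper62.RE
open scoped TensorProduct

theorem main : S_RKR := by
  classical
  intro M _ r g D hind hD
  have hcl : ∀ x : M, x ∈ AddSubgroup.closure (Set.range g) → ∃ c : Fin r → ℤ, x = ∑ j, c j • g j := by
    intro x hx
    induction hx using AddSubgroup.closure_induction with
    | mem x hx =>
      obtain ⟨j, rfl⟩ := hx
      refine ⟨Pi.single j 1, ?_⟩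
      rw [Finset.sum_eq_single j]
      · simp
      · intro b _ hb
        simp [Pi.single_eq_of_ne hb]
      · simp
    | zero => exact ⟨0, by simp⟩
    | add a b _ _ ha hb =>
      obtain ⟨c, rfl⟩ := ha
      obtain ⟨d, rfl⟩ := hb
      exact ⟨c + d, by simp [add_smul, Finset.sum_add_distrib]⟩
    | neg a _ ha =>
      obtain ⟨c, rfl⟩ := ha
      exact ⟨-c, by simp⟩
  have hgD : ∀ j, g j ∈ D := fun j => (hD _).2 ⟨1, one_pos, by
    rw [one_smul]; exact AddSubgroup.subset_closure ⟨j, rfl⟩⟩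
  let g' : Fin r → D := fun j => ⟨g j, hgD j⟩
  let Φ : (Fin r → ℚ) →ₗ[ℚ] ℚ ⊗[ℤ] D :=
    Fintype.linearCombination ℚ (fun j => (1 : ℚ) ⊗ₜ[ℤ] g' j)
  have hΦ : ∀ c, Φ c = ∑ j, c j • ((1 : ℚ) ⊗ₜ[ℤ] g' j) := fun c => rfl
  have hint : ∀ v : Fin r → ℤ, Φ (fun j => (v j : ℚ)) = (1 : ℚ) ⊗ₜ[ℤ] (∑ j, v j • g' j) := by
    intro v
    rw [hΦ, TensorProduct.tmul_sum]
    refine Finset.sum_congr rfl fun j _ => ?_
    rw [TensorProduct.tmul_smul, Int.cast_smul_eq_zsmul]
  have hsurj : Function.Surjective Φ := by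
    rw [← LinearMap.range_eq_top, eq_top_iff]
    intro z _
    induction z using TensorProduct.induction_on with
    | zero => exact Submodule.zero_mem _
    | add a b ha hb => exact Submodule.add_mem _ (ha trivial) (hb trivial)
    | tmul q x =>
      obtain ⟨m, hm, hx⟩ := (hD x).1 x.2
      obtain ⟨c, hc⟩ := hcl _ hx
      have h1 : (m : ℕ) • x = ∑ j, c j • g' j := Subtype.ext (by
        push_cast
        rw [hc])
      have h2 : (m : ℚ) • ((1 : ℚ) ⊗ₜ[ℤ] x) = Φ (fun j => (c j : ℚ)) := by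
        rw [hint, ← h1, RK.nsmul_tmul_eq]
      have hm0 : (m : ℚ) ≠ 0 := by exact_mod_cast hm.ne'
      have h3 : (q ⊗ₜ[ℤ] x : ℚ ⊗[ℤ] D) = Φ ((q * (m : ℚ)⁻¹) • fun j => (c j : ℚ)) := by
        rw [map_smul, ← h2, smul_smul, mul_assoc, inv_mul_cancel₀ hm0, mul_one,
          TensorProduct.smul_tmul', smul_eq_mul, mul_one]
      rw [h3]
      exact LinearMap.mem_range_self _ _
  have hinj : Function.Injective Φ := by
    rw [injective_iff_map_eq_zero]
    intro q hq
    by_contra hne
    obtain ⟨v, hv, N, hN⟩ := RK.exists_integral q hne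
    have h1 : Φ (fun j => (v j : ℚ)) = 0 := by
      have : (fun j => (v j : ℚ)) = N • q := by
        funext j
        rw [Pi.smul_apply, smul_eq_mul, hN j]
      rw [this, map_smul, hq, smul_zero]
    rw [hint] at h1
    obtain ⟨m, hm, hm0⟩ := FG.tmul_eq_zero h1
    have h2 : m • ∑ j, v j • g j = 0 := by
      have := congrArg (Subtype.val) hm0
      simpa [g'] using this
    have h3 : ∑ j, ((m : ℤ) * v j) • g j = 0 := by
      rw [← h2, Finset.smul_sum]
      refine Finset.sum_congr rfl fun j _ => ?_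
      rw [mul_smul, natCast_zsmul]
    have h4 := hind _ h3
    apply hv
    funext j
    have h5 := congrFun h4 j
    simp only [Pi.zero_apply, mul_eq_zero] at h5 ⊢
    rcases h5 with h5 | h5
    · exact absurd (by exact_mod_cast h5) hm.ne'
    · exact h5
  let e := LinearEquiv.ofBijective Φ ⟨hinj, hsurj⟩
  constructor
  · exact Module.Finite.equiv e
  · unfold rk
    rw [← e.finrank_eq, Module.finrank_fin_fun]

end Pool.Agent.Helper62.RH.RKR
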