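import Pool.Agent.Helper62.RH.Cor
import Pool.Agent.Helper62.RH.RKR

set_option autoImplicit false

/-!
# The consequences of the inequality for hypersurfaces
-/

namespace Pool.Agent.Helper62.RH.Cons

open Pool.Agent.Helper62.RE Pool.Agent.Helper62.RE.Hts
open scoped Classical

variable {a b : Qb} {n : ℕ}

/-- the statement proved in AsmV -/
def Key (a b : Qb) (n : ℕ) : Prop := ∀ (Γ : AddSubgroup (Fin n → EPt a b))
  (K : IntermediateField ℚ Qb), a ∈ K → b ∈ K → Main.LehmerGroup K Γ → ∀ v : Fin n → ℤ, v ≠ 0 →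
    SmallInForm K Γ v

/-- saturated groups -/
theorem sat (hab : 4 * a ^ 3 + 27 * b ^ 2 ≠ 0) {K : IntermediateField ℚ Qb}
    (ha : a ∈ K) (hb : b ∈ K) {Γ : AddSubgroup (Fin n → EPt a b)} (hsat : Main.Saturated Γ)
    {v : Fin n → ℤ} (h : SmallInForm K Γ v) : ∀ z ∈ coordGroup Γ, InForm Γ v z := by
  intro z hz
  have h1 := Cor.sat_of_small (S := fun z => ∃ γ ∈ Γ, z = ∑ i, v i • γ i) hab ha hb hsat ?_ h z hz
  · exact h1
  · rintro m z hm ⟨γ, hγ, rfl⟩
    refine ⟨m • γ, nsmul_mem hγ m, ?_⟩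
    rw [Finset.smul_sum]
    refine Finset.sum_congr rfl fun i _ => ?_
    rw [Pi.smul_apply, smul_comm]

/-- groups which are not finitely generated modulo torsion -/
theorem not_fg (hab : 4 * a ^ 3 + 27 * b ^ 2 ≠ 0) (hK : Key a b n)
    {Γ : AddSubgroup (Fin n → EPt a b)} (hfin : FinRk Γ) (hng : ¬ FGModTorsion Γ)
    (h : rk Γ < n ∨ ∃ v : Fin n → ℤ, v ≠ 0 ∧ TorsionForm Γ v) : NeverLehmer Γ := by
  intro K ha hb hL
  have hsm := exists_small HT2.main hab hfin hng
  rcases h with h | ⟨v, hv, hvT⟩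
  · obtain ⟨v, hv, h1⟩ := RK.main (EPt a b) n Γ ht hfin h hsm
    obtain ⟨ε, hε, h2⟩ := hK Γ K ha hb hL v hv
    obtain ⟨z, hz, hlt, h3⟩ := h1 ε hε
    obtain ⟨m, hm, γ, hγ, e⟩ := h2 z (by
      rw [Cor.deg_one (Cor.coords_mem ha hb Γ hz), Nat.cast_one, one_mul]
      exact hlt)
    exact h3 m hm γ hγ e
  · obtain ⟨ε, hε, h2⟩ := hK Γ K ha hb hL v hv
    obtain ⟨z, hz, hzt, hlt⟩ := hsm ε hε
    obtain ⟨m, hm, γ, hγ, e⟩ := h2 z (by
      rw [Cor.deg_one (Cor.coords_mem ha hb Γ hz), Nat.cast_one, one_mul]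
      exact hlt)
    obtain ⟨k, hk, e2⟩ := hvT γ hγ
    rw [← e, ← mul_smul] at e2
    exact hzt (k * m) (by positivity) e2

/-- saturated groups of rank less than `n` -/
theorem sat_rank (hab : 4 * a ^ 3 + 27 * b ^ 2 ≠ 0) (hK : Key a b n)
    {Γ : AddSubgroup (Fin n → EPt a b)} (hsat : Main.Saturated Γ) (h0 : 0 < rk Γ)
    (hrk : rk Γ < n) : NeverLehmer Γ :=
  not_fg hab hK (Module.finite_of_finrank_pos h0)
    (not_fg_of_saturated hab hsat (exists_nontorsion_of_rk h0)) (Or.inl hrk)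

/-- products of saturated groups -/
theorem prod (hab : 4 * a ^ 3 + 27 * b ^ 2 ≠ 0) (hK : Key a b n)
    (D : Fin n → AddSubgroup (EPt a b)) (hD : ∀ i, Sat (D i)) {K : IntermediateField ℚ Qb}
    (ha : a ∈ K) (hb : b ∈ K) (hL : Main.LehmerGroup K (prodGroup D)) (i j : Fin n) : D i ≤ D j := by
  have hsat : Main.Saturated (prodGroup D) := fun x m hm hx k => hD k (x k) m hm (hx k)
  intro z hz
  have hv : (Pi.single j 1 : Fin n → ℤ) ≠ 0 := by
    intro h
    have := congrFun h j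
    rw [Pi.single_eq_same, Pi.zero_apply] at this
    exact one_ne_zero this
  have h1 := sat hab ha hb hsat (hK (prodGroup D) K ha hb hL _ hv) z (by
    refine AddSubgroup.subset_closure ⟨Pi.single i z, fun k => ?_, i, by rw [Pi.single_eq_same]⟩
    by_cases hk : k = i
    · subst hk
      rw [Pi.single_eq_same]
      exact hz
    · rw [Pi.single_eq_of_ne hk]
      exact (D k).zero_mem)
  obtain ⟨m, hm, γ, hγ, e⟩ := h1
  have e2 : ∑ k, (Pi.single j 1 : Fin n → ℤ) k • γ k = γ j := by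
    rw [Finset.sum_eq_single j]
    · rw [Pi.single_eq_same, one_zsmul]
    · intro k _ hk
      rw [Pi.single_eq_of_ne hk, zero_zsmul]
    · intro h
      exact absurd (Finset.mem_univ j) h
  rw [e2] at e
  exact hD j z m hm (by rw [e]; exact hγ j)

/-- all ranks -/
theorem exists_rank (hab : 4 * a ^ 3 + 27 * b ^ 2 ≠ 0) (hK : Key a b n) (hn : 2 ≤ n) (r : ℕ)
    (hr : 1 ≤ r) : ∃ Γ : AddSubgroup (Fin n → EPt a b), Main.Saturated Γ ∧ rk Γ = r ∧
      NeverLehmer Γ := by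
  obtain ⟨R, hR⟩ := exists_nontorsion INF.main hab
  have hO := isEndRing_int a b
  obtain ⟨S, hS⟩ := IND.main (EPt a b) _ hO.1 hO.2.1 hO.2.2 (INF.main a b hab) ∅ Set.finite_empty r
  have hind : ∀ c : Fin r → ℤ, ∑ j, c j • S j = 0 → c = 0 := by
    intro c hc
    have h1 := hS (fun j => (c j : AddMonoid.End (EPt a b))) (fun j => ⟨c j, rfl⟩) 0
      ⟨1, one_pos, by rw [one_smul]; exact zero_mem _⟩ (by
        rw [← hc]
        refine Finset.sum_congr rfl fun j _ => ?_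
        rfl)
    funext j
    have h2 := congrArg (fun w : Fin r → AddMonoid.End (EPt a b) => w j R) h1
    have h3 : c j • R = 0 := h2
    by_contra hcj
    have hcj' : c j ≠ 0 := hcj
    rcases Int.natAbs_eq (c j) with h4 | h4
    · rw [h4, natCast_zsmul] at h3
      exact hR _ (by omega) h3
    · rw [h4, neg_smul, natCast_zsmul, neg_eq_zero] at h3
      exact hR _ (by omega) h3
  set i₀ : Fin n := ⟨0, by omega⟩ with hi₀
  set i₁ : Fin n := ⟨1, by omega⟩ with hi₁
  have hne : i₁ ≠ i₀ := by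
    intro h
    have := congrArg Fin.val h
    simp [hi₀, hi₁] at this
  set g : Fin r → Fin n → EPt a b := fun j => Pi.single i₀ (S j) with hg
  set Γ : AddSubgroup (Fin n → EPt a b) := satu (AddSubgroup.closure (Set.range g)) with hΓ
  have hgΓ : ∀ j, g j ∈ Γ := fun j =>
    ⟨1, one_pos, by rw [one_smul]; exact AddSubgroup.subset_closure ⟨j, rfl⟩⟩
  have hsat : Main.Saturated Γ := fun x m hm hx => satu_of_nsmul hm hx
  obtain ⟨hfin, hrk⟩ := RKR.main (Fin n → EPt a b) r g Γ (by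
    intro c hc
    refine hind c ?_
    have h1 : (∑ j, c j • g j) i₀ = 0 := by rw [hc]; rfl
    rw [Finset.sum_apply] at h1
    rw [← h1]
    refine Finset.sum_congr rfl fun j _ => ?_
    rw [Pi.smul_apply, hg]
    simp only [Pi.single_eq_same]) (fun x => Iff.rfl)
  refine ⟨Γ, hsat, hrk, fun K ha hb hL => ?_⟩
  have hv : (Pi.single i₁ 1 : Fin n → ℤ) ≠ 0 := by
    intro h
    have := congrFun h i₁
    rw [Pi.single_eq_same, Pi.zero_apply] at this
    exact one_ne_zero this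
  obtain ⟨m, hm, γ, hγ, e⟩ := sat hab ha hb hsat (hK Γ K ha hb hL _ hv) (S ⟨0, hr⟩)
    (AddSubgroup.subset_closure ⟨g ⟨0, hr⟩, hgΓ _, i₀, by
      show _ = (Pi.single i₀ (S ⟨0, hr⟩) : Fin n → EPt a b) i₀
      rw [Pi.single_eq_same]⟩)
  have e2 : ∑ k, (Pi.single i₁ 1 : Fin n → ℤ) k • γ k = γ i₁ := by
    rw [Finset.sum_eq_single i₁]
    · rw [Pi.single_eq_same, one_zsmul]
    · intro k _ hk
      rw [Pi.single_eq_of_ne hk, zero_zsmul]
    · intro h
      exact absurd (Finset.mem_univ i₁) h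
  rw [e2] at e
  obtain ⟨k, hk, hkγ⟩ := hγ
  have h0 : ∀ x ∈ AddSubgroup.closure (Set.range g), x i₁ = 0 := by
    intro x hx
    induction hx using AddSubgroup.closure_induction with
    | mem x hx =>
      obtain ⟨j, rfl⟩ := hx
      exact Pi.single_eq_of_ne hne _
    | zero => rfl
    | add x y _ _ hx hy => rw [Pi.add_apply, hx, hy, add_zero]
    | neg x _ hx => rw [Pi.neg_apply, hx, neg_zero]
  have h1 : (k * m) • S ⟨0, hr⟩ = 0 := by
    rw [mul_smul, e]
    exact h0 _ hkγ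
  have h2 := hind (Pi.single ⟨0, hr⟩ ((k * m : ℕ) : ℤ)) (by
    rw [Finset.sum_eq_single ⟨0, hr⟩]
    · rw [Pi.single_eq_same, natCast_zsmul]
      exact h1
    · intro j _ hj
      rw [Pi.single_eq_of_ne hj, zero_zsmul]
    · intro h
      exact absurd (Finset.mem_univ _) h)
  have h3 := congrFun h2 ⟨0, hr⟩
  rw [Pi.single_eq_same, Pi.zero_apply] at h3
  have h4 : 0 < k * m := by positivity
  omega

end Pool.Agent.Helper62.RH.Cons
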