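import Pool.Agent.Helper62.RH.Stm2

set_option autoImplicit false

/-! The degree of `{x | (lin A x) i ∈ Q}` (module DGV, helper9). -/

namespace Pool.Agent.Helper62.RH.DGV

open Pool.Agent.Helper62.RE Pool.Agent.Helper62.RH
open scoped Classical

theorem main (h : S_HBV) : S_DGV := by
  intro a b hab n i A B hAB hBA
  obtain ⟨D, hD⟩ := h a b hab n i A B hAB hBA
  refine ⟨(n.factorial : ℝ) * (3 * (((n : ℝ) + 1) * D + 1)) ^ n, by positivity, fun Q hQ => ?_⟩
  unfold degree
  refine Filter.limsup_le_of_le ?_ ?_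
  · refine Filter.isCoboundedUnder_le_of_le Filter.atTop (x := 0) fun N => ?_
    positivity
  · filter_upwards [Filter.eventually_ge_atTop 1] with N hN
    have h1 := hD Q hQ N
    have hN1 : (1 : ℝ) ≤ N := by exact_mod_cast hN
    have hN0 : (0 : ℝ) < (N : ℝ) ^ n := by positivity
    rw [div_le_iff₀ hN0]
    have h2 : (hilb {x : Fin (n + 1) → EPt a b | lin A x i ∈ Q} N : ℝ) ≤
        (Q.ncard : ℝ) * (3 * (((n : ℝ) + 1) * N * D + 1)) ^ n := by exact_mod_cast h1
    have h3 : (3 * (((n : ℝ) + 1) * N * D + 1)) ^ n ≤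
        (3 * (((n : ℝ) + 1) * D + 1)) ^ n * (N : ℝ) ^ n := by
      rw [← mul_pow]
      refine pow_le_pow_left₀ (by positivity) ?_ n
      have : 3 * (((n : ℝ) + 1) * D + 1) * N = 3 * (((n : ℝ) + 1) * N * D + N) := by ring
      rw [this]
      linarith
    calc (n.factorial : ℝ) * (hilb {x : Fin (n + 1) → EPt a b | lin A x i ∈ Q} N : ℝ)
        ≤ (n.factorial : ℝ) * ((Q.ncard : ℝ) * ((3 * (((n : ℝ) + 1) * D + 1)) ^ n * (N : ℝ) ^ n)) := by
          refine mul_le_mul_of_nonneg_left (h2.trans ?_) (by positivity)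
          exact mul_le_mul_of_nonneg_left h3 (by positivity)
      _ = (Q.ncard : ℝ) * ((n.factorial : ℝ) * (3 * (((n : ℝ) + 1) * D + 1)) ^ n) * (N : ℝ) ^ n := by
          ring

end Pool.Agent.Helper62.RH.DGV
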