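import Pool.Agent.Helper62.RH.Stm2
import Pool.Agent.Helper62.RE.HT2
import Pool.Agent.Helper62.RE.Hts

set_option autoImplicit false

/-!
# Module EMV: the essential minimum of `(lin A x)_i = z` (helper88)
-/

namespace Pool.Agent.Helper62.RH.EMV

open Pool.Agent.Helper62.RE
open scoped Classical

variable {a b : Qb} {n : ℕ}

theorem closed_empty : IsZClosed (∅ : Set (Fin n → EPt a b)) := by
  refine ⟨{1}, fun f hf => ⟨fun _ => 0, ?_⟩, ?_⟩
  · rw [Set.mem_singleton_iff.1 hf]
    intro i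
    exact MvPolynomial.isWeightedHomogeneous_one _ _
  · ext P
    simp [value]

/-- torsion points -/
def Tors (y : EPt a b) : Prop := ∃ m : ℕ, 0 < m ∧ m • y = 0

theorem tors_iff (y : EPt a b) : Tors y ↔ y ∈ AddCommGroup.torsion (EPt a b) :=
  isOfFinAddOrder_iff_nsmul_eq_zero.symm

/-- a closed set which contains the points with torsion coordinates contains `x_i = z` -/
theorem dense (hSLC : S_SLC) (hTOR : S_TOR) (hab : 4 * a ^ 3 + 27 * b ^ 2 ≠ 0) (i : Fin n)
    (z : EPt a b) (W : Set (Fin n → EPt a b)) (hW : IsZClosed W)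
    (h : ∀ y : Fin n → EPt a b, y i = z → (∀ j, j ≠ i → Tors (y j)) → y ∈ W) :
    ∀ y : Fin n → EPt a b, y i = z → y ∈ W := by
  have key : ∀ T : Finset (Fin n), i ∉ T → ∀ y : Fin n → EPt a b, y i = z →
      (∀ j, j ≠ i → j ∉ T → Tors (y j)) → y ∈ W := by
    intro T
    induction T using Finset.induction_on with
    | empty => exact fun _ y h1 h2 => h y h1 (fun j hj => h2 j hj (Finset.notMem_empty j))
    | insert j T hj ih =>
      intro hi y h1 h2
      rw [Finset.mem_insert, not_or] at hi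
      have h4 : ∀ t : EPt a b, Tors t → Function.update y j t ∈ W := by
        intro t ht
        apply ih hi.2
        · rw [Function.update_of_ne hi.1]
          exact h1
        · intro l hl hlT
          by_cases hlj : l = j
          · subst hlj
            rw [Function.update_self]
            exact ht
          · rw [Function.update_of_ne hlj]
            exact h2 l hl (by rw [Finset.mem_insert, not_or]; exact ⟨hlj, hlT⟩)
      rcases (hSLC a b hab n W hW j).2 y with h3 | h3
      · exact absurd (h3.subset fun t ht => h4 t ht) (hTOR a b hab)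
      · have := h3 (y j)
        rwa [Function.update_eq_self] at this
  intro y hy
  exact key (Finset.univ.erase i) (Finset.notMem_erase _ _) y hy
    (fun j hj hjT => absurd (Finset.mem_erase.2 ⟨hj, Finset.mem_univ _⟩) hjT)

/-- adding a torsion point does not change the height -/
theorem ht_add (hab : 4 * a ^ 3 + 27 * b ^ 2 ≠ 0) (P T : EPt a b) (hT : Tors T) :
    ht (P + T) = ht P := by
  obtain ⟨-, h0, hp⟩ := HT2.main a b hab
  obtain ⟨m, hm, hmT⟩ := hT
  have h1 := Hts.f_nsmul hp (P + T) m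
  have h2 := Hts.f_nsmul hp P m
  rw [nsmul_add, hmT, add_zero, h2] at h1
  have h3 : ((m : ℝ) ^ 2) ≠ 0 := by positivity
  exact (mul_left_cancel₀ h3 h1).symm

theorem ht_lin (hab : 4 * a ^ 3 + 27 * b ^ 2 ≠ 0) (B : Matrix (Fin n) (Fin n) ℤ) (i k : Fin n)
    (y : Fin n → EPt a b) (h : ∀ j, j ≠ i → Tors (y j)) :
    ht (lin B y k) = ((B k i : ℤ) : ℝ) ^ 2 * ht (y i) := by
  obtain ⟨-, h0, hp⟩ := HT2.main a b hab
  have h1 : lin B y k = B k i • y i + ∑ l ∈ Finset.univ.erase i, B k l • y l := by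
    unfold lin
    exact (Finset.add_sum_erase _ _ (Finset.mem_univ i)).symm
  have h2 : Tors (∑ l ∈ Finset.univ.erase i, B k l • y l) := by
    rw [tors_iff]
    refine sum_mem fun l hl => ?_
    exact zsmul_mem ((tors_iff _).1 (h l (Finset.ne_of_mem_erase hl))) _
  rw [h1, ht_add hab _ _ h2, Hts.f_zsmul hp, sq_abs]

theorem main : S_RLI → S_CON → S_SLC → S_TOR → S_EMV := by
  intro hRLI hCON hSLC hTOR a b hab n i A B hAB hBA
  obtain ⟨-, h0, hp⟩ := HT2.main a b hab
  have hC : 0 ≤ ∑ k, ((B k i : ℤ) : ℝ) ^ 2 := Finset.sum_nonneg fun _ _ => sq_nonneg _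
  refine ⟨3 * ∑ k, ((B k i : ℤ) : ℝ) ^ 2 + 1, by positivity, fun z => ?_⟩
  set V : Set (Fin n → EPt a b) := {x | lin A x i = z} with hV
  have hmem : ∀ y : Fin n → EPt a b, y i = z → lin B y ∈ V := by
    intro y hy
    show lin A (lin B y) i = z
    rw [lin_lin, hAB, lin_one, hy]
  have hne : V.Nonempty := ⟨lin B (fun _ => z), hmem _ rfl⟩
  have hlow : ∀ θ ∈ {θ : ℝ | ∀ W : Set (Fin n → EPt a b), IsZClosed W →
      {x | x ∈ V ∧ hG x ≤ θ} ⊆ W → V ⊆ W}, 0 ≤ θ := by
    intro θ hθ
    by_contra hneg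
    push Not at hneg
    have h1 : {x | x ∈ V ∧ hG x ≤ θ} ⊆ (∅ : Set (Fin n → EPt a b)) := by
      rintro x ⟨-, hx⟩
      have h2 : 0 ≤ hG x := by
        unfold hG
        have : 0 ≤ ∑ i, ht (x i) := Finset.sum_nonneg fun j _ => h0 (x j)
        linarith
      linarith
    obtain ⟨x, hx⟩ := hne
    exact hθ ∅ closed_empty h1 hx
  refine ⟨Real.sInf_nonneg hlow, csInf_le ⟨0, hlow⟩ ?_⟩
  intro W hW hsub
  obtain ⟨D, hD⟩ := hRLI a b hab n B
  have hW' := hCON a b n D (lin B) hD W hW
  have hd := dense hSLC hTOR hab i z (lin B ⁻¹' W) hW' (fun y hy htors => by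
    apply hsub
    refine ⟨hmem y hy, ?_⟩
    unfold hG
    have h1 : ∑ k, ht (lin B y k) = (∑ k, ((B k i : ℤ) : ℝ) ^ 2) * ht z := by
      rw [Finset.sum_mul]
      refine Finset.sum_congr rfl fun k _ => ?_
      rw [ht_lin hab B i k y htors, hy]
    rw [h1]
    have h2 := h0 z
    nlinarith)
  intro x hx
  have h1 := hd (lin A x) hx
  have h2 : lin B (lin A x) = x := by rw [lin_lin, hBA, lin_one]
  rw [Set.mem_preimage, h2] at h1
  exact h1

end Pool.Agent.Helper62.RH.EMV
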