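import Pool.Agent.Helper62.RH.Stm
import Pool.Agent.Helper62.RE.Geo

/-! # The sets `x_i ∈ Q`, `Q` finite, are equidimensional (helper93) -/

set_option autoImplicit false

namespace Pool.Agent.Helper62.RH.EQU

open Pool.Agent.Helper62.RE
open scoped Classical

variable {a b : Qb} {n : ℕ}

lemma closed_of_finite {n : ℕ} (hI : S_INT) (i : Fin n) {Q : Set (EPt a b)} (hQ : Q.Finite) :
    IsZClosed {x : Fin n → EPt a b | x i ∈ Q} := by
  induction Q, hQ using Set.Finite.induction_on with
  | empty =>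
    have h1 : {x : Fin n → EPt a b | x i ∈ (∅ : Set (EPt a b))} = ∅ := by
      ext x
      simp
    rw [h1]
    exact isZClosed_empty
  | @insert q Q' _ _ ih =>
    have h1 : {x : Fin n → EPt a b | x i ∈ insert q Q'} =
        {x : Fin n → EPt a b | x i = q} ∪ {x : Fin n → EPt a b | x i ∈ Q'} := by
      ext x
      simp
    rw [h1]
    exact ((hI a b n).2.1 i q).union ih

lemma exists_q {n : ℕ} (hI : S_INT) (i : Fin n) {W : Set (Fin n → EPt a b)} (hW : IsSubvariety W)
    {Q : Set (EPt a b)} (hQ : Q.Finite) :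
    W ⊆ {x : Fin n → EPt a b | x i ∈ Q} → ∃ q ∈ Q, W ⊆ {x : Fin n → EPt a b | x i = q} := by
  induction Q, hQ using Set.Finite.induction_on with
  | empty =>
    intro h
    obtain ⟨x, hx⟩ := hW.2.1
    exact absurd (h hx) (by simp)
  | @insert q Q' _ hQ' ih =>
    intro h
    rcases hW.2.2 {x : Fin n → EPt a b | x i = q} {x : Fin n → EPt a b | x i ∈ Q'}
      ((hI a b n).2.1 i q) (closed_of_finite hI i hQ') (fun x hx => h hx) with h1 | h1
    · exact ⟨q, Set.mem_insert _ _, h1⟩
    · obtain ⟨q', hq', h2⟩ := ih h1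
      exact ⟨q', Set.mem_insert_of_mem _ hq', h2⟩

/-- the first `k` indices different from `i` -/
def TT (i : Fin (n + 1)) (k : ℕ) : Finset (Fin (n + 1)) :=
  Finset.univ.filter fun m => ∃ l : Fin n, l.val < k ∧ i.succAbove l = m

/-- the subvarieties of the chain -/
def VV (i : Fin (n + 1)) (z : EPt a b) (k : ℕ) : Set (Fin (n + 1) → EPt a b) :=
  {x | ∀ m, m ∉ TT i k → x m = z}

lemma VV_sub (i : Fin (n + 1)) (z : EPt a b) (k : ℕ) :
    VV i z k ⊆ {x : Fin (n + 1) → EPt a b | x i = z} := by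
  intro x hx
  refine hx i ?_
  unfold TT
  rw [Finset.mem_filter]
  rintro ⟨-, l, -, hl⟩
  exact Fin.succAbove_ne i l hl

lemma VV_lt (i : Fin (n + 1)) {z z' : EPt a b} (hz : z' ≠ z) {k : ℕ} (hk : k < n) :
    VV i z k ⊂ VV i z (k + 1) := by
  have h1 : TT i k ⊆ TT i (k + 1) := by
    intro m hm
    unfold TT at hm ⊢
    rw [Finset.mem_filter] at hm ⊢
    obtain ⟨h1, l, h2, h3⟩ := hm
    exact ⟨h1, l, by omega, h3⟩
  refine ⟨fun x hx m hm => hx m fun h => hm (h1 h), fun h => ?_⟩
  let x : Fin (n + 1) → EPt a b := fun m => if m = i.succAbove ⟨k, hk⟩ then z' else z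
  have h2 : x ∈ VV i z (k + 1) := by
    intro m hm
    show (if m = i.succAbove ⟨k, hk⟩ then z' else z) = z
    rw [if_neg]
    rintro rfl
    apply hm
    unfold TT
    rw [Finset.mem_filter]
    exact ⟨Finset.mem_univ _, ⟨k, hk⟩, by simp, rfl⟩
  have h3 := h h2 (i.succAbove ⟨k, hk⟩) (by
    unfold TT
    rw [Finset.mem_filter]
    rintro ⟨-, l, hl, hl2⟩
    have h4 := Fin.succAbove_right_injective hl2
    rw [h4] at hl
    simp at hl)
  have h4 : x (i.succAbove ⟨k, hk⟩) = z' := if_pos rfl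
  rw [h4] at h3
  exact hz h3

theorem main : S_KDM → S_IRR → S_INT → S_TOR → S_EQU := by
  intro hK hR hI hT a b hab n i Q hQ W hW hWQ hmax
  obtain ⟨q, hq, hWq⟩ := exists_q hI i hW hQ hWQ
  have h1 : IsSubvariety {x : Fin (n + 1) → EPt a b | x i = q} := by
    have h2 := hR a b hab (n + 1) (Finset.univ.erase i) (fun _ => q)
    have h3 : {x : Fin (n + 1) → EPt a b | ∀ m, m ∉ Finset.univ.erase i → x m = q} =
        {x : Fin (n + 1) → EPt a b | x i = q} := by
      ext x
      simp only [Set.mem_ofPred_eq]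
      constructor
      · intro h
        exact h i (by simp)
      · intro h m hm
        have : m = i := by
          by_contra hne
          exact hm (Finset.mem_erase.2 ⟨hne, Finset.mem_univ _⟩)
        rw [this, h]
    rw [h3] at h2
    exact h2
  have h2 := hmax _ h1 (fun x hx => by
    have hx' : x i = q := hx
    show x i ∈ Q
    rw [hx']
    exact hq) hWq
  rw [← h2]
  unfold HasDim
  apply le_antisymm (hK a b hab n i q)
  -- another point
  obtain ⟨z', -, hz'⟩ : ∃ z' ∈ {y : EPt a b | ∃ m : ℕ, 0 < m ∧ m • y = 0}, z' ≠ q := by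
    by_contra hcon
    push Not at hcon
    exact hT a b hab ((Set.finite_singleton q).subset hcon)
  let s : LTSeries {W : Set (Fin (n + 1) → EPt a b) // IsSubvariety W ∧
      W ⊆ {x : Fin (n + 1) → EPt a b | x i = q}} :=
    { length := n
      toFun := fun k => ⟨VV i q k.val, hR a b hab (n + 1) (TT i k.val) (fun _ => q), VV_sub i q _⟩
      step := fun k => by
        show VV i q k.castSucc.val ⊂ VV i q k.succ.val
        rw [Fin.val_castSucc, Fin.val_succ]
        exact VV_lt i hz' k.isLt }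
  exact Order.le_krullDim_iff.2 ⟨s, rfl⟩

end Pool.Agent.Helper62.RH.EQU
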