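import Pool.Agent.Helper62.RH.Stm2

set_option autoImplicit false

/-!
# Module EXT (helper37): unimodular completion
-/

namespace Pool.Agent.Helper62.RH.EXT

open Pool.Agent.Helper62.RH

theorem main : S_EXT := by
  intro n v hv
  obtain ⟨r, snf⟩ := (Submodule.span ℤ {v}).smithNormalForm (Pi.basisFun ℤ (Fin (n + 1)))
  have hr : r = 1 := by
    have e := LinearEquiv.toSpanNonzeroSingleton ℤ (Fin (n + 1) → ℤ) v hv
    have h1 := Module.finrank_eq_card_basis (snf.bN.map e.symm)
    rw [Module.finrank_self, Fintype.card_fin] at h1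
    exact h1.symm
  subst hr
  have hmem : v ∈ Submodule.span ℤ {v} := Submodule.mem_span_singleton_self v
  set c : ℤ := snf.bN.repr ⟨v, hmem⟩ 0 * snf.a 0 with hc
  have hvc : v = c • snf.bM (snf.f 0) := by
    have h1 := snf.bN.sum_repr ⟨v, hmem⟩
    rw [Fin.sum_univ_one] at h1
    have h2 := congrArg Subtype.val h1
    rw [Submodule.coe_smul, snf.snf, smul_smul] at h2
    exact h2.symm
  have hc0 : c ≠ 0 := by
    intro h
    apply hv
    rw [hvc, h, zero_smul]
  set b := snf.bM.reindex (Equiv.swap (snf.f 0) 0) with hb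
  have hb0 : b 0 = snf.bM (snf.f 0) := by
    rw [hb, Module.Basis.reindex_apply, Equiv.symm_swap, Equiv.swap_apply_right]
  set M := (Pi.basisFun ℤ (Fin (n + 1))).toMatrix b with hM
  set M' := b.toMatrix (Pi.basisFun ℤ (Fin (n + 1))) with hM'
  have h1 : M * M' = 1 := Module.Basis.toMatrix_mul_toMatrix_flip _ _
  have h2 : M' * M = 1 := Module.Basis.toMatrix_mul_toMatrix_flip _ _
  have hs : c.sign * c.sign = 1 := by
    rcases lt_or_gt_of_ne hc0 with h | h
    · rw [Int.sign_eq_neg_one_of_neg h]; norm_num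
    · rw [Int.sign_eq_one_of_pos h]; norm_num
  refine ⟨c.natAbs, c.sign • M.transpose, c.sign • M'.transpose, Int.natAbs_pos.2 hc0, ?_, ?_, ?_⟩
  · rw [Matrix.smul_mul, Matrix.mul_smul, smul_smul, hs, one_smul, ← Matrix.transpose_mul, h2,
      Matrix.transpose_one]
  · rw [Matrix.smul_mul, Matrix.mul_smul, smul_smul, hs, one_smul, ← Matrix.transpose_mul, h1,
      Matrix.transpose_one]
  · intro l
    have h3 : M l 0 = b 0 l := by
      rw [hM, Module.Basis.toMatrix_apply, Pi.basisFun_repr]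
    rw [Matrix.smul_apply, Matrix.transpose_apply, h3, hb0, smul_eq_mul, ← mul_assoc, mul_comm (c.natAbs : ℤ),
      Int.sign_mul_natAbs]
    conv_lhs => rw [hvc]
    rw [Pi.smul_apply, smul_eq_mul]

end Pool.Agent.Helper62.RH.EXT
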