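import Pool.Agent.Helper62.RH.Stm

set_option autoImplicit false

/-!
# The Hilbert function of `x_i ∈ Q`
-/

namespace Pool.Agent.Helper62.RH.HLB

open Pool.Agent.Helper62.RE
open scoped Classical

variable {a b : Qb}

/-- the equation of the curve in homogeneous coordinates -/
lemma curve_eq (P : EPt a b) : homog P 0 ^ 3 =
    homog P 1 ^ 2 * homog P 2 - a * homog P 0 * homog P 2 ^ 2 - b * homog P 2 ^ 3 := by
  rcases P with _ | ⟨x, y, h⟩
  · simp [homog]
  · have h1 := (WeierstrassCurve.Affine.equation_iff _ _).1 h.1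
    simp only [curve] at h1
    simp only [homog, Matrix.cons_val_zero, Matrix.cons_val_one, Matrix.cons_val]
    linear_combination -h1

/-- the monomials with exponent at most two of the first variable -/
noncomputable def mono (a b : Qb) (N : ℕ) (m : Fin 3 × Fin (N + 1)) : EPt a b → Qb :=
  fun P => homog P 0 ^ (m.1 : ℕ) * homog P 1 ^ (m.2 : ℕ) * homog P 2 ^ (N - m.1 - m.2)

lemma mono_mem (a b : Qb) (N : ℕ) : ∀ u v w : ℕ, u + v + w = N →
    (fun P : EPt a b => homog P 0 ^ u * homog P 1 ^ v * homog P 2 ^ w) ∈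
      Submodule.span Qb (Set.range (mono a b N)) := by
  intro u
  induction u using Nat.strong_induction_on with
  | _ u ih =>
    intro v w h
    by_cases hu : u < 3
    · refine Submodule.subset_span ⟨(⟨u, hu⟩, ⟨v, by omega⟩), ?_⟩
      funext P
      unfold mono
      simp only
      congr 2
      omega
    · obtain ⟨u', rfl⟩ : ∃ u', u = u' + 3 := ⟨u - 3, by omega⟩
      have h1 := ih u' (by omega) (v + 2) (w + 1) (by omega)
      have h2 := ih (u' + 1) (by omega) v (w + 2) (by omega)
      have h3 := ih u' (by omega) v (w + 3) (by omega)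
      have h4 := Submodule.sub_mem _ (Submodule.sub_mem _ h1 (Submodule.smul_mem _ a h2))
        (Submodule.smul_mem _ b h3)
      convert h4 using 1
      funext P
      simp only [Pi.sub_apply, Pi.smul_apply, smul_eq_mul]
      rw [pow_add (homog P 0) u' 3, curve_eq P]
      ring

variable {n : ℕ}

/-- the spanning family -/
noncomputable def gen (i : Fin (n + 1)) (Q : Set (EPt a b)) (N : ℕ)
    (qm : Q × (Fin n → Fin 3 × Fin (N + 1))) :
    {x : Fin (n + 1) → EPt a b | x i ∈ Q} → Qb :=
  fun z => if z.1 i = qm.1.1 then ∏ k : Fin n, mono a b N (qm.2 k) (z.1 (i.succAbove k)) else 0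

lemma prod_mem (i : Fin (n + 1)) (Q : Set (EPt a b)) (N : ℕ) (q : Q) (h : Fin n → EPt a b → Qb)
    (hh : ∀ k, h k ∈ Submodule.span Qb (Set.range (mono a b N))) :
    (fun z : {x : Fin (n + 1) → EPt a b | x i ∈ Q} =>
      if z.1 i = q.1 then ∏ k : Fin n, h k (z.1 (i.succAbove k)) else 0) ∈
      Submodule.span Qb (Set.range (gen i Q N)) := by
  have h1 : ∀ k, ∃ c : Fin 3 × Fin (N + 1) → Qb, ∑ m, c m • mono a b N m = h k := fun k =>
    (Submodule.mem_span_range_iff_exists_fun Qb).1 (hh k)
  choose c hc using h1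
  have h2 : (fun z : {x : Fin (n + 1) → EPt a b | x i ∈ Q} =>
      if z.1 i = q.1 then ∏ k : Fin n, h k (z.1 (i.succAbove k)) else 0) =
      ∑ m : Fin n → Fin 3 × Fin (N + 1), (∏ k, c k (m k)) • gen i Q N (q, m) := by
    funext z
    rw [Finset.sum_apply]
    simp only [Pi.smul_apply, smul_eq_mul, gen]
    by_cases hz : z.1 i = q.1
    · simp only [if_pos hz]
      have h3 : ∀ k, h k (z.1 (i.succAbove k)) =
          ∑ m, c k m * mono a b N m (z.1 (i.succAbove k)) := by
        intro k
        rw [← hc k, Finset.sum_apply]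
        rfl
      simp only [h3]
      rw [Finset.prod_univ_sum, Fintype.piFinset_univ]
      refine Finset.sum_congr rfl fun m _ => ?_
      rw [Finset.prod_mul_distrib]
    · simp only [if_neg hz, mul_zero, Finset.sum_const_zero]
  rw [h2]
  exact Submodule.sum_mem _ fun m _ => Submodule.smul_mem _ _ (Submodule.subset_span ⟨_, rfl⟩)

/-- one monomial -/
lemma monomial_mem (i : Fin (n + 1)) (Q : Set (EPt a b)) [Fintype Q] (N : ℕ)
    (s : Fin (n + 1) → Fin 3 → ℕ) (hs : ∀ j, s j 0 + s j 1 + s j 2 = N) :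
    (fun z : {x : Fin (n + 1) → EPt a b | x i ∈ Q} =>
      ∏ j : Fin (n + 1), ∏ l : Fin 3, homog (z.1 j) l ^ s j l) ∈
      Submodule.span Qb (Set.range (gen i Q N)) := by
  have h1 : (fun z : {x : Fin (n + 1) → EPt a b | x i ∈ Q} =>
      ∏ j : Fin (n + 1), ∏ l : Fin 3, homog (z.1 j) l ^ s j l) =
      ∑ q : Q, (∏ l : Fin 3, homog q.1 l ^ s i l) •
        (fun z : {x : Fin (n + 1) → EPt a b | x i ∈ Q} =>
          if z.1 i = q.1 then ∏ k : Fin n, (fun P : EPt a b => homog P 0 ^ s (i.succAbove k) 0 *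
            homog P 1 ^ s (i.succAbove k) 1 * homog P 2 ^ s (i.succAbove k) 2)
              (z.1 (i.succAbove k)) else 0) := by
    funext z
    rw [Finset.sum_apply, Fin.prod_univ_succAbove _ i]
    rw [Finset.sum_eq_single (⟨z.1 i, z.2⟩ : Q)]
    · simp only [Pi.smul_apply, smul_eq_mul, if_true]
      congr 1
      refine Finset.prod_congr rfl fun k _ => ?_
      rw [Fin.prod_univ_three]
    · intro q _ hq
      have h2 : z.1 i ≠ q.1 := fun h => hq (Subtype.ext h.symm)
      simp only [Pi.smul_apply, if_neg h2, smul_zero]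
    · intro h
      exact absurd (Finset.mem_univ _) h
  rw [h1]
  refine Submodule.sum_mem _ fun q _ => Submodule.smul_mem _ _ ?_
  exact prod_mem i Q N q _ fun k => mono_mem a b N _ _ _ (hs _)

lemma value_mem (i : Fin (n + 1)) (Q : Set (EPt a b)) [Fintype Q] (N : ℕ)
    (f : MvPolynomial (Fin (n + 1) × Fin 3) Qb) (hf : MultiHomog f (fun _ => N)) :
    (fun z : {x : Fin (n + 1) → EPt a b | x i ∈ Q} => value f z.1) ∈
      Submodule.span Qb (Set.range (gen i Q N)) := by
  have h1 : (fun z : {x : Fin (n + 1) → EPt a b | x i ∈ Q} => value f z.1) =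
      ∑ s ∈ f.support, f.coeff s • (fun z : {x : Fin (n + 1) → EPt a b | x i ∈ Q} =>
        ∏ j : Fin (n + 1), ∏ l : Fin 3, homog (z.1 j) l ^ s (j, l)) := by
    funext z
    rw [Finset.sum_apply]
    unfold value
    rw [MvPolynomial.eval_eq']
    refine Finset.sum_congr rfl fun s _ => ?_
    rw [Pi.smul_apply, smul_eq_mul]
    congr 1
    exact Fintype.prod_prod_type _
  rw [h1]
  refine Submodule.sum_mem _ fun s hs => Submodule.smul_mem _ _ ?_
  refine monomial_mem i Q N (fun j l => s (j, l)) fun j => ?_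
  have h2 := hf j (MvPolynomial.mem_support_iff.1 hs)
  rw [Finsupp.weight_apply, Finsupp.sum_fintype _ _ (fun p => by simp)] at h2
  rw [Fintype.sum_prod_type, Finset.sum_eq_single j] at h2
  · rw [Fin.sum_univ_three] at h2
    simpa using h2
  · intro j' _ hj
    simp [hj]
  · intro h
    exact absurd (Finset.mem_univ _) h

theorem main : S_HLB := by
  intro a b n i Q hQ N
  have : Fintype Q := hQ.fintype
  unfold hilb
  have h1 : Set.finrank Qb {φ : {x : Fin (n + 1) → EPt a b | x i ∈ Q} → Qb |
      ∃ f : MvPolynomial (Fin (n + 1) × Fin 3) Qb, MultiHomog f (fun _ => N) ∧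
        ∀ z, φ z = value f z.1} ≤ Set.finrank Qb (Set.range (gen i Q N)) := by
    unfold Set.finrank
    have : Module.Finite Qb (Submodule.span Qb (Set.range (gen i Q N))) :=
      FiniteDimensional.span_of_finite Qb (Set.finite_range _)
    refine Submodule.finrank_mono ?_
    rw [Submodule.span_le]
    rintro φ ⟨f, hf, hφ⟩
    have h2 : φ = fun z => value f z.1 := funext hφ
    rw [h2]
    exact value_mem i Q N f hf
  refine h1.trans ((finrank_range_le_card _).trans ?_)
  rw [Fintype.card_prod, Fintype.card_fun, Fintype.card_prod, Fintype.card_fin, Fintype.card_fin,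
    Fintype.card_fin, Set.ncard_eq_toFinset_card' Q, Set.toFinset_card]

end Pool.Agent.Helper62.RH.HLB

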