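import Pool.Agent.Helper62.RH.Stm2
import Pool.Agent.Helper62.RH.HLB
import Pool.Agent.Helper62.RE.Geo

set_option autoImplicit false

/-!
# The Hilbert function of the hypersurfaces `(lin A x) i ∈ Q`  (module HBV, helper53)
-/

namespace Pool.Agent.Helper62.RH.HBV

open Pool.Agent.Helper62.RE
open scoped Classical

variable {a b : Qb} {n : ℕ}

/-- the polynomials of degree `N` in each triple of variables -/
noncomputable def MH (n N : ℕ) : Submodule Qb (MvPolynomial (Fin n × Fin 3) Qb) :=
  ⨅ i : Fin n, MvPolynomial.weightedHomogeneousSubmodule Qb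
    (fun p : Fin n × Fin 3 => if p.1 = i then 1 else 0) N

lemma mem_MH {N : ℕ} {f : MvPolynomial (Fin n × Fin 3) Qb} :
    f ∈ MH n N ↔ MultiHomog f (fun _ => N) := by
  simp only [MH, Submodule.mem_iInf, MvPolynomial.mem_weightedHomogeneousSubmodule, MultiHomog]

/-- the restriction of polynomials to a set -/
noncomputable def ev (Z : Set (Fin n → EPt a b)) :
    MvPolynomial (Fin n × Fin 3) Qb →ₗ[Qb] (Z → Qb) where
  toFun f z := value f z.1
  map_add' f g := by
    funext z
    simp [value]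
  map_smul' c f := by
    funext z
    simp [value, MvPolynomial.smul_eval]

lemma hilb_eq (Z : Set (Fin n → EPt a b)) (N : ℕ) :
    hilb Z N = Module.finrank Qb ((MH n N).map (ev Z)) := by
  unfold hilb Set.finrank
  have h1 : {φ : Z → Qb | ∃ f : MvPolynomial (Fin n × Fin 3) Qb, MultiHomog f (fun _ => N) ∧
      ∀ z : Z, φ z = value f z.1} = (((MH n N).map (ev Z) : Submodule Qb (Z → Qb)) : Set (Z → Qb)) := by
    ext φ
    simp only [Set.mem_ofPred_eq, SetLike.mem_coe, Submodule.mem_map, mem_MH]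
    constructor
    · rintro ⟨f, hf, h⟩
      exact ⟨f, hf, funext fun z => (h z).symm⟩
    · rintro ⟨f, hf, rfl⟩
      exact ⟨f, hf, fun z => rfl⟩
  rw [h1, Submodule.span_eq]

/-- ranks and kernels -/
lemma finrank_le_of_ker {P V W : Type} [AddCommGroup P] [Module Qb P] [AddCommGroup V] [Module Qb V]
    [AddCommGroup W] [Module Qb W] [Module.Finite Qb V] (u : P →ₗ[Qb] V) (w : P →ₗ[Qb] W)
    (h : LinearMap.ker u ≤ LinearMap.ker w) :
    Module.finrank Qb (LinearMap.range w) ≤ Module.finrank Qb V := by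
  let s : LinearMap.range u →ₗ[Qb] W :=
    ((LinearMap.ker u).liftQ w h).comp (u.quotKerEquivRange.symm : LinearMap.range u →ₗ[Qb] _)
  have hs : LinearMap.range s = LinearMap.range w := by
    rw [LinearMap.range_comp, LinearEquiv.range, Submodule.map_top, Submodule.range_liftQ]
  rw [← hs]
  exact (LinearMap.finrank_range_le s).trans (Submodule.finrank_le _)

/-- the weights of the monomials -/
lemma weight_eq {N : ℕ} {f : MvPolynomial (Fin n × Fin 3) Qb} (hf : MultiHomog f (fun _ => N))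
    {s : Fin n × Fin 3 →₀ ℕ} (hs : s ∈ f.support) (j : Fin n) : ∑ l : Fin 3, s (j, l) = N := by
  have h2 := hf j (MvPolynomial.mem_support_iff.1 hs)
  rw [Finsupp.weight_apply, Finsupp.sum_fintype _ _ (fun p => by simp)] at h2
  rw [Fintype.sum_prod_type, Finset.sum_eq_single j] at h2
  · simpa using h2
  · intro j' _ hj
    simp [hj]
  · intro h
    exact absurd (Finset.mem_univ _) h

/-- scaling of the triples -/
lemma eval_scale {N : ℕ} {f : MvPolynomial (Fin n × Fin 3) Qb} (hf : MultiHomog f (fun _ => N))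
    (r : Fin n → Qb) (x : Fin n × Fin 3 → Qb) :
    MvPolynomial.eval (fun p => r p.1 * x p) f = (∏ k, r k) ^ N * MvPolynomial.eval x f := by
  rw [MvPolynomial.eval_eq', MvPolynomial.eval_eq', Finset.mul_sum]
  refine Finset.sum_congr rfl fun s hs => ?_
  have h1 : ∏ p : Fin n × Fin 3, (r p.1 * x p) ^ s p =
      (∏ k, r k) ^ N * ∏ p : Fin n × Fin 3, x p ^ s p := by
    simp only [mul_pow]
    rw [Finset.prod_mul_distrib]
    congr 1
    rw [Fintype.prod_prod_type, ← Finset.prod_pow]
    refine Finset.prod_congr rfl fun k _ => ?_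
    simp only
    rw [Finset.prod_pow_eq_pow_sum, weight_eq hf hs k]
  rw [h1]
  ring

/-- substitution -/
noncomputable def sb (G : Fin n → Fin 3 → MvPolynomial (Fin n × Fin 3) Qb) :
    MvPolynomial (Fin n × Fin 3) Qb →ₐ[Qb] MvPolynomial (Fin n × Fin 3) Qb :=
  MvPolynomial.bind₁ fun p => G p.1 p.2

lemma value_sb (G : Fin n → Fin 3 → MvPolynomial (Fin n × Fin 3) Qb)
    (f : MvPolynomial (Fin n × Fin 3) Qb) (y : Fin n → EPt a b) :
    value (sb G f) y = MvPolynomial.eval (fun p => value (G p.1 p.2) y) f :=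
  MvPolynomial.eval₂Hom_bind₁ _ _ _ _

lemma sb_mem {N D : ℕ} {G : Fin n → Fin 3 → MvPolynomial (Fin n × Fin 3) Qb}
    (hG : ∀ k l, MultiHomog (G k l) (fun _ => D)) {f : MvPolynomial (Fin n × Fin 3) Qb}
    (hf : f ∈ MH n N) : sb G f ∈ MH n (n * N * D) := by
  rw [mem_MH] at hf ⊢
  intro i
  have h1 : sb G f = ∑ s ∈ f.support, MvPolynomial.C (f.coeff s) *
      ∏ p : Fin n × Fin 3, G p.1 p.2 ^ s p := by
    unfold sb
    rw [MvPolynomial.bind₁, MvPolynomial.aeval_def, MvPolynomial.eval₂_eq']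
    rfl
  rw [h1]
  refine MvPolynomial.IsWeightedHomogeneous.sum _ _ _ fun s hs => ?_
  have h2 : MvPolynomial.IsWeightedHomogeneous
      (fun p : Fin n × Fin 3 => if p.1 = i then 1 else 0)
      (∏ p : Fin n × Fin 3, G p.1 p.2 ^ s p) (∑ p : Fin n × Fin 3, s p * D) := by
    refine MvPolynomial.IsWeightedHomogeneous.prod _ _ _ fun p _ => ?_
    have h3 : MvPolynomial.IsWeightedHomogeneous
      (fun p : Fin n × Fin 3 => if p.1 = i then 1 else 0) (G p.1 p.2 ^ s p) (s p • D) :=
        (hG p.1 p.2 i).pow _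
    simpa using h3
  have h4 : ∑ p : Fin n × Fin 3, s p * D = n * N * D := by
    rw [← Finset.sum_mul, Fintype.sum_prod_type]
    simp only [weight_eq hf hs]
    simp
  have h5 := (MvPolynomial.isWeightedHomogeneous_C
    (fun p : Fin n × Fin 3 => if p.1 = i then 1 else 0) (f.coeff s)).mul h2
  rw [zero_add, h4] at h5
  exact h5

/-- irreducible sets and finite unions of closed sets -/
lemma irr_union {V : Set (Fin n → EPt a b)} (hV : IsSubvariety V) {ι : Type} (s : Finset ι)
    (Z : ι → Set (Fin n → EPt a b)) (hZ : ∀ k, IsZClosed (Z k)) :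
    ∀ A : Set (Fin n → EPt a b), IsZClosed A → V ⊆ A ∪ ⋃ k ∈ s, Z k →
      V ⊆ A ∨ ∃ k ∈ s, V ⊆ Z k := by
  induction s using Finset.induction_on with
  | empty =>
    intro A _ h
    left
    simpa using h
  | insert k s hk ih =>
    intro A hA h
    have h1 : V ⊆ (A ∪ Z k) ∪ ⋃ k ∈ s, Z k := by
      intro x hx
      rcases h hx with h2 | h2
      · exact Or.inl (Or.inl h2)
      · simp only [Set.mem_iUnion, Finset.mem_insert] at h2
        obtain ⟨k', hk' | hk', hx'⟩ := h2
        · subst hk'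
          exact Or.inl (Or.inr hx')
        · refine Or.inr ?_
          simp only [Set.mem_iUnion]
          exact ⟨k', hk', hx'⟩
    rcases ih (A ∪ Z k) (hA.union (hZ k)) h1 with h2 | ⟨k', hk', h2⟩
    · rcases hV.2.2 A (Z k) hA (hZ k) h2 with h3 | h3
      · exact Or.inl h3
      · exact Or.inr ⟨k, Finset.mem_insert_self _ _, h3⟩
    · exact Or.inr ⟨k', Finset.mem_insert_of_mem hk', h2⟩

/-- for one point `q`: a linear substitution which detects vanishing -/
lemma detect (hCON : S_CON) (hIRR : S_IRR) (h0 : 4 * a ^ 3 + 27 * b ^ 2 ≠ 0)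
    (i : Fin n) (A B : Matrix (Fin n) (Fin n) ℤ) (hBA : B * A = 1) (D : ℕ)
    (hD : ∀ k, Reg (a := a) (b := b) D fun y => lin B y k) (q : EPt a b) :
    ∃ G : Fin n → Fin 3 → MvPolynomial (Fin n × Fin 3) Qb,
      (∀ k l, MultiHomog (G k l) (fun _ => D)) ∧
      ∀ (N : ℕ) (f : MvPolynomial (Fin n × Fin 3) Qb), MultiHomog f (fun _ => N) →
        (∀ y : Fin n → EPt a b, y i = q → value (sb G f) y = 0) →
          ∀ x : Fin n → EPt a b, lin A x i = q → value f x = 0 := by
  have h1 : ∀ k, ∃ (G : Fin 3 → MvPolynomial (Fin n × Fin 3) Qb)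
    (r : (Fin n → EPt a b) → Qb), (∀ l, MultiHomog (G l) (fun _ => D)) ∧ r (fun _ => q) ≠ 0 ∧
      ∀ y l, value (G l) y = r y * homog (lin B y k) l := fun k => hD k fun _ => q
  choose G r hG hr hval using h1
  refine ⟨G, hG, ?_⟩
  intro N f hf hvan x hx
  -- the closed sets
  have hW : IsZClosed {x : Fin n → EPt a b | value f x = 0} := by
    refine ⟨{f}, ?_, ?_⟩
    · intro g hg
      rw [Set.mem_singleton_iff] at hg
      subst hg
      exact ⟨_, hf⟩
    · ext P
      simp
  have hA := hCON a b n D (fun y => lin B y) hD _ hW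
  have hZ : ∀ k, IsZClosed {y : Fin n → EPt a b | ∀ l, value (G k l) y = 0} := by
    intro k
    refine ⟨Set.range (G k), ?_, ?_⟩
    · rintro _ ⟨l, rfl⟩
      exact ⟨_, hG k l⟩
    · ext P
      simp
  have hV : IsSubvariety {y : Fin n → EPt a b | y i = q} := by
    have h2 := hIRR a b h0 n (Finset.univ.erase i) (fun _ => q)
    have h3 : {x : Fin n → EPt a b | ∀ j, j ∉ Finset.univ.erase i → x j = q} =
        {y : Fin n → EPt a b | y i = q} := by
      ext y
      simp
    rw [h3] at h2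
    exact h2
  have hsub : {y : Fin n → EPt a b | y i = q} ⊆
      ((fun y => lin B y) ⁻¹' {x : Fin n → EPt a b | value f x = 0}) ∪
        ⋃ k ∈ (Finset.univ : Finset (Fin n)), {y : Fin n → EPt a b | ∀ l, value (G k l) y = 0} := by
    intro y hy
    have h2 := hvan y hy
    rw [value_sb] at h2
    have h3 : (fun p : Fin n × Fin 3 => value (G p.1 p.2) y) =
        fun p => r p.1 y * homog (lin B y p.1) p.2 := funext fun p => hval p.1 y p.2
    rw [h3, eval_scale hf (fun k => r k y) (fun p => homog (lin B y p.1) p.2)] at h2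
    rcases mul_eq_zero.1 h2 with h4 | h4
    · right
      have h5 : ∏ k, r k y = 0 := by
        by_contra h
        exact pow_ne_zero N h h4
      obtain ⟨k, _, hk⟩ := Finset.prod_eq_zero_iff.1 h5
      simp only [Set.mem_iUnion]
      refine ⟨k, Finset.mem_univ _, fun l => ?_⟩
      rw [hval k, hk, zero_mul]
    · left
      exact h4
  rcases irr_union hV _ _ hZ _ hA hsub with h2 | ⟨k, _, h2⟩
  · have h3 : lin A x ∈ {y : Fin n → EPt a b | y i = q} := hx
    have h4 := h2 h3
    simp only [Set.mem_preimage, Set.mem_ofPred_eq, lin_lin, hBA, lin_one] at h4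
    exact h4
  · exfalso
    have h3 : (fun _ : Fin n => q) ∈ {y : Fin n → EPt a b | y i = q} := rfl
    have h4 := h2 h3
    obtain ⟨l, hl⟩ := homog_ne_zero (lin B (fun _ : Fin n => q) k)
    have h5 := h4 l
    rw [hval k] at h5
    exact (mul_ne_zero (hr k) hl) h5

theorem main : S_RLI → S_CON → S_IRR → S_HLB → S_HBV := by
  intro hRLI hCON hIRR hHLB a b h0 n i A B _ hBA
  obtain ⟨D, hD⟩ := hRLI a b h0 (n + 1) B
  refine ⟨D, fun Q hQ N => ?_⟩
  have : Fintype Q := hQ.fintype
  have h1 : ∀ q : Q, ∃ G : Fin (n + 1) → Fin 3 → MvPolynomial (Fin (n + 1) × Fin 3) Qb,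
      (∀ k l, MultiHomog (G k l) (fun _ => D)) ∧
      ∀ (N : ℕ) (f : MvPolynomial (Fin (n + 1) × Fin 3) Qb), MultiHomog f (fun _ => N) →
        (∀ y : Fin (n + 1) → EPt a b, y i = q.1 → value (sb G f) y = 0) →
          ∀ x : Fin (n + 1) → EPt a b, lin A x i = q.1 → value f x = 0 := fun q =>
    detect hCON hIRR h0 i A B hBA D hD q.1
  choose G hG hdet using h1
  set M : ℕ := (n + 1) * N * D with hM
  -- the spaces of functions on the sets `y i = q`
  have hfin : ∀ q : Q, Module.Finite Qb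
      ((MH (n + 1) M).map (ev {y : Fin (n + 1) → EPt a b | y i ∈ ({q.1} : Set (EPt a b))})) := by
    intro q
    have h2 : (MH (n + 1) M).map (ev {y : Fin (n + 1) → EPt a b | y i ∈ ({q.1} : Set (EPt a b))}) ≤
        Submodule.span Qb (Set.range (HLB.gen i ({q.1} : Set (EPt a b)) M)) := by
      rw [Submodule.map_le_iff_le_comap]
      intro f hf
      exact HLB.value_mem i ({q.1} : Set (EPt a b)) M f (mem_MH.1 hf)
    have : Module.Finite Qb (Submodule.span Qb
        (Set.range (HLB.gen i ({q.1} : Set (EPt a b)) M))) :=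
      FiniteDimensional.span_of_finite Qb (Set.finite_range _)
    exact Submodule.finiteDimensional_of_le h2
  let u : MH (n + 1) N →ₗ[Qb] (∀ q : Q, ((MH (n + 1) M).map
      (ev {y : Fin (n + 1) → EPt a b | y i ∈ ({q.1} : Set (EPt a b))}))) :=
    LinearMap.pi fun q => LinearMap.codRestrict _
      (((ev {y : Fin (n + 1) → EPt a b | y i ∈ ({q.1} : Set (EPt a b))}).comp
        (sb (G q)).toLinearMap).comp (MH (n + 1) N).subtype)
      fun f => Submodule.mem_map_of_mem (sb_mem (hG q) f.2)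
  let w : MH (n + 1) N →ₗ[Qb] ({x : Fin (n + 1) → EPt a b | lin A x i ∈ Q} → Qb) :=
    (ev {x : Fin (n + 1) → EPt a b | lin A x i ∈ Q}).comp (MH (n + 1) N).subtype
  have hker : LinearMap.ker u ≤ LinearMap.ker w := by
    intro f hf
    rw [LinearMap.mem_ker] at hf ⊢
    funext x
    have h3 : ∀ q : Q, ∀ y : Fin (n + 1) → EPt a b, y i = q.1 → value (sb (G q) f.1) y = 0 := by
      intro q y hy
      have h4 := congrFun hf q
      have h5 := congrArg Subtype.val h4
      exact congrFun h5 ⟨y, hy⟩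
    exact hdet ⟨lin A x.1 i, x.2⟩ N f.1 (mem_MH.1 f.2) (h3 _) x.1 rfl
  have h4 : Module.finrank Qb (LinearMap.range w) = hilb {x : Fin (n + 1) → EPt a b | lin A x i ∈ Q} N := by
    rw [hilb_eq, LinearMap.range_comp, Submodule.range_subtype]
  rw [← h4]
  refine (finrank_le_of_ker u w hker).trans ?_
  rw [Module.finrank_pi_fintype]
  have h5 : ∀ q ∈ (Finset.univ : Finset Q), Module.finrank Qb ((MH (n + 1) M).map
      (ev {y : Fin (n + 1) → EPt a b | y i ∈ ({q.1} : Set (EPt a b))})) ≤ (3 * (M + 1)) ^ n := by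
    intro q _
    rw [← hilb_eq]
    have h6 := hHLB a b n i ({q.1} : Set (EPt a b)) (Set.finite_singleton _) M
    rw [Set.ncard_singleton, one_mul] at h6
    exact h6
  refine (Finset.sum_le_card_nsmul _ _ _ h5).trans ?_
  rw [smul_eq_mul, Finset.card_univ, Set.ncard_eq_toFinset_card' Q, Set.toFinset_card]

end Pool.Agent.Helper62.RH.HBV
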