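import Pool.Agent.Helper62.RH.Stm2

/-!
# Transfer by homeomorphisms
-/

set_option autoImplicit false

namespace Pool.Agent.Helper62.RH.HOM

open Pool.Agent.Helper62.RE Pool.Agent.Helper62.RH
open scoped Classical

variable {a b : Qb} {n : ℕ}

theorem sub (ψ φ : (Fin n → EPt a b) → Fin n → EPt a b)
    (h1 : ∀ x, φ (ψ x) = x) (h2 : ∀ x, ψ (φ x) = x)
    (hψ : ∀ W : Set (Fin n → EPt a b), IsZClosed W → IsZClosed (ψ ⁻¹' W))
    (hφ : ∀ W : Set (Fin n → EPt a b), IsZClosed W → IsZClosed (φ ⁻¹' W))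
    (V : Set (Fin n → EPt a b)) (hV : IsSubvariety V) : IsSubvariety (ψ ⁻¹' V) := by
  obtain ⟨hc, ⟨v, hv⟩, hi⟩ := hV
  refine ⟨hψ V hc, ⟨φ v, ?_⟩, ?_⟩
  · show ψ (φ v) ∈ V
    rw [h2]; exact hv
  · intro A B hA hB hAB
    have h3 : V ⊆ φ ⁻¹' A ∪ φ ⁻¹' B := by
      intro w hw
      have h4 : φ w ∈ ψ ⁻¹' V := by
        show ψ (φ w) ∈ V
        rw [h2]; exact hw
      exact hAB h4
    rcases hi _ _ (hφ A hA) (hφ B hB) h3 with h | h
    · left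
      intro x hx
      have h5 : φ (ψ x) ∈ A := h hx
      rw [h1] at h5
      exact h5
    · right
      intro x hx
      have h5 : φ (ψ x) ∈ B := h hx
      rw [h1] at h5
      exact h5

theorem pre_pre (ψ φ : (Fin n → EPt a b) → Fin n → EPt a b) (h1 : ∀ x, φ (ψ x) = x)
    (W : Set (Fin n → EPt a b)) : ψ ⁻¹' (φ ⁻¹' W) = W := by
  ext x
  show φ (ψ x) ∈ W ↔ x ∈ W
  rw [h1]

/-- the order isomorphism of the subvarieties -/
noncomputable def iso (ψ φ : (Fin n → EPt a b) → Fin n → EPt a b)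
    (h1 : ∀ x, φ (ψ x) = x) (h2 : ∀ x, ψ (φ x) = x)
    (hψ : ∀ W : Set (Fin n → EPt a b), IsZClosed W → IsZClosed (ψ ⁻¹' W))
    (hφ : ∀ W : Set (Fin n → EPt a b), IsZClosed W → IsZClosed (φ ⁻¹' W))
    (W : Set (Fin n → EPt a b)) :
    {T : Set (Fin n → EPt a b) // IsSubvariety T ∧ T ⊆ φ ⁻¹' W} ≃o
      {T : Set (Fin n → EPt a b) // IsSubvariety T ∧ T ⊆ W} where
  toFun T := ⟨ψ ⁻¹' T.1, sub ψ φ h1 h2 hψ hφ T.1 T.2.1, by
    intro x hx
    have h3 : φ (ψ x) ∈ W := T.2.2 hx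
    rwa [h1] at h3⟩
  invFun T := ⟨φ ⁻¹' T.1, sub φ ψ h2 h1 hφ hψ T.1 T.2.1, Set.preimage_mono T.2.2⟩
  left_inv T := Subtype.ext (pre_pre φ ψ h2 T.1)
  right_inv T := Subtype.ext (pre_pre ψ φ h1 T.1)
  map_rel_iff' := by
    intro S T
    constructor
    · intro h x hx
      have h3 : φ x ∈ ψ ⁻¹' S.1 := by
        show ψ (φ x) ∈ S.1
        rw [h2]; exact hx
      have h4 : ψ (φ x) ∈ T.1 := h h3
      rwa [h2] at h4
    · intro h
      exact Set.preimage_mono h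

theorem main : S_HOM := by
  intro a b n ψ φ h1 h2 hψ hφ
  refine ⟨fun V hV => sub ψ φ h1 h2 hψ hφ V hV, ?_⟩
  intro Z d hZ W hW hWZ hmax
  have hW1 : IsSubvariety (φ ⁻¹' W) := sub φ ψ h2 h1 hφ hψ W hW
  have hd : HasDim (φ ⁻¹' W) d := by
    refine hZ _ hW1 ?_ ?_
    · intro x hx
      have h3 : ψ (φ x) ∈ Z := hWZ hx
      rwa [h2] at h3
    · intro W' hW' hW'Z hle
      have h3 := hmax (ψ ⁻¹' W') (sub ψ φ h1 h2 hψ hφ W' hW') (Set.preimage_mono hW'Z) (by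
        rw [← pre_pre ψ φ h1 W]
        exact Set.preimage_mono hle)
      rw [← h3, pre_pre φ ψ h2]
  unfold HasDim at hd ⊢
  rw [← hd]
  exact (Order.krullDim_eq_of_orderIso (iso ψ φ h1 h2 hψ hφ W)).symm

end Pool.Agent.Helper62.RH.HOM
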