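import Pool.Agent.Helper62.RH.Stm

/-! Project RH, module IRR (helper92): the sets obtained by fixing some coordinates are subvarieties. -/

set_option autoImplicit false

namespace Pool.Agent.Helper62.RH.IRR

open Pool.Agent.Helper62.RE
open scoped Classical

theorem main (hS : S_SLC) (hI : S_INT) (hT : S_TOR) : S_IRR := by
  intro a b hab n T p
  obtain ⟨i1, i2, -⟩ := hI a b n
  have hinf : ∀ P Q : Set (EPt a b), P.Finite → Q.Finite → P ∪ Q ≠ Set.univ := by
    intro P Q hP hQ h
    apply hT a b hab
    exact (hP.union hQ).subset (by rw [h]; exact Set.subset_univ _)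
  refine ⟨?_, ⟨p, fun _ _ => rfl⟩, ?_⟩
  · have e : {x : Fin n → EPt a b | ∀ i, i ∉ T → x i = p i} =
        ⋂ i : {i : Fin n // i ∉ T}, {x : Fin n → EPt a b | x i.1 = p i.1} := by
      ext x
      simp only [Set.mem_setOf_eq, Set.mem_iInter, Subtype.forall]
    rw [e]
    exact i1 _ _ fun i => i2 _ _
  · induction T using Finset.induction_on with
    | empty =>
      intro A B _ _ h
      have e : {x : Fin n → EPt a b | ∀ i, i ∉ (∅ : Finset (Fin n)) → x i = p i} = {p} := by
        ext x
        simp only [Finset.notMem_empty, not_false_eq_true, forall_true_left, Set.mem_setOf_eq,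
          Set.mem_singleton_iff]
        exact ⟨fun h => funext h, fun h i => by rw [h]⟩
      rw [e] at h ⊢
      rcases h rfl with h1 | h1
      · exact Or.inl (Set.singleton_subset_iff.2 h1)
      · exact Or.inr (Set.singleton_subset_iff.2 h1)
    | insert j T' hj ih =>
      intro A B hA hB h
      have key : {x : Fin n → EPt a b | ∀ i, i ∉ T' → x i = p i} ⊆
          (⋂ y : EPt a b, {x : Fin n → EPt a b | Function.update x j y ∈ A}) ∪
          (⋂ y : EPt a b, {x : Fin n → EPt a b | Function.update x j y ∈ B}) := by
        intro x hx
        have h1 : ∀ y : EPt a b, Function.update x j y ∈ A ∪ B := by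
          intro y
          apply h
          intro i hi
          rw [Finset.mem_insert, not_or] at hi
          rw [Function.update_of_ne hi.1]
          exact hx i hi.2
        rcases (hS a b hab n A hA j).2 x with h2 | h2
        · rcases (hS a b hab n B hB j).2 x with h3 | h3
          · exfalso
            apply hinf _ _ h2 h3
            ext y
            simp only [Set.mem_union, Set.mem_setOf_eq, Set.mem_univ, iff_true]
            exact h1 y
          · exact Or.inr (Set.mem_iInter.2 h3)
        · exact Or.inl (Set.mem_iInter.2 h2)
      have fin : ∀ C : Set (Fin n → EPt a b), {x : Fin n → EPt a b | ∀ i, i ∉ T' → x i = p i} ⊆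
          (⋂ y : EPt a b, {x : Fin n → EPt a b | Function.update x j y ∈ C}) →
          {x : Fin n → EPt a b | ∀ i, i ∉ insert j T' → x i = p i} ⊆ C := by
        intro C hC x hx
        have h1 : Function.update x j (p j) ∈
            {x : Fin n → EPt a b | ∀ i, i ∉ T' → x i = p i} := by
          intro i hi
          by_cases hij : i = j
          · rw [hij, Function.update_self]
          · rw [Function.update_of_ne hij]
            apply hx
            rw [Finset.mem_insert, not_or]
            exact ⟨hij, hi⟩
        have h2 := Set.mem_iInter.1 (hC h1) (x j)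
        rw [Set.mem_setOf_eq, Function.update_idem, Function.update_eq_self] at h2
        exact h2
      rcases ih _ _ (i1 _ _ fun y => (hS a b hab n A hA j).1 y)
        (i1 _ _ fun y => (hS a b hab n B hB j).1 y) key with h1 | h1
      · exact Or.inl (fin A h1)
      · exact Or.inr (fin B h1)

end Pool.Agent.Helper62.RH.IRR
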