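import Pool.Agent.Helper62.RH.Stm
import Pool.Agent.Helper62.RE.AUT

set_option autoImplicit false

/-! Module KDM (helper5): the dimension of `x_i = z`. -/

namespace Pool.Agent.Helper62.RH.KDM

open Pool.Agent.Helper62.RE MvPolynomial
open scoped Classical

theorem eqn {a b x y : Qb} (h : (curve a b).toAffine.Equation x y) :
    y ^ 2 = x ^ 3 + a * x + b := by
  rw [WeierstrassCurve.Affine.equation_iff] at h
  simp only [curve] at h
  linear_combination h

theorem two {a b : Qb} (Q : EPt a b) (h : homog Q 2 ≠ 0) :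
    (homog Q 1 / homog Q 2) ^ 2 =
      (homog Q 0 / homog Q 2) ^ 3 + a * (homog Q 0 / homog Q 2) + b := by
  rcases Q with _ | ⟨x, y, hxy⟩
  · exact absurd rfl h
  · have h1 := eqn hxy.1
    simpa [homog] using h1

theorem one {a b : Qb} (Q : EPt a b) (h : homog Q 1 ≠ 0) :
    (homog Q 0 / homog Q 1) ^ 3 + a * (homog Q 2 / homog Q 1) ^ 2 * (homog Q 0 / homog Q 1) +
      (b * (homog Q 2 / homog Q 1) ^ 3 - homog Q 2 / homog Q 1) = 0 := by
  rcases Q with _ | ⟨x, y, hxy⟩
  · simp [homog]
  · have h1 := eqn hxy.1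
    have hy : y ≠ 0 := by simpa [homog] using h
    simp only [homog, Matrix.cons_val_zero, Matrix.cons_val_one, Matrix.cons_val]
    field_simp
    linear_combination -h1

section integral

variable {a b : Qb} {n : ℕ} (i : Fin (n + 1)) (z : EPt a b) (P : Fin (n + 1) → EPt a b)
  (J : Ideal (MvPolynomial (Fin (n + 1) × Fin 3) Qb))

/-- the functions `s_j` -/
noncomputable def s (k : Fin n) : MvPolynomial (Fin (n + 1) × Fin 3) Qb ⧸ J :=
  Ideal.Quotient.mk J (X (i.succAbove k, if P (i.succAbove k) = 0 then 2 else 0))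

theorem integral_X
    (hJ : ∀ f, (∀ x : Fin (n + 1) → EPt a b, x i = z → (∀ j, homog (x j) (chart (P j)) ≠ 0) →
      MvPolynomial.eval (fun p : Fin (n + 1) × Fin 3 =>
        homog (x p.1) p.2 / homog (x p.1) (chart (P p.1))) f = 0) → f ∈ J)
    (p : Fin (n + 1) × Fin 3) :
    IsIntegral (Algebra.adjoin Qb (Set.range (s i P J))) (Ideal.Quotient.mk J (X p)) := by
  obtain ⟨j, l⟩ := p
  set A := Algebra.adjoin Qb (Set.range (s i P J)) with hA
  have hC : ∀ c : Qb, Ideal.Quotient.mk J (C c) = algebraMap Qb _ c := fun c => rfl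
  have hCA : ∀ c : Qb, Ideal.Quotient.mk J (C c) ∈ A := fun c => by
    rw [hC]
    exact A.algebraMap_mem c
  have hmem : ∀ r ∈ A, IsIntegral A r := fun r hr =>
    isIntegral_algebraMap (R := A) (x := (⟨r, hr⟩ : A))
  by_cases hji : j = i
  · subst hji
    have h1 : (X (j, l) - C (homog z l / homog z (chart (P j))) :
        MvPolynomial (Fin (n + 1) × Fin 3) Qb) ∈ J := by
      refine hJ _ fun x hx _ => ?_
      simp [hx]
    have h2 := Ideal.Quotient.eq.2 h1
    rw [h2]
    exact hmem _ (hCA _)
  · obtain ⟨k, rfl⟩ := Fin.exists_succAbove_eq hji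
    have hs : s i P J k ∈ A := Algebra.subset_adjoin ⟨k, rfl⟩
    by_cases hP : P (i.succAbove k) = 0
    · have hch : chart (P (i.succAbove k)) = 1 := by rw [hP]; exact if_pos rfl
      have hs2 : s i P J k = Ideal.Quotient.mk J (X (i.succAbove k, 2)) := by
        rw [s, if_pos hP]
      have hv2 : Ideal.Quotient.mk J (X (i.succAbove k, 2)) ∈ A := by
        rw [← hs2]
        exact hs
      fin_cases l
      · -- the cubic equation
        have h1 : (X (i.succAbove k, 0) ^ 3 + C a * X (i.succAbove k, 2) ^ 2 *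
            X (i.succAbove k, 0) + (C b * X (i.succAbove k, 2) ^ 3 - X (i.succAbove k, 2)) :
            MvPolynomial (Fin (n + 1) × Fin 3) Qb) ∈ J := by
          refine hJ _ fun x _ hx => ?_
          have h2 := hx (i.succAbove k)
          rw [hch] at h2
          have h3 := one (x (i.succAbove k)) h2
          simpa [hch] using h3
        have h2 := Ideal.Quotient.eq_zero_iff_mem.2 h1
        have hα : Ideal.Quotient.mk J (C a * X (i.succAbove k, 2) ^ 2) ∈ A := by
          rw [map_mul, map_pow]
          exact A.mul_mem (hCA a) (A.pow_mem hv2 2)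
        have hβ : Ideal.Quotient.mk J (C b * X (i.succAbove k, 2) ^ 3 - X (i.succAbove k, 2)) ∈
            A := by
          rw [map_sub, map_mul, map_pow]
          exact A.sub_mem (A.mul_mem (hCA b) (A.pow_mem hv2 3)) hv2
        refine ⟨Polynomial.X ^ 3 + (Polynomial.C (⟨_, hα⟩ : A) * Polynomial.X +
          Polynomial.C (⟨_, hβ⟩ : A)), Polynomial.monic_X_pow_add
            (Polynomial.degree_linear_le.trans_lt (by norm_num)), ?_⟩
        simp only [Polynomial.eval₂_add, Polynomial.eval₂_mul, Polynomial.eval₂_pow,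
          Polynomial.eval₂_X, Polynomial.eval₂_C]
        change _ + (Ideal.Quotient.mk J (C a * X (i.succAbove k, 2) ^ 2) * _ +
          Ideal.Quotient.mk J (C b * X (i.succAbove k, 2) ^ 3 - X (i.succAbove k, 2))) = 0
        rw [← h2]
        simp only [map_add, map_mul, map_pow, Fin.mk_zero]
        ring
      · have h1 : (X (i.succAbove k, 1) - C 1 : MvPolynomial (Fin (n + 1) × Fin 3) Qb) ∈ J := by
          refine hJ _ fun x _ hx => ?_
          have h2 := hx (i.succAbove k)
          rw [hch] at h2
          simp [hch, div_self h2]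
        have h2 := Ideal.Quotient.eq.2 h1
        change IsIntegral A (Ideal.Quotient.mk J (X (i.succAbove k, 1)))
        rw [h2]
        exact hmem _ (hCA _)
      · exact hmem _ hv2
    · have hch : chart (P (i.succAbove k)) = 2 := if_neg hP
      have hs2 : s i P J k = Ideal.Quotient.mk J (X (i.succAbove k, 0)) := by
        rw [s, if_neg hP]
      have hv0 : Ideal.Quotient.mk J (X (i.succAbove k, 0)) ∈ A := by
        rw [← hs2]
        exact hs
      fin_cases l
      · exact hmem _ hv0
      · have h1 : (X (i.succAbove k, 1) ^ 2 - (X (i.succAbove k, 0) ^ 3 +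
            C a * X (i.succAbove k, 0) + C b) : MvPolynomial (Fin (n + 1) × Fin 3) Qb) ∈ J := by
          refine hJ _ fun x _ hx => ?_
          have h2 := hx (i.succAbove k)
          rw [hch] at h2
          have h3 := two (x (i.succAbove k)) h2
          simp only [map_sub, map_pow, eval_X, map_add, map_mul, eval_C, hch]
          rw [h3, sub_self]
        have h2 := Ideal.Quotient.eq.2 h1
        change IsIntegral A (Ideal.Quotient.mk J (X (i.succAbove k, 1)))
        refine IsIntegral.of_pow (n := 2) (by norm_num) ?_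
        rw [← map_pow, h2]
        refine hmem _ ?_
        rw [map_add, map_add, map_pow, map_mul]
        exact A.add_mem (A.add_mem (A.pow_mem hv0 3) (A.mul_mem (hCA a) hv0)) (hCA b)
      · have h1 : (X (i.succAbove k, 2) - C 1 : MvPolynomial (Fin (n + 1) × Fin 3) Qb) ∈ J := by
          refine hJ _ fun x _ hx => ?_
          have h2 := hx (i.succAbove k)
          rw [hch] at h2
          simp [hch, div_self h2]
        have h2 := Ideal.Quotient.eq.2 h1
        change IsIntegral A (Ideal.Quotient.mk J (X (i.succAbove k, 2)))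
        rw [h2]
        exact hmem _ (hCA _)

theorem integral_all
    (hJ : ∀ f, (∀ x : Fin (n + 1) → EPt a b, x i = z → (∀ j, homog (x j) (chart (P j)) ≠ 0) →
      MvPolynomial.eval (fun p : Fin (n + 1) × Fin 3 =>
        homog (x p.1) p.2 / homog (x p.1) (chart (P p.1))) f = 0) → f ∈ J)
    (r : MvPolynomial (Fin (n + 1) × Fin 3) Qb ⧸ J) :
    IsIntegral (Algebra.adjoin Qb (Set.range (s i P J))) r := by
  obtain ⟨f, rfl⟩ := Ideal.Quotient.mk_surjective r
  induction f using MvPolynomial.induction_on with
  | C c =>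
    exact isIntegral_algebraMap (R := Algebra.adjoin Qb (Set.range (s i P J)))
      (x := (⟨algebraMap Qb _ c, Subalgebra.algebraMap_mem _ c⟩ :
        Algebra.adjoin Qb (Set.range (s i P J))))
  | add f g hf hg =>
    rw [map_add]
    exact hf.add hg
  | mul_X f p hf =>
    rw [map_mul]
    exact hf.mul (integral_X i z P J hJ p)

end integral

theorem main : S_KRB → S_PRM → S_KDM := by
  intro hK hPr a b _ n i z
  refine iSup_le fun p => ?_
  obtain ⟨P, hP⟩ := (p 0).2.1.2.1
  have hPk : ∀ k, P ∈ (p k).1 := fun k => by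
    have h := p.strictMono.monotone (Fin.zero_le k)
    exact h hP
  obtain ⟨I, h1, h2, h3⟩ := hPr a b (n + 1) P
  set J := I {x : Fin (n + 1) → EPt a b | x i = z} with hJ
  have hJle : ∀ k, J ≤ I (p k).1 := fun k f hf =>
    (h3 _ f).2 fun x hx => (h3 _ f).1 hf x ((p k).2.2 hx)
  have hsurj : Function.Surjective (Ideal.Quotient.mk J) := Ideal.Quotient.mk_surjective
  have hprime : ∀ k, ((I (p k).1).map (Ideal.Quotient.mk J)).IsPrime := fun k => by
    have := h1 (p k).1 (p k).2.1 (hPk k)
    refine Ideal.map_isPrime_of_surjective hsurj ?_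
    rw [Ideal.mk_ker]
    exact hJle k
  have hstep : ∀ k k', k < k' → (I (p k').1).map (Ideal.Quotient.mk J) <
      (I (p k).1).map (Ideal.Quotient.mk J) := fun k k' hk => by
    have hlt : (p k).1 ⊂ (p k').1 := p.strictMono hk
    have h4 := h2 _ _ (p k).2.1 (p k').2.1 (hPk k) hlt
    refine lt_of_le_of_ne (Ideal.map_mono h4.le) fun he => h4.ne ?_
    have h5 := congrArg (Ideal.comap (Ideal.Quotient.mk J)) he
    rwa [Ideal.comap_map_mk (hJle k'), Ideal.comap_map_mk (hJle k)] at h5
  let q : LTSeries (PrimeSpectrum (MvPolynomial (Fin (n + 1) × Fin 3) Qb ⧸ J))ᵒᵈ :=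
    { length := p.length
      toFun := fun k => OrderDual.toDual ⟨_, hprime k⟩
      step := fun k => by
        have h := hstep k.castSucc k.succ Fin.castSucc_lt_succ
        exact h }
  have hq : ((p.length : ℕ) : WithBot ℕ∞) ≤
      Order.krullDim (PrimeSpectrum (MvPolynomial (Fin (n + 1) × Fin 3) Qb ⧸ J))ᵒᵈ :=
    Order.LTSeries.length_le_krullDim q
  rw [Order.krullDim_orderDual] at hq
  refine hq.trans (hK n _ (s i P J) fun r => ?_)
  exact integral_all i z P J (fun f hf => (h3 _ f).2 fun x hx hx2 => hf x hx hx2) r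

end Pool.Agent.Helper62.RH.KDM
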