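import Pool.Agent.Helper62.RH.Stm

/-! # Project RH, module KRB (author: helper59) -/

set_option autoImplicit false

namespace Pool.Agent.Helper62.RH.KRB

open Pool.Agent.Helper62.RE

theorem dim_le {A R : Type} [CommRing A] [CommRing R] [Algebra A R] (h : ∀ r : R, IsIntegral A r) :
    ringKrullDim R ≤ ringKrullDim A := by
  unfold ringKrullDim
  have : Algebra.IsIntegral A R := ⟨h⟩
  refine Order.krullDim_le_of_strictMono
    (fun P : PrimeSpectrum R => PrimeSpectrum.comap (algebraMap A R) P) ?_
  intro P Q hPQ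
  have h1 : P.asIdeal < Q.asIdeal := hPQ
  exact Ideal.IsIntegral.comap_lt_comap h1

theorem main : S_KRB := by
  intro n R _ _ s h
  have h1 := dim_le (A := Algebra.adjoin Qb (Set.range s)) (R := R) h
  refine h1.trans ?_
  have hr : (MvPolynomial.aeval s : MvPolynomial (Fin n) Qb →ₐ[Qb] R).range = Algebra.adjoin Qb (Set.range s) :=
    (Algebra.adjoin_range_eq_range_aeval Qb s).symm
  rw [← hr]
  refine (ringKrullDim_le_of_surjective (MvPolynomial.aeval s : MvPolynomial (Fin n) Qb →ₐ[Qb] R).rangeRestrict.toRingHom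
    (AlgHom.rangeRestrict_surjective _)).trans ?_
  rw [MvPolynomial.ringKrullDim_of_isNoetherianRing, ringKrullDim_eq_zero_of_field]
  simp

end Pool.Agent.Helper62.RH.KRB
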