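import Pool.Agent.Helper62.RH.Stm2
import Pool.Agent.Helper62.RE.DBL

/-!
# LAW: the complete addition law of Renes, Costello and Batina (helper67)
-/

set_option autoImplicit false

namespace Pool.Agent.Helper62.RH.LAW

open Pool.Agent.Helper62.RE Pool.Agent.Helper62.RH
open scoped Classical
open WeierstrassCurve.Affine

section alg

variable {K : Type} [Field K] {a b x1 x2 y1 y2 : K}

theorem elim (h1 : y1 ^ 2 = x1 ^ 3 + a * x1 + b) (h2 : y2 ^ 2 = x2 ^ 3 + a * x2 + b)
    (hx : x1 - x2 ≠ 0) :
    a = ((y1 ^ 2 - y2 ^ 2) - (x1 ^ 3 - x2 ^ 3)) / (x1 - x2) ∧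
    b = y1 ^ 2 - x1 ^ 3 - ((y1 ^ 2 - y2 ^ 2) - (x1 ^ 3 - x2 ^ 3)) / (x1 - x2) * x1 := by
  have h3 : a = ((y1 ^ 2 - y2 ^ 2) - (x1 ^ 3 - x2 ^ 3)) / (x1 - x2) := by
    rw [eq_div_iff hx]
    linear_combination h2 - h1
  refine ⟨h3, ?_⟩
  rw [← h3]
  linear_combination -h1

/-- the third coordinate -/
def Z3 (a b x1 x2 y1 y2 : K) : K :=
  (y1 + y2) * (y1 * y2 + a * (x1 + x2) + 3 * b) + (x1 * y2 + x2 * y1) * (3 * (x1 * x2) + a)

theorem algX (h1 : y1 ^ 2 = x1 ^ 3 + a * x1 + b) (h2 : y2 ^ 2 = x2 ^ 3 + a * x2 + b)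
    (hx : x1 - x2 ≠ 0) :
    (x1 * y2 + x2 * y1) * (y1 * y2 - a * (x1 + x2) - 3 * b) -
      (y1 + y2) * (a * (x1 * x2) + 3 * b * (x1 + x2) - a ^ 2) =
    Z3 a b x1 x2 y1 y2 * (((y1 - y2) / (x1 - x2)) ^ 2 - x1 - x2) := by
  obtain ⟨ha, hb⟩ := elim h1 h2 hx
  clear h1 h2
  subst ha hb
  unfold Z3
  field_simp
  ring

theorem algY (h1 : y1 ^ 2 = x1 ^ 3 + a * x1 + b) (h2 : y2 ^ 2 = x2 ^ 3 + a * x2 + b)
    (hx : x1 - x2 ≠ 0) :
    (3 * (x1 * x2) + a) * (a * (x1 * x2) + 3 * b * (x1 + x2) - a ^ 2) +
      (y1 * y2 + a * (x1 + x2) + 3 * b) * (y1 * y2 - a * (x1 + x2) - 3 * b) =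
    Z3 a b x1 x2 y1 y2 * (-((y1 - y2) / (x1 - x2) *
      (((y1 - y2) / (x1 - x2)) ^ 2 - x1 - x2 - x1) + y1)) := by
  obtain ⟨ha, hb⟩ := elim h1 h2 hx
  clear h1 h2
  subst ha hb
  unfold Z3
  field_simp
  ring

theorem algZ (h1 : y1 ^ 2 = x1 ^ 3 + a * x1 + b) (h2 : y2 ^ 2 = x2 ^ 3 + a * x2 + b)
    (hx : x1 - x2 ≠ 0) :
    Z3 a b x1 x2 y1 y2 = -(x1 - x2) ^ 3 * (-((y1 + y2) / (x1 - x2) *
      (((y1 + y2) / (x1 - x2)) ^ 2 - x1 - x2 - x1) + y1)) := by
  obtain ⟨ha, hb⟩ := elim h1 h2 hx
  clear h1 h2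
  subst ha hb
  unfold Z3
  field_simp
  ring

theorem elim2 (h1 : y1 ^ 2 = x1 ^ 3 + a * x1 + b) : b = y1 ^ 2 - x1 ^ 3 - a * x1 := by
  linear_combination -h1

theorem dblX (h1 : y1 ^ 2 = x1 ^ 3 + a * x1 + b) (h2 : (2 : K) ≠ 0) (hy : y1 ≠ 0) :
    (x1 * y1 + x1 * y1) * (y1 * y1 - a * (x1 + x1) - 3 * b) -
      (y1 + y1) * (a * (x1 * x1) + 3 * b * (x1 + x1) - a ^ 2) =
    8 * y1 ^ 3 * (((3 * x1 ^ 2 + a) / (2 * y1)) ^ 2 - x1 - x1) := by
  have hb := elim2 h1
  clear h1
  subst hb
  field_simp
  ring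

theorem dblY (h1 : y1 ^ 2 = x1 ^ 3 + a * x1 + b) (h2 : (2 : K) ≠ 0) (hy : y1 ≠ 0) :
    (3 * (x1 * x1) + a) * (a * (x1 * x1) + 3 * b * (x1 + x1) - a ^ 2) +
      (y1 * y1 + a * (x1 + x1) + 3 * b) * (y1 * y1 - a * (x1 + x1) - 3 * b) =
    8 * y1 ^ 3 * (-((3 * x1 ^ 2 + a) / (2 * y1) *
      (((3 * x1 ^ 2 + a) / (2 * y1)) ^ 2 - x1 - x1 - x1) + y1)) := by
  have hb := elim2 h1
  clear h1
  subst hb
  field_simp
  ring

theorem dblZ (h1 : y1 ^ 2 = x1 ^ 3 + a * x1 + b) : Z3 a b x1 x1 y1 y1 = 8 * y1 ^ 3 := by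
  have hb := elim2 h1
  clear h1
  subst hb
  unfold Z3
  ring

theorem dblY0 (h1 : 0 = x1 ^ 3 + a * x1 + b) :
    (3 * (x1 * x1) + a) * (a * (x1 * x1) + 3 * b * (x1 + x1) - a ^ 2) +
      (0 + a * (x1 + x1) + 3 * b) * (0 - a * (x1 + x1) - 3 * b) = -(3 * x1 ^ 2 + a) ^ 3 := by
  have hb : b = -x1 ^ 3 - a * x1 := by linear_combination -h1
  clear h1
  subst hb
  ring

end alg

variable {a b : Qb}

theorem negY_eq (x y : Qb) : (curve a b).toAffine.negY x y = -y := by
  rw [negY]
  simp only [curve]
  ring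

theorem two_zero {x y : Qb} (h : (curve a b).toAffine.Nonsingular x y) (hy : y = 0) :
    2 • (Point.some x y h : EPt a b) = 0 := by
  rw [two_nsmul]
  refine Point.add_self_of_Y_eq ?_
  rw [negY_eq, hy, neg_zero]

theorem homog_zero : homog (0 : EPt a b) = ![0, 1, 0] := rfl

theorem homog_some {x y : Qb} (h : (curve a b).toAffine.Nonsingular x y) :
    homog (Point.some x y h : EPt a b) = ![x, y, 1] := rfl

/-- the three coordinates of the addition law at affine points -/
theorem law_eq (x1 y1 x2 y2 : Qb) : addLaw a b ![x1, y1, 1] ![x2, y2, 1] =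
    ![(x1 * y2 + x2 * y1) * (y1 * y2 - a * (x1 + x2) - 3 * b) -
        (y1 + y2) * (a * (x1 * x2) + 3 * b * (x1 + x2) - a ^ 2),
      (3 * (x1 * x2) + a) * (a * (x1 * x2) + 3 * b * (x1 + x2) - a ^ 2) +
        (y1 * y2 + a * (x1 + x2) + 3 * b) * (y1 * y2 - a * (x1 + x2) - 3 * b),
      Z3 a b x1 x2 y1 y2] := by
  funext l
  fin_cases l
  · simp [addLaw]
  · simp [addLaw]
  · simp [addLaw, Z3]

theorem law_zero_some (x y : Qb) : addLaw a b ![0, 1, 0] ![x, y, 1] = fun l => y * ![x, y, 1] l := by
  funext l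
  fin_cases l
  · simp [addLaw]; ring
  · simp [addLaw]
  · simp [addLaw]

theorem law_some_zero (x y : Qb) : addLaw a b ![x, y, 1] ![0, 1, 0] = fun l => y * ![x, y, 1] l := by
  funext l
  fin_cases l
  · simp [addLaw]; ring
  · simp [addLaw]
  · simp [addLaw]

theorem law_zero_zero : addLaw a b ![0, 1, 0] ![0, 1, 0] = ![0, 1, 0] := by
  funext l
  fin_cases l
  · simp [addLaw]
  · simp [addLaw]
  · simp [addLaw]

theorem main : S_LAW := by
  intro a b hab P Q
  have two : (2 : Qb) ≠ 0 := two_ne_zero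
  rcases P with _ | ⟨x1, y1, hP⟩
  · rcases Q with _ | ⟨x2, y2, hQ⟩
    · refine ⟨1, fun l => ?_, fun h => absurd h one_ne_zero⟩
      show addLaw a b ![0, 1, 0] ![0, 1, 0] l = 1 * homog ((0 : EPt a b) + 0) l
      rw [law_zero_zero, add_zero, one_mul]
      rfl
    · refine ⟨y2, fun l => ?_, fun h => ⟨?_, ?_⟩⟩
      · show addLaw a b ![0, 1, 0] ![x2, y2, 1] l = y2 * homog (0 + (Point.some x2 y2 hQ : EPt a b)) l
        rw [law_zero_some, zero_add, homog_some]
      · exact (Point.some_ne_zero hQ).symm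
      · show 2 • (0 - (Point.some x2 y2 hQ : EPt a b)) = 0
        rw [zero_sub, Point.neg_some]
        exact two_zero _ (by rw [negY_eq, h, neg_zero])
  · rcases Q with _ | ⟨x2, y2, hQ⟩
    · refine ⟨y1, fun l => ?_, fun h => ⟨?_, ?_⟩⟩
      · show addLaw a b ![x1, y1, 1] ![0, 1, 0] l = y1 * homog ((Point.some x1 y1 hP : EPt a b) + 0) l
        rw [law_some_zero, add_zero, homog_some]
      · exact Point.some_ne_zero hP
      · show 2 • ((Point.some x1 y1 hP : EPt a b) - 0) = 0
        rw [sub_zero, two_zero hP h]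
    · have e1 := ((DBL.nonsing_iff x1 y1).1 hP).1
      have e2 := ((DBL.nonsing_iff x2 y2).1 hQ).1
      rw [homog_some, homog_some, law_eq]
      by_cases hx : x1 = x2
      · subst hx
        by_cases hy : y2 = -y1
        · subst hy
          have hsum : (Point.some x1 y1 hP : EPt a b) + Point.some x1 (-y1) hQ = 0 :=
            Point.add_of_Y_eq rfl (by rw [negY_eq, neg_neg])
          refine ⟨(3 * (x1 * x1) + a) * (a * (x1 * x1) + 3 * b * (x1 + x1) - a ^ 2) +
            (y1 * -y1 + a * (x1 + x1) + 3 * b) * (y1 * -y1 - a * (x1 + x1) - 3 * b), fun l => ?_, ?_⟩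
          · rw [hsum, homog_zero]
            fin_cases l
            · simp
            · simp
            · simp [Z3]
          · intro h
            by_cases hy0 : y1 = 0
            · exfalso
              subst hy0
              have h3 : (3 * (x1 * x1) + a) * (a * (x1 * x1) + 3 * b * (x1 + x1) - a ^ 2) +
                  (0 + a * (x1 + x1) + 3 * b) * (0 - a * (x1 + x1) - 3 * b) = 0 := by
                linear_combination h
              rw [dblY0 (by rw [← e1]; ring), neg_eq_zero] at h3
              rcases ((DBL.nonsing_iff x1 0).1 hP).2 with h4 | h4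
              · exact h4 (pow_eq_zero_iff (by norm_num) |>.1 h3)
              · exact h4 rfl
            · have hne : y1 ≠ (curve a b).toAffine.negY x1 y1 := by
                rw [negY_eq]
                intro h4
                have h5 : (2 : Qb) * y1 = 0 := by linear_combination h4
                exact (mul_ne_zero two hy0) h5
              have hsub : (Point.some x1 y1 hP : EPt a b) - Point.some x1 (-y1) hQ =
                  Point.some x1 y1 hP + Point.some x1 y1 hP := by
                rw [sub_eq_add_neg, Point.neg_some]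
                congr 1
                congr 1
                rw [negY_eq, neg_neg]
              have hsl : (curve a b).toAffine.slope x1 x1 y1 y1 = (3 * x1 ^ 2 + a) / (2 * y1) := by
                rw [slope_of_Y_ne rfl hne, negY_eq]
                simp only [curve]
                congr 1 <;> ring
              refine ⟨?_, ?_⟩
              · intro h4
                have h5 : y1 = -y1 := by injection h4
                apply hne
                rw [negY_eq]
                exact h5
              · rw [hsub, Point.add_self_of_Y_ne hne]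
                refine two_zero _ ?_
                rw [addY, negAddY, addX, negY_eq, hsl]
                simp only [curve]
                have h6 := dblY e1 two hy0
                have h7 : (3 * (x1 * x1) + a) * (a * (x1 * x1) + 3 * b * (x1 + x1) - a ^ 2) +
                    (y1 * y1 + a * (x1 + x1) + 3 * b) * (y1 * y1 - a * (x1 + x1) - 3 * b) = 0 := by
                  linear_combination h
                rw [h7] at h6
                have h8 := (mul_eq_zero.1 h6.symm).resolve_left
                  (mul_ne_zero (by norm_num) (pow_ne_zero _ hy0))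
                linear_combination h8
        · have h3 : y1 = y2 := by
            have h4 : (y2 - y1) * (y2 + y1) = 0 := by linear_combination e2 - e1
            rcases mul_eq_zero.1 h4 with h5 | h5
            · exact (sub_eq_zero.1 h5).symm
            · exact absurd (eq_neg_of_add_eq_zero_left h5) hy
          subst h3
          have hy0 : y1 ≠ 0 := by
            rintro rfl
            exact hy neg_zero.symm
          have hne : y1 ≠ (curve a b).toAffine.negY x1 y1 := by
            rw [negY_eq]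
            exact hy
          have hsl : (curve a b).toAffine.slope x1 x1 y1 y1 = (3 * x1 ^ 2 + a) / (2 * y1) := by
            rw [slope_of_Y_ne rfl hne, negY_eq]
            simp only [curve]
            congr 1 <;> ring
          refine ⟨8 * y1 ^ 3, fun l => ?_, fun h => absurd h
            (mul_ne_zero (by norm_num) (pow_ne_zero _ hy0))⟩
          rw [Point.add_self_of_Y_ne hne, homog_some, addY, negAddY, addX, negY_eq, hsl, dblX e1 two hy0,
            dblY e1 two hy0, dblZ e1]
          simp only [curve]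
          fin_cases l
          · simp
          · simp
          · simp
      · have hx' : x1 - x2 ≠ 0 := sub_ne_zero.2 hx
        refine ⟨Z3 a b x1 x2 y1 y2, fun l => ?_, fun h => ⟨?_, ?_⟩⟩
        · rw [Point.add_of_X_ne hx, homog_some, addY, negAddY, addX, negY_eq, slope_of_X_ne hx,
            algX e1 e2 hx', algY e1 e2 hx']
          simp only [curve]
          fin_cases l
          · simp
          · simp
          · simp
        · intro h4
          exact hx (by injection h4)
        · rw [sub_eq_add_neg, Point.neg_some, Point.add_of_X_ne hx]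
          refine two_zero _ ?_
          rw [addY, negAddY, addX, negY_eq, slope_of_X_ne hx, negY_eq]
          simp only [curve]
          have h6 := algZ e1 e2 hx'
          rw [h] at h6
          have h8 := (mul_eq_zero.1 h6.symm).resolve_left
            (neg_ne_zero.2 (pow_ne_zero _ hx'))
          linear_combination h8

end Pool.Agent.Helper62.RH.LAW
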