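import Pool.Agent.Helper62.RH.Stm
import Pool.Agent.Helper62.RE.Geo

set_option autoImplicit false

/-!
# PRM (helper20): subvarieties of `E^n` through a point and prime ideals
-/

namespace Pool.Agent.Helper62.RH.PRM

open Pool.Agent.Helper62.RE Pool.Agent.Helper62.RH
open scoped Classical

variable {a b : Qb} {n : ℕ}

/-- normalized coordinates -/
noncomputable def nq (c : Fin n → Fin 3) (x : Fin n → EPt a b) (p : Fin n × Fin 3) : Qb :=
  homog (x p.1) p.2 / homog (x p.1) (c p.1)

lemma prod_scale (u : Fin n → Qb) (q : Fin n × Fin 3 → Qb) (m : Fin n × Fin 3 →₀ ℕ) :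
    ∏ p, (u p.1 * q p) ^ m p = (∏ j, u j ^ (∑ l : Fin 3, m (j, l))) * ∏ p, q p ^ m p := by
  simp only [mul_pow, Finset.prod_mul_distrib]
  congr 1
  rw [Fintype.prod_prod_type]
  apply Finset.prod_congr rfl
  intro j _
  simp only []
  rw [Finset.prod_pow_eq_pow_sum]

lemma weight_eq (i : Fin n) (m : Fin n × Fin 3 →₀ ℕ) :
    Finsupp.weight (fun p : Fin n × Fin 3 => if p.1 = i then 1 else 0) m = ∑ l : Fin 3, m (i, l) := by
  rw [Finsupp.weight_apply, Finsupp.sum_fintype _ _ (by simp), Fintype.sum_prod_type]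
  simp

/-- the value of a multihomogeneous polynomial in terms of the normalized coordinates -/
lemma value_eq (c : Fin n → Fin 3) (x : Fin n → EPt a b) (hx : ∀ j, homog (x j) (c j) ≠ 0)
    {f : MvPolynomial (Fin n × Fin 3) Qb} {d : Fin n → ℕ} (hf : MultiHomog f d) :
    value f x = MvPolynomial.eval (nq c x) f * ∏ j, homog (x j) (c j) ^ d j := by
  have h0 : (fun p : Fin n × Fin 3 => homog (x p.1) p.2) =
      fun p => homog (x p.1) (c p.1) * nq c x p := by
    funext p
    unfold nq
    rw [mul_div_cancel₀ _ (hx p.1)]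
  unfold value
  rw [h0, MvPolynomial.eval_eq', MvPolynomial.eval_eq', Finset.sum_mul]
  apply Finset.sum_congr rfl
  intro m hm
  rw [prod_scale (fun j => homog (x j) (c j)) (nq c x) m]
  have h1 : ∀ j, ∑ l : Fin 3, m (j, l) = d j := fun j => by
    rw [← weight_eq j m]
    exact hf j (MvPolynomial.mem_support_iff.1 hm)
  simp only [h1]
  ring

/-- homogenization of a monomial -/
noncomputable def hm (c : Fin n → Fin 3) (D : ℕ) (m : Fin n × Fin 3 →₀ ℕ) : Fin n × Fin 3 →₀ ℕ :=
  Finsupp.equivFunOnFinite.symm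
    (fun p => m p + if p.2 = c p.1 then D - ∑ l : Fin 3, m (p.1, l) else 0)

lemma hm_apply (c : Fin n → Fin 3) (D : ℕ) (m : Fin n × Fin 3 →₀ ℕ) (p : Fin n × Fin 3) :
    hm c D m p = m p + if p.2 = c p.1 then D - ∑ l : Fin 3, m (p.1, l) else 0 := rfl

/-- homogenization -/
noncomputable def H (c : Fin n → Fin 3) (f : MvPolynomial (Fin n × Fin 3) Qb) :
    MvPolynomial (Fin n × Fin 3) Qb :=
  ∑ m ∈ f.support, MvPolynomial.monomial (hm c f.totalDegree m) (f.coeff m)

lemma deg_le (f : MvPolynomial (Fin n × Fin 3) Qb) (m : Fin n × Fin 3 →₀ ℕ) (hm : m ∈ f.support)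
    (j : Fin n) : ∑ l : Fin 3, m (j, l) ≤ f.totalDegree := by
  refine le_trans ?_ (MvPolynomial.le_totalDegree hm)
  rw [Finsupp.sum_fintype _ _ (fun _ => rfl), Fintype.sum_prod_type]
  exact Finset.single_le_sum (f := fun j => ∑ l : Fin 3, m (j, l)) (fun _ _ => Nat.zero_le _)
    (Finset.mem_univ j)

lemma H_multi (c : Fin n → Fin 3) (f : MvPolynomial (Fin n × Fin 3) Qb) :
    MultiHomog (H c f) (fun _ => f.totalDegree) := by
  intro i
  unfold H
  rw [← MvPolynomial.mem_weightedHomogeneousSubmodule]
  apply Submodule.sum_mem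
  intro m hmem
  rw [MvPolynomial.mem_weightedHomogeneousSubmodule]
  apply MvPolynomial.isWeightedHomogeneous_monomial
  rw [weight_eq]
  simp only [hm_apply]
  rw [Finset.sum_add_distrib, Finset.sum_ite_eq' Finset.univ (c i)]
  simp only [Finset.mem_univ, if_true]
  have := deg_le f m hmem i
  omega

lemma eval_H (c : Fin n → Fin 3) (x : Fin n → EPt a b) (hx : ∀ j, homog (x j) (c j) ≠ 0)
    (f : MvPolynomial (Fin n × Fin 3) Qb) :
    MvPolynomial.eval (nq c x) (H c f) = MvPolynomial.eval (nq c x) f := by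
  unfold H
  rw [map_sum, MvPolynomial.eval_eq' (nq c x) f]
  apply Finset.sum_congr rfl
  intro m _
  rw [MvPolynomial.eval_monomial, Finsupp.prod_pow]
  congr 1
  apply Finset.prod_congr rfl
  intro p _
  rw [hm_apply]
  by_cases h : p.2 = c p.1
  · have h1 : nq c x p = 1 := by
      unfold nq
      rw [h, div_self (hx p.1)]
    rw [h1, one_pow, one_pow]
  · rw [if_neg h, add_zero]

lemma value_H (c : Fin n → Fin 3) (x : Fin n → EPt a b) (hx : ∀ j, homog (x j) (c j) ≠ 0)
    (f : MvPolynomial (Fin n × Fin 3) Qb) :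
    value (H c f) x = 0 ↔ MvPolynomial.eval (nq c x) f = 0 := by
  rw [value_eq c x hx (H_multi c f), eval_H c x hx f]
  rw [mul_eq_zero_iff_right (Finset.prod_ne_zero_iff.2 fun j _ => pow_ne_zero _ (hx j))]

/-- the product of the chart variables -/
noncomputable def cp (c : Fin n → Fin 3) : MvPolynomial (Fin n × Fin 3) Qb :=
  ∏ j, MvPolynomial.X (j, c j)

lemma cp_multi (c : Fin n → Fin 3) : MultiHomog (cp c) (fun _ => 1) := by
  intro i
  unfold cp
  have h1 : ∀ j ∈ (Finset.univ : Finset (Fin n)), MvPolynomial.IsWeightedHomogeneous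
      (fun p : Fin n × Fin 3 => if p.1 = i then 1 else 0)
      (MvPolynomial.X (j, c j) : MvPolynomial (Fin n × Fin 3) Qb) (if j = i then 1 else 0) :=
    fun j _ => MvPolynomial.isWeightedHomogeneous_X Qb _ (j, c j)
  have h2 := MvPolynomial.IsWeightedHomogeneous.prod Finset.univ _ _ h1
  rwa [Finset.sum_ite_eq' Finset.univ i, if_pos (Finset.mem_univ i)] at h2

lemma value_cp (c : Fin n → Fin 3) (x : Fin n → EPt a b) :
    value (cp c) x = ∏ j, homog (x j) (c j) := by
  unfold value cp
  rw [map_prod]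
  simp

lemma closed_one {f : MvPolynomial (Fin n × Fin 3) Qb} {d : Fin n → ℕ} (hf : MultiHomog f d) :
    IsZClosed {x : Fin n → EPt a b | value f x = 0} :=
  ⟨{f}, by rintro _ rfl; exact ⟨d, hf⟩, by ext x; simp⟩

lemma chart_ne (P : EPt a b) : homog P (chart P) ≠ 0 := by
  unfold chart
  rcases P with _ | ⟨x, y, h⟩
  · have : (WeierstrassCurve.Affine.Point.zero : EPt a b) = 0 := rfl
    rw [if_pos this]
    simp [homog]
  · rw [if_neg (WeierstrassCurve.Affine.Point.some_ne_zero _)]
    simp [homog]

theorem main : S_PRM := by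
  intro a b n P
  obtain ⟨c, hc⟩ : ∃ c : Fin n → Fin 3, c = fun j => chart (P j) := ⟨_, rfl⟩
  have hPc : ∀ j, homog (P j) (c j) ≠ 0 := fun j => by rw [hc]; exact chart_ne (P j)
  obtain ⟨I, hI⟩ : ∃ I : Set (Fin n → EPt a b) → Ideal (MvPolynomial (Fin n × Fin 3) Qb),
      ∀ W f, f ∈ I W ↔ ∀ x ∈ W, (∀ j, homog (x j) (c j) ≠ 0) →
        MvPolynomial.eval (nq c x) f = 0 := by
    refine ⟨fun W => ⨅ x : {x // x ∈ W ∧ ∀ j, homog (x j) (c j) ≠ 0},
      RingHom.ker (MvPolynomial.eval (nq c x.1)), fun W f => ?_⟩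
    rw [Submodule.mem_iInf]
    constructor
    · intro h x hx hx'
      exact h ⟨x, hx, hx'⟩
    · intro h x
      exact h x.1 x.2.1 x.2.2
  refine ⟨I, ?_, ?_, ?_⟩
  · intro W hW hPW
    refine ⟨?_, ?_⟩
    · intro htop
      have h1 : (1 : MvPolynomial (Fin n × Fin 3) Qb) ∈ I W := by rw [htop]; trivial
      have h2 := (hI W 1).1 h1 P hPW hPc
      rw [map_one] at h2
      exact one_ne_zero h2
    · intro f g hfg
      have hcov : W ⊆ {x | value (H c f * cp c) x = 0} ∪ {x | value (H c g) x = 0} := by
        intro x hx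
        by_cases hx' : ∀ j, homog (x j) (c j) ≠ 0
        · have h1 := (hI W (f * g)).1 hfg x hx hx'
          rw [map_mul, mul_eq_zero] at h1
          rcases h1 with h1 | h1
          · left
            show value (H c f * cp c) x = 0
            rw [value_mul, (value_H c x hx' f).2 h1, zero_mul]
          · right
            exact (value_H c x hx' g).2 h1
        · left
          push Not at hx'
          obtain ⟨j, hj⟩ := hx'
          show value (H c f * cp c) x = 0
          rw [value_mul, value_cp, Finset.prod_eq_zero (Finset.mem_univ j) hj, mul_zero]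
      rcases hW.2.2 _ _ (closed_one ((H_multi c f).mul (cp_multi c))) (closed_one (H_multi c g))
        hcov with h | h
      · left
        rw [hI]
        intro x hx hx'
        have h1 : value (H c f * cp c) x = 0 := h hx
        rw [value_mul, mul_eq_zero] at h1
        rcases h1 with h1 | h1
        · exact (value_H c x hx' f).1 h1
        · rw [value_cp] at h1
          exact absurd h1 (Finset.prod_ne_zero_iff.2 fun j _ => hx' j)
      · right
        rw [hI]
        intro x hx hx'
        exact (value_H c x hx' g).1 (h hx)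
  · intro W W' hW hW' hPW hlt
    rw [lt_iff_le_not_ge]
    constructor
    · intro f hf
      rw [hI] at hf ⊢
      exact fun x hx => hf x (hlt.1 hx)
    · intro hge
      obtain ⟨x₀, hx₀, hx₀'⟩ := Set.exists_of_ssubset hlt
      obtain ⟨S, hS, hSW⟩ := hW.1
      have h0 : ∃ f ∈ S, value f x₀ ≠ 0 := by
        by_contra hcon
        push Not at hcon
        apply hx₀'
        rw [hSW]
        exact hcon
      obtain ⟨f, hfS, hf0⟩ := h0
      obtain ⟨d, hd⟩ := hS f hfS
      have hvan : ∀ x ∈ W, value f x = 0 := fun x hx => by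
        rw [hSW] at hx
        exact hx f hfS
      have hfW : f ∈ I W := by
        rw [hI]
        intro x hx hx'
        have h1 := value_eq c x hx' hd
        rw [hvan x hx] at h1
        exact (mul_eq_zero.1 h1.symm).resolve_right
          (Finset.prod_ne_zero_iff.2 fun j _ => pow_ne_zero _ (hx' j))
      have hfW' := (hI W' f).1 (hge hfW)
      have hcov : W' ⊆ {x | value f x = 0} ∪ {x | value (cp c) x = 0} := by
        intro x hx
        by_cases hx' : ∀ j, homog (x j) (c j) ≠ 0
        · left
          show value f x = 0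
          rw [value_eq c x hx' hd, hfW' x hx hx', zero_mul]
        · right
          push Not at hx'
          obtain ⟨j, hj⟩ := hx'
          show value (cp c) x = 0
          rw [value_cp, Finset.prod_eq_zero (Finset.mem_univ j) hj]
      rcases hW'.2.2 _ _ (closed_one hd) (closed_one (cp_multi c)) hcov with h | h
      · exact hf0 (h hx₀)
      · have h1 : value (cp c) P = 0 := h (hlt.1 hPW)
        rw [value_cp] at h1
        exact (Finset.prod_ne_zero_iff.2 fun j _ => hPc j) h1
  · intro W f
    rw [hI, hc]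
    rfl

end Pool.Agent.Helper62.RH.PRM
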