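import Pool.Agent.Helper62.RH.Stm2

/-! Module RCO by helper2. -/

set_option autoImplicit false

namespace Pool.Agent.Helper62.RH.RCO

open Pool.Agent.Helper62.RE Pool.Agent.Helper62.RH MvPolynomial
open scoped Classical

variable {a b : Qb} {n : ℕ}

theorem homog_ne (P : EPt a b) : ∃ l, homog P l ≠ 0 := by
  match P with
  | .zero => exact ⟨1, by simp [homog]⟩
  | .some x y _ => exact ⟨2, by simp [homog]⟩

theorem value_mul (f g : MvPolynomial (Fin n × Fin 3) Qb) (y : Fin n → EPt a b) :
    value (f * g) y = value f y * value g y := map_mul _ _ _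

theorem value_pow (f : MvPolynomial (Fin n × Fin 3) Qb) (k : ℕ) (y : Fin n → EPt a b) :
    value (f ^ k) y = value f y ^ k := map_pow _ _ _

theorem value_neg (f : MvPolynomial (Fin n × Fin 3) Qb) (y : Fin n → EPt a b) :
    value (-f) y = - value f y := map_neg _ _

theorem value_prod {ι : Type} (s : Finset ι) (f : ι → MvPolynomial (Fin n × Fin 3) Qb)
    (y : Fin n → EPt a b) : value (∏ j ∈ s, f j) y = ∏ j ∈ s, value (f j) y := map_prod _ _ _

theorem value_C (c : Qb) (y : Fin n → EPt a b) : value (C c) y = c := eval_C _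

theorem value_X (p : Fin n × Fin 3) (y : Fin n → EPt a b) :
    value (X p) y = homog (y p.1) p.2 := eval_X _

theorem mh_mul {f g : MvPolynomial (Fin n × Fin 3) Qb} {d e : Fin n → ℕ} (hf : MultiHomog f d)
    (hg : MultiHomog g e) : MultiHomog (f * g) (fun i => d i + e i) :=
  fun i => (hf i).mul (hg i)

theorem mh_C (c : Qb) : MultiHomog (n := n) (C c) (fun _ => 0) :=
  fun _ => isWeightedHomogeneous_C _ _

theorem mh_pow {f : MvPolynomial (Fin n × Fin 3) Qb} (hf : MultiHomog f (fun _ => 1)) (k : ℕ) :
    MultiHomog (f ^ k) (fun _ => k) := by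
  intro i
  have h := (hf i).pow k
  simpa using h

/-- there is a multihomogeneous polynomial of degree 1 with a nonzero value at `y₀` -/
theorem exists_unit (y₀ : Fin n → EPt a b) : ∃ M : MvPolynomial (Fin n × Fin 3) Qb,
    MultiHomog M (fun _ => 1) ∧ value M y₀ ≠ 0 := by
  choose c hc using fun j => homog_ne (y₀ j)
  refine ⟨∏ j, X (j, c j), ?_, ?_⟩
  · intro i
    have h := IsWeightedHomogeneous.prod (R := Qb)
      (w := fun p : Fin n × Fin 3 => if p.1 = i then 1 else 0) Finset.univ
      (fun j => X (j, c j)) (fun j => if j = i then 1 else 0)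
      (fun j _ => isWeightedHomogeneous_X _ _ _)
    simpa using h
  · rw [value_prod, Finset.prod_ne_zero_iff]
    intro j _
    rw [value_X]
    exact hc j

theorem reg_mono (D D' : ℕ) (g : (Fin n → EPt a b) → EPt a b) (h : D ≤ D') (hg : Reg D g) :
    Reg D' g := by
  intro y₀
  obtain ⟨G, r, h1, h2, h3⟩ := hg y₀
  obtain ⟨M, hM, hM0⟩ := exists_unit y₀
  refine ⟨fun l => G l * M ^ (D' - D), fun y => r y * value M y ^ (D' - D), ?_, ?_, ?_⟩
  · intro l
    have h4 := mh_mul (h1 l) (mh_pow hM (D' - D))
    have e : (fun _ : Fin n => D') = fun _ => D + (D' - D) := by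
      funext; omega
    rw [e]
    exact h4
  · exact mul_ne_zero h2 (pow_ne_zero _ hM0)
  · intro y l
    rw [value_mul, value_pow, h3]
    ring

theorem reg_const (c : EPt a b) : Reg (n := n) 0 fun _ => c := by
  intro y₀
  refine ⟨fun l => C (homog c l), fun _ => 1, fun l => mh_C _, one_ne_zero, ?_⟩
  intro y l
  rw [value_C, one_mul]

theorem reg_coord (i : Fin n) : Reg (a := a) (b := b) 1 fun y => y i := by
  intro y₀
  choose c hc using fun j => homog_ne (y₀ j)
  refine ⟨fun l => X (i, l) * ∏ j ∈ Finset.univ.erase i, X (j, c j),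
    fun y => ∏ j ∈ Finset.univ.erase i, homog (y j) (c j), ?_, ?_, ?_⟩
  · intro l k
    have h := IsWeightedHomogeneous.prod (R := Qb)
      (w := fun p : Fin n × Fin 3 => if p.1 = k then 1 else 0) (Finset.univ.erase i)
      (fun j => X (j, c j)) (fun j => if j = k then 1 else 0)
      (fun j _ => isWeightedHomogeneous_X _ _ _)
    have h' := (isWeightedHomogeneous_X Qb
      (fun p : Fin n × Fin 3 => if p.1 = k then 1 else 0) (i, l)).mul h
    have e : (if (i, l).1 = k then 1 else 0) +
        ∑ j ∈ Finset.univ.erase i, (if j = k then 1 else 0) = 1 := by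
      have := Finset.add_sum_erase Finset.univ (fun j => if j = k then 1 else 0)
        (Finset.mem_univ i)
      simpa using this
    rw [e] at h'
    exact h'
  · rw [Finset.prod_ne_zero_iff]
    intro j _
    exact hc j
  · intro y l
    rw [value_mul, value_X, value_prod, mul_comm]
    congr 1
    exact Finset.prod_congr rfl fun j _ => value_X _ _

theorem reg_neg (D : ℕ) (g : (Fin n → EPt a b) → EPt a b) (hg : Reg D g) :
    Reg D fun y => - g y := by
  intro y₀
  obtain ⟨G, r, h1, h2, h3⟩ := hg y₀
  refine ⟨![G 0, -G 1, G 2], fun y => if g y = 0 then - r y else r y, ?_, ?_, ?_⟩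
  · intro l
    fin_cases l
    · exact h1 0
    · intro i
      exact (h1 1 i).neg
    · exact h1 2
  · show (if g y₀ = 0 then - r y₀ else r y₀) ≠ 0
    split_ifs
    · exact neg_ne_zero.mpr h2
    · exact h2
  · intro y l
    have e0 := h3 y 0
    have e1 := h3 y 1
    have e2 := h3 y 2
    show value (![G 0, -G 1, G 2] l) y = (if g y = 0 then - r y else r y) * homog (- g y) l
    rcases hgy : g y with _ | ⟨x, z, hz⟩
    · rw [hgy] at e0 e1 e2
      have hh : (-(WeierstrassCurve.Affine.Point.zero : EPt a b)) = .zero := rfl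
      have hz0 : (WeierstrassCurve.Affine.Point.zero : EPt a b) = 0 := rfl
      rw [if_pos hz0, hh]
      fin_cases l
      · simpa [homog] using e0
      · have : value (-G 1) y = -r y := by
          rw [value_neg, e1]; simp [homog]
        simpa [homog] using this
      · simpa [homog] using e2
    · rw [hgy] at e0 e1 e2
      have hne : (WeierstrassCurve.Affine.Point.some x z hz : EPt a b) ≠ 0 := by
        intro h; cases h
      rw [if_neg hne, WeierstrassCurve.Affine.Point.neg_some]
      fin_cases l
      · simpa [homog] using e0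
      · have : value (-G 1) y = r y * (curve a b).toAffine.negY x z := by
          rw [value_neg, e1]; simp [homog, WeierstrassCurve.Affine.negY, curve]
        simpa [homog] using this
      · simpa [homog] using e2

theorem main : S_RCO := by
  intro a b n
  refine ⟨fun c D => reg_mono 0 D _ (Nat.zero_le _) (reg_const c),
    fun i D hD => reg_mono 1 D _ hD (reg_coord i), fun D g => reg_neg D g,
    fun D D' g h hg => reg_mono D D' g h hg⟩

end Pool.Agent.Helper62.RH.RCO
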