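import Pool.Agent.Helper62.RH.Stm2

set_option autoImplicit false

/-!
# Linear forms are regular (module RLI, helper36)
-/

namespace Pool.Agent.Helper62.RH.RLI

open Pool.Agent.Helper62.RE Pool.Agent.Helper62.RH
open scoped Classical

theorem main : S_RCO → S_RAD → S_RLI := by
  intro hC hA a b hab n A
  obtain ⟨hconst, hcoord, hneg, hmono⟩ := hC a b n
  -- natural multiples
  have hnat : ∀ (g : (Fin n → EPt a b) → EPt a b) (D : ℕ), Reg D g → ∀ m : ℕ, ∃ D' : ℕ,
      Reg D' fun y => m • g y := by
    intro g D hg m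
    induction m with
    | zero =>
      refine ⟨0, ?_⟩
      have := hconst 0 0
      simpa only [zero_nsmul] using this
    | succ m ih =>
      obtain ⟨D', hD'⟩ := ih
      refine ⟨4 * (D' + D), ?_⟩
      have := hA a b hab n D' D (fun y => m • g y) g hD' hg
      simpa only [succ_nsmul] using this
  -- integral multiples
  have hint : ∀ (g : (Fin n → EPt a b) → EPt a b) (D : ℕ), Reg D g → ∀ m : ℤ, ∃ D' : ℕ,
      Reg D' fun y => m • g y := by
    intro g D hg m
    obtain ⟨k, rfl | rfl⟩ := Int.eq_nat_or_neg m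
    · obtain ⟨D', hD'⟩ := hnat g D hg k
      refine ⟨D', ?_⟩
      simpa only [natCast_zsmul] using hD'
    · obtain ⟨D', hD'⟩ := hnat g D hg k
      refine ⟨D', ?_⟩
      have := hneg D' _ hD'
      simpa only [neg_zsmul, natCast_zsmul] using this
  -- sums
  have hsum : ∀ (k : Fin n) (s : Finset (Fin n)), ∃ D' : ℕ,
      Reg (a := a) (b := b) D' fun y => ∑ l ∈ s, A k l • y l := by
    intro k s
    induction s using Finset.induction_on with
    | empty =>
      refine ⟨0, ?_⟩
      have := hconst 0 0
      simpa only [Finset.sum_empty] using this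
    | insert l s hl ih =>
      obtain ⟨D₁, h1⟩ := ih
      obtain ⟨D₂, h2⟩ := hint (fun y => y l) 1 (hcoord l 1 le_rfl) (A k l)
      refine ⟨4 * (D₂ + D₁), ?_⟩
      have := hA a b hab n D₂ D₁ _ _ h2 h1
      simpa only [Finset.sum_insert hl] using this
  choose D hD using fun k => hsum k Finset.univ
  refine ⟨Finset.univ.sup D, fun k => ?_⟩
  exact hmono (D k) _ _ (Finset.le_sup (Finset.mem_univ k)) (hD k)

end Pool.Agent.Helper62.RH.RLI
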