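import Pool.Agent.Helper62.RH.Stm
import Pool.Agent.Helper62.RE.FIN
import Pool.Agent.Helper62.RE.Geo

set_option autoImplicit false

/-!
# Closed sets and lines (module SLC, helper9)
-/

namespace Pool.Agent.Helper62.RH.SLC

open Pool.Agent.Helper62.RE
open scoped Classical

variable {a b : Qb} {n : ℕ}

/-- weighted homogeneity of substitutions -/
lemma isWH_aeval {σ τ : Type} {w : σ → ℕ} {w' : τ → ℕ} {g : σ → MvPolynomial τ Qb}
    {f : MvPolynomial σ Qb} {k : ℕ} (hf : MvPolynomial.IsWeightedHomogeneous w f k)
    (hg : ∀ p, MvPolynomial.IsWeightedHomogeneous w' (g p) (w p)) :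
    MvPolynomial.IsWeightedHomogeneous w' (MvPolynomial.aeval g f) k := by
  rw [MvPolynomial.aeval_def, MvPolynomial.eval₂_eq]
  refine MvPolynomial.IsWeightedHomogeneous.sum _ _ _ fun u hu => ?_
  have h1 : MvPolynomial.IsWeightedHomogeneous w' (∏ i ∈ u.support, g i ^ u i)
      (∑ i ∈ u.support, u i • w i) :=
    MvPolynomial.IsWeightedHomogeneous.prod _ _ _ (fun i _ => (hg i).pow (u i))
  have h2 : ∑ i ∈ u.support, u i • w i = k := by
    have := hf (MvPolynomial.mem_support_iff.1 hu)
    rw [← this, Finsupp.weight_apply, Finsupp.sum]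
  rw [h2] at h1
  have h3 := (MvPolynomial.isWeightedHomogeneous_C w' (f.coeff u)).mul h1
  rwa [zero_add] at h3

lemma isWH_zero {σ : Type} (f : MvPolynomial σ Qb) :
    MvPolynomial.IsWeightedHomogeneous (fun _ : σ => (0 : ℕ)) f 0 := by
  intro u _
  rw [Finsupp.weight_apply, Finsupp.sum]
  simp

lemma eval_aeval' {σ τ : Type} (g : σ → MvPolynomial τ Qb) (x : τ → Qb) (f : MvPolynomial σ Qb) :
    MvPolynomial.eval x (MvPolynomial.aeval g f) =
      MvPolynomial.eval (fun p => MvPolynomial.eval x (g p)) f := by
  induction f using MvPolynomial.induction_on with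
  | C r => simp
  | add p q hp hq => simp only [map_add, hp, hq]
  | mul_X p i hp => simp only [map_mul, hp, MvPolynomial.aeval_X, MvPolynomial.eval_X]

/-- (1) -/
lemma closed_slice {A : Set (Fin n → EPt a b)} (hA : IsZClosed A) (j : Fin n) (y : EPt a b) :
    IsZClosed {x : Fin n → EPt a b | Function.update x j y ∈ A} := by
  obtain ⟨S, hS, rfl⟩ := hA
  let g : Fin n × Fin 3 → MvPolynomial (Fin n × Fin 3) Qb :=
    fun p => if p.1 = j then MvPolynomial.C (homog y p.2) else MvPolynomial.X p
  refine ⟨{h | ∃ f ∈ S, h = MvPolynomial.aeval g f}, ?_, ?_⟩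
  · rintro _ ⟨f, hf, rfl⟩
    obtain ⟨d, hd⟩ := hS f hf
    refine ⟨fun i => if i = j then 0 else d i, fun i => ?_⟩
    by_cases hij : i = j
    · simp only [hij, if_true]
      refine isWH_aeval (isWH_zero f) fun p => ?_
      by_cases hp : p.1 = j
      · simp only [g, hp, if_true]
        exact MvPolynomial.isWeightedHomogeneous_C _ _
      · simp only [g, hp, if_false]
        have := MvPolynomial.isWeightedHomogeneous_X Qb
          (fun p : Fin n × Fin 3 => if p.1 = j then 1 else 0) p
        simpa [hp] using this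
    · simp only [hij, if_false]
      refine isWH_aeval (hd i) fun p => ?_
      by_cases hp : p.1 = j
      · simp only [g, hp, if_true, if_neg (Ne.symm hij)]
        exact MvPolynomial.isWeightedHomogeneous_C _ _
      · simp only [g, hp, if_false]
        exact MvPolynomial.isWeightedHomogeneous_X Qb
          (fun p : Fin n × Fin 3 => if p.1 = i then 1 else 0) p
  · ext x
    simp only [Set.mem_ofPred_eq]
    have key : ∀ f : MvPolynomial (Fin n × Fin 3) Qb,
        value (MvPolynomial.aeval g f) x = value f (Function.update x j y) := by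
      intro f
      unfold value
      rw [eval_aeval']
      congr 1
      congr 1
      funext p
      by_cases hp : p.1 = j
      · simp [g, hp]
      · simp [g, hp]
    constructor
    · rintro h _ ⟨f, hf, rfl⟩
      rw [key]
      exact h f hf
    · intro h f hf
      rw [← key]
      exact h _ ⟨f, hf, rfl⟩

open Polynomial in
/-- the part of `f (x, y, 1)` with `y`-exponent congruent to `r` modulo 2, reduced -/
noncomputable def part (a b : Qb) (h : MvPolynomial (Fin 3) Qb) (r : ℕ) : Qb[X] :=
  ∑ e ∈ h.support with e 1 % 2 = r,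
    C (h.coeff e) * (X ^ e 0 * (X ^ 3 + C a * X + C b) ^ (e 1 / 2))

open Polynomial in
lemma eval_part (h : MvPolynomial (Fin 3) Qb) {x y : Qb} (hxy : y ^ 2 = x ^ 3 + a * x + b) :
    MvPolynomial.eval (![x, y, 1] : Fin 3 → Qb) h =
      (part a b h 0).eval x + (part a b h 1).eval x * y := by
  rw [MvPolynomial.eval_eq']
  unfold part
  rw [eval_finsetSum, eval_finsetSum, Finset.sum_mul]
  have h0 : (h.support.filter fun e => e 1 % 2 = 1) = h.support.filter fun e => ¬ e 1 % 2 = 0 := by
    apply Finset.filter_congr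
    intro e _
    omega
  rw [h0, ← Finset.sum_filter_add_sum_filter_not h.support (fun e => e 1 % 2 = 0)]
  congr 1
  · refine Finset.sum_congr rfl fun e he => ?_
    have he1 : e 1 % 2 = 0 := (Finset.mem_filter.1 he).2
    have he2 : e 1 = 2 * (e 1 / 2) := by omega
    simp only [Fin.prod_univ_three, eval_mul, eval_C, eval_pow, eval_X, eval_add]
    rw [← hxy]
    simp only [Matrix.cons_val_zero, Matrix.cons_val_one, Matrix.cons_val, one_pow, mul_one]
    rw [← pow_mul, ← he2]
  · refine Finset.sum_congr rfl fun e he => ?_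
    have he1 : ¬ e 1 % 2 = 0 := (Finset.mem_filter.1 he).2
    have he2 : e 1 = 2 * (e 1 / 2) + 1 := by omega
    simp only [Fin.prod_univ_three, eval_mul, eval_C, eval_pow, eval_X, eval_add]
    rw [← hxy]
    simp only [Matrix.cons_val_zero, Matrix.cons_val_one, Matrix.cons_val, one_pow, mul_one]
    rw [← pow_mul]
    conv_lhs => rw [he2]
    rw [pow_succ]
    ring

open Polynomial in
lemma coeff_part {h : MvPolynomial (Fin 3) Qb} {D : ℕ}
    (hh : ∀ e ∈ h.support, e 0 + e 1 + e 2 = D) :
    (part a b h (D % 2)).coeff (3 * (D / 2)) = h.coeff (Finsupp.single 1 D) := by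
  have hG : (X ^ 3 + C a * X + C b : Qb[X]).Monic := by monicity!
  have hGd : (X ^ 3 + C a * X + C b : Qb[X]).natDegree = 3 := FIN.cubic_natDegree
  have hT : ∀ k l : ℕ, (X ^ k * (X ^ 3 + C a * X + C b) ^ l : Qb[X]).natDegree = k + 3 * l := by
    intro k l
    rw [(monic_X_pow k).natDegree_mul (hG.pow l), hG.natDegree_pow, hGd, natDegree_X_pow]
    ring
  have hTm : ∀ k l : ℕ, (X ^ k * (X ^ 3 + C a * X + C b) ^ l : Qb[X]).Monic := fun k l =>
    (monic_X_pow k).mul (hG.pow l)
  have ext3 : ∀ e ∈ h.support, e 1 = D → e = Finsupp.single 1 D := by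
    intro e he h1
    have := hh e he
    ext i
    fin_cases i
    · simp; omega
    · simp; omega
    · simp; omega
  unfold part
  rw [finsetSum_coeff]
  simp only [coeff_C_mul]
  rw [Finset.sum_eq_single (Finsupp.single 1 D)]
  · have h1 : (Finsupp.single (1 : Fin 3) D) 0 = 0 := by simp
    have h2 : (Finsupp.single (1 : Fin 3) D) 1 = D := by simp
    rw [h1, h2]
    have h3 := (hTm 0 (D / 2)).coeff_natDegree
    rw [hT, zero_add] at h3
    rw [h3, mul_one]
  · intro e he hne
    have he1 := (Finset.mem_filter.1 he).1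
    have he2 := (Finset.mem_filter.1 he).2
    have he3 := hh e he1
    have he4 : e 1 ≠ D := fun h => hne (ext3 e he1 h)
    rw [coeff_eq_zero_of_natDegree_lt, mul_zero]
    rw [hT]
    omega
  · intro hn
    have : Finsupp.single 1 D ∉ h.support := by
      intro hmem
      apply hn
      rw [Finset.mem_filter]
      exact ⟨hmem, by simp⟩
    rw [MvPolynomial.notMem_support_iff.1 this, zero_mul]

lemma eval_infinity {h : MvPolynomial (Fin 3) Qb} {D : ℕ}
    (hh : ∀ e ∈ h.support, e 0 + e 1 + e 2 = D) :
    MvPolynomial.eval (![0, 1, 0] : Fin 3 → Qb) h = h.coeff (Finsupp.single 1 D) := by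
  rw [MvPolynomial.eval_eq', Finset.sum_eq_single (Finsupp.single 1 D)]
  · simp [Fin.prod_univ_three]
  · intro e he hne
    have he3 := hh e he
    have h0 : e 0 ≠ 0 ∨ e 2 ≠ 0 := by
      by_contra hcon
      push Not at hcon
      apply hne
      ext i
      fin_cases i
      · simp; omega
      · simp; omega
      · simp; omega
    rw [Fin.prod_univ_three]
    rcases h0 with h0 | h0
    · simp [h0]
    · simp [h0]
  · intro hn
    rw [MvPolynomial.notMem_support_iff.1 hn, zero_mul]

/-- a homogeneous polynomial in three variables vanishes on `E` or has finitely many zeros on `E` -/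
lemma finite_or_all {h : MvPolynomial (Fin 3) Qb} {D : ℕ}
    (hh : ∀ e ∈ h.support, e 0 + e 1 + e 2 = D) :
    {y : EPt a b | MvPolynomial.eval (homog y) h = 0}.Finite ∨
      ∀ y : EPt a b, MvPolynomial.eval (homog y) h = 0 := by
  by_cases hpq : part a b h 0 = 0 ∧ part a b h 1 = 0
  · right
    rintro (_ | ⟨x, y, hxy⟩)
    · show MvPolynomial.eval (![0, 1, 0] : Fin 3 → Qb) h = 0
      rw [eval_infinity hh, ← coeff_part (a := a) (b := b) hh]
      have hr : part a b h (D % 2) = 0 := by
        rcases Nat.mod_two_eq_zero_or_one D with h1 | h1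
        · rw [h1]; exact hpq.1
        · rw [h1]; exact hpq.2
      rw [hr, Polynomial.coeff_zero]
    · show MvPolynomial.eval (![x, y, 1] : Fin 3 → Qb) h = 0
      rw [eval_part h (FIN.curve_eq hxy), hpq.1, hpq.2]
      simp
  · left
    have hD := FIN.ne_zero_of (a := a) (b := b) hpq
    have hfin := FIN.finite_points (a := a) (b := b) hD
    refine (hfin.union (Set.finite_singleton (0 : EPt a b))).subset ?_
    intro P hP
    have hP' : MvPolynomial.eval (homog P) h = 0 := hP
    rcases P with _ | ⟨x, y, hxy⟩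
    · right
      rfl
    · left
      refine ⟨x, y, hxy, rfl, ?_⟩
      have h2 := FIN.curve_eq hxy
      have h1 : MvPolynomial.eval (![x, y, 1] : Fin 3 → Qb) h = 0 := hP'
      rw [eval_part h h2] at h1
      simp only [Polynomial.eval_sub, Polynomial.eval_pow, Polynomial.eval_mul, Polynomial.eval_add,
        Polynomial.eval_X, Polynomial.eval_C]
      linear_combination ((part a b h 0).eval x - (part a b h 1).eval x * y) * h1 +
        ((part a b h 1).eval x) ^ 2 * h2

/-- (2) -/
lemma slice_finite {A : Set (Fin n → EPt a b)} (hA : IsZClosed A) (j : Fin n)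
    (x : Fin n → EPt a b) : {y : EPt a b | Function.update x j y ∈ A}.Finite ∨
      ∀ y : EPt a b, Function.update x j y ∈ A := by
  obtain ⟨S, hS, rfl⟩ := hA
  let g : Fin n × Fin 3 → MvPolynomial (Fin 3) Qb :=
    fun p => if p.1 = j then MvPolynomial.X p.2 else MvPolynomial.C (homog (x p.1) p.2)
  have key : ∀ (f : MvPolynomial (Fin n × Fin 3) Qb) (y : EPt a b),
      MvPolynomial.eval (homog y) (MvPolynomial.aeval g f) = value f (Function.update x j y) := by
    intro f y
    unfold value
    rw [eval_aeval']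
    congr 1
    congr 1
    funext p
    by_cases hp : p.1 = j
    · simp [g, hp]
    · simp [g, hp]
  have hom : ∀ f ∈ S, ∃ D : ℕ, ∀ e ∈ (MvPolynomial.aeval g f).support, e 0 + e 1 + e 2 = D := by
    intro f hf
    obtain ⟨d, hd⟩ := hS f hf
    have h1 : MvPolynomial.IsWeightedHomogeneous (fun _ : Fin 3 => (1 : ℕ))
        (MvPolynomial.aeval g f) (d j) := by
      refine isWH_aeval (hd j) fun p => ?_
      by_cases hp : p.1 = j
      · simp only [g, hp, if_true]
        exact MvPolynomial.isWeightedHomogeneous_X Qb (fun _ : Fin 3 => (1 : ℕ)) p.2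
      · simp only [g, hp, if_false]
        exact MvPolynomial.isWeightedHomogeneous_C _ _
    refine ⟨d j, fun e he => ?_⟩
    have h2 := h1 (MvPolynomial.mem_support_iff.1 he)
    rw [← h2, Finsupp.weight_apply, Finsupp.sum_fintype _ _ (by simp), Fin.sum_univ_three]
    simp
  by_cases hall : ∀ f ∈ S, ∀ y : EPt a b, value f (Function.update x j y) = 0
  · right
    intro y f hf
    exact hall f hf y
  · left
    push Not at hall
    obtain ⟨f, hf, y₀, hy₀⟩ := hall
    obtain ⟨D, hD⟩ := hom f hf
    rcases finite_or_all (a := a) (b := b) hD with h1 | h1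
    · refine h1.subset fun y hy => ?_
      show MvPolynomial.eval (homog y) (MvPolynomial.aeval g f) = 0
      rw [key]
      exact hy f hf
    · exact absurd (by rw [← key]; exact h1 y₀) hy₀

/-- SLC: closed sets and lines. -/
theorem main : S_SLC := fun _ _ _ _ _ hA j => ⟨closed_slice hA j, slice_finite hA j⟩

end Pool.Agent.Helper62.RH.SLC
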