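import Pool.Agent.Helper62.RH.Stm
import Pool.Agent.Helper62.RE.DBL

set_option autoImplicit false

/-!
# Module TOR (helper37): `E` has infinitely many torsion points
-/

namespace Pool.Agent.Helper62.RH.TOR

open Pool.Agent.Helper62.RE
open scoped Classical
open WeierstrassCurve.Affine

variable {a b : Qb}

/-- a point of order two -/
lemma exists_two (hab : 4 * a ^ 3 + 27 * b ^ 2 ≠ 0) : ∃ P : EPt a b, P ≠ 0 ∧ 2 • P = 0 := by
  obtain ⟨e1, e2, e3, h12, h13, h23, hs, hp, hq⟩ := DBL.roots hab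
  have hns : (curve a b).toAffine.Nonsingular e1 0 := by
    rw [DBL.nonsing_iff]
    constructor
    · linear_combination (-e1 ^ 2) * hs + e1 * hp - hq
    · left
      have h3 : e3 = -e1 - e2 := by linear_combination hs
      have h4 : 3 * e1 ^ 2 + a = (e1 - e2) * (e1 - e3) := by
        rw [← hp, h3]
        ring
      rw [h4]
      exact mul_ne_zero (sub_ne_zero.2 h12) (sub_ne_zero.2 h13)
  refine ⟨.some e1 0 hns, ?_, ?_⟩
  · intro h
    exact Point.some_ne_zero hns h
  · rw [two_nsmul]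
    apply Point.add_of_Y_eq rfl
    simp [WeierstrassCurve.Affine.negY, curve]

theorem main : S_TOR := by
  intro a b hab hfin
  obtain ⟨P, hP0, hP2⟩ := exists_two hab
  set T : Set (EPt a b) := {y : EPt a b | ∃ m : ℕ, 0 < m ∧ m • y = 0} with hT
  have : Finite T := hfin
  have hmem : ∀ y : EPt a b, y ∈ T → 2 • y ∈ T := by
    rintro y ⟨m, hm, h⟩
    exact ⟨m, hm, by rw [← mul_nsmul', mul_comm, mul_nsmul', h, nsmul_zero]⟩
  set f : T → T := fun y => ⟨2 • y.1, hmem y.1 y.2⟩ with hf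
  have hsurj : Function.Surjective f := by
    rintro ⟨y, m, hm, h⟩
    obtain ⟨x, hx⟩ := (DBL.main a b hab).1 y
    refine ⟨⟨x, m * 2, by omega, ?_⟩, ?_⟩
    · rw [mul_nsmul', hx, h]
    · apply Subtype.ext
      exact hx
  have hinj : Function.Injective f := Finite.injective_iff_surjective.2 hsurj
  have h0 : (0 : EPt a b) ∈ T := ⟨1, one_pos, by simp⟩
  have hP : P ∈ T := ⟨2, two_pos, hP2⟩
  have h1 : f ⟨P, hP⟩ = f ⟨0, h0⟩ := by
    apply Subtype.ext
    show 2 • P = 2 • (0 : EPt a b)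
    rw [hP2, nsmul_zero]
  exact hP0 (congrArg Subtype.val (hinj h1))

end Pool.Agent.Helper62.RH.TOR
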