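import Pool.Agent.Helper62.RH.Stm

/-! TRA: hypersurfaces `x_i = z` in torsion subvarieties (written by helper89). -/

set_option autoImplicit false

namespace Pool.Agent.Helper62.RH.TRA

open Pool.Agent.Helper62.RE
open scoped Classical

theorem main (hS : S_SLC) : S_TRA := by
  intro a b hab n i z Γ T hT hne hsub
  obtain ⟨B, hB, γ, ⟨m, hm, hmγ⟩, rfl⟩ := hT
  obtain ⟨y0, hy0, e0⟩ := hsub (show (Function.update (0 : Fin n → EPt a b) i z) i = z by simp)
  have h0 : ∀ x : Fin n → EPt a b, x i = 0 → x ∈ B := by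
    intro x hx
    obtain ⟨y1, hy1, e1⟩ := hsub (show ((Function.update (0 : Fin n → EPt a b) i z) + x) i = z by
      rw [Pi.add_apply, hx, add_zero]; simp)
    rw [e0, add_assoc] at e1
    have h3 : y0 + x = y1 := add_left_cancel e1
    have h4 : x = y1 - y0 := by rw [← h3, add_sub_cancel_left]
    rw [h4]
    exact B.sub_mem hy1 hy0
  have h1 : ∀ x : Fin n → EPt a b, x ∈ B → Function.update (0 : Fin n → EPt a b) i (x i) ∈ B := by
    intro x hx
    have h2 := B.sub_mem hx (h0 (x - Function.update (0 : Fin n → EPt a b) i (x i)) (by simp))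
    rwa [sub_sub_cancel] at h2
  have hz : Function.update (0 : Fin n → EPt a b) i (z - γ i) ∈ B := by
    have h2 := h1 y0 hy0
    have h3 : y0 i = z - γ i := by
      have h4 := congrFun e0 i
      rw [Function.update_self, Pi.add_apply] at h4
      rw [h4, add_sub_cancel_left]
    rwa [h3] at h2
  rcases (hS a b hab n (B : Set (Fin n → EPt a b)) hB.1 i).2 0 with hfin | hall
  · let C : AddSubgroup (EPt a b) := B.comap (AddMonoidHom.single (fun _ : Fin n => EPt a b) i)
    have hC : ∀ y : EPt a b, y ∈ C ↔ Function.update (0 : Fin n → EPt a b) i y ∈ B := fun y => Iff.rfl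
    have hCfin : Finite C := by
      refine Set.Finite.subset hfin ?_
      intro y hy
      exact (hC y).1 hy
    have ht : z - γ i ∈ C := (hC _).2 hz
    have ho : IsOfFinAddOrder (⟨z - γ i, ht⟩ : C) := isOfFinAddOrder_of_finite _
    obtain ⟨k, hk, hk0⟩ := isOfFinAddOrder_iff_nsmul_eq_zero.1 ho
    have hk1 : k • (z - γ i) = 0 := by
      have := congrArg Subtype.val hk0
      simpa using this
    refine ⟨k * m, Nat.mul_pos hk hm, k • (m • γ), Γ.nsmul_mem hmγ k, ?_⟩
    rw [nsmul_sub, sub_eq_zero] at hk1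
    have e1 : (k * m) • z = m • k • z := mul_nsmul z k m
    rw [e1, hk1]
    show m • k • γ i = k • m • γ i
    rw [← mul_nsmul, ← mul_nsmul, mul_comm]
  · exfalso
    apply hne
    rw [Set.eq_univ_iff_forall]
    intro x
    refine ⟨x - γ, ?_, by rw [add_sub_cancel]⟩
    have h2 := B.add_mem (h0 ((x - γ) - Function.update (0 : Fin n → EPt a b) i ((x - γ) i)) (by simp))
      (hall ((x - γ) i))
    rwa [sub_add_cancel] at h2

end Pool.Agent.Helper62.RH.TRA
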