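import Pool.Agent.Helper62.RH.Stm2

/-! TRV: hypersurfaces `(lin A x)_i = z` in torsion subvarieties (written by helper99). -/

set_option autoImplicit false

namespace Pool.Agent.Helper62.RH.TRV

open Pool.Agent.Helper62.RE
open scoped Classical

theorem main (hR : S_RLI) (hC : S_CON) (hH : S_HOM) (hT : S_TRA) : S_TRV := by
  intro a b hab n i A B hAB hBA z Γ T hTV hne hsub
  -- the homomorphisms
  let LA : (Fin n → EPt a b) →+ (Fin n → EPt a b) := AddMonoidHom.mk' (lin A) (lin_add A)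
  let LB : (Fin n → EPt a b) →+ (Fin n → EPt a b) := AddMonoidHom.mk' (lin B) (lin_add B)
  have hab1 : ∀ x : Fin n → EPt a b, lin A (lin B x) = x := by
    intro x
    rw [lin_lin, hAB, lin_one]
  have hba1 : ∀ x : Fin n → EPt a b, lin B (lin A x) = x := by
    intro x
    rw [lin_lin, hBA, lin_one]
  have hcA : ∀ W : Set (Fin n → EPt a b), IsZClosed W → IsZClosed (lin A ⁻¹' W) := by
    obtain ⟨D, hD⟩ := hR a b hab n A
    exact hC a b n D (lin A) hD
  have hcB : ∀ W : Set (Fin n → EPt a b), IsZClosed W → IsZClosed (lin B ⁻¹' W) := by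
    obtain ⟨D, hD⟩ := hR a b hab n B
    exact hC a b n D (lin B) hD
  have hsv := (hH a b n (lin B) (lin A) hab1 hba1 hcB hcA).1
  obtain ⟨B₀, hB₀, γ, ⟨m, hm, hmγ⟩, rfl⟩ := hTV
  have key := hT a b hab n i z (Γ.map LA)
    {x | ∃ y ∈ B₀.comap LB, x = lin A γ + y} ⟨B₀.comap LB, hsv _ hB₀, lin A γ,
      ⟨m, hm, ⟨m • γ, hmγ, map_nsmul LA m γ⟩⟩, rfl⟩ ?_ ?_
  · obtain ⟨k, hk, γ', ⟨g, hg, rfl⟩, h2⟩ := key
    exact ⟨k, hk, g, hg, h2⟩
  · intro h1
    apply hne
    rw [Set.eq_univ_iff_forall]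
    intro x
    obtain ⟨y, hy, h2⟩ := (Set.eq_univ_iff_forall.1 h1) (lin A x)
    refine ⟨lin B y, hy, ?_⟩
    have h3 := congrArg (lin B) h2
    rw [hba1, lin_add, hba1] at h3
    exact h3
  · intro x hx
    have hx' : x i = z := hx
    obtain ⟨y, hy, h2⟩ := hsub (show lin A (lin B x) i = z by rw [hab1]; exact hx')
    refine ⟨lin A y, ?_, ?_⟩
    · show lin B (lin A y) ∈ B₀
      rw [hba1]
      exact hy
    · have h3 := congrArg (lin A) h2
      rw [hab1, lin_add] at h3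
      exact h3

end Pool.Agent.Helper62.RH.TRV
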