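import Pool.Agent.Helper62.RH.AsmV
import Pool.Agent.Helper62.RH.Cons
import Pool.Agent.Helper62.RH.SLC
import Pool.Agent.Helper62.RH.INT
import Pool.Agent.Helper62.RH.TOR
import Pool.Agent.Helper62.RH.IRR
import Pool.Agent.Helper62.RH.TRA
import Pool.Agent.Helper62.RH.HLB
import Pool.Agent.Helper62.RH.KRB
import Pool.Agent.Helper62.RH.PRM
import Pool.Agent.Helper62.RH.KDM
import Pool.Agent.Helper62.RH.EQU
import Pool.Agent.Helper62.RH.LAW
import Pool.Agent.Helper62.RH.RCO
import Pool.Agent.Helper62.RH.RAD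
import Pool.Agent.Helper62.RH.RLI
import Pool.Agent.Helper62.RH.CONT
import Pool.Agent.Helper62.RH.HOM
import Pool.Agent.Helper62.RH.HBV
import Pool.Agent.Helper62.RH.DGV
import Pool.Agent.Helper62.RH.EMV
import Pool.Agent.Helper62.RH.TRV
import Pool.Agent.Helper62.RH.EXT
import Pool.Agent.Helper62.RH.CLV

set_option autoImplicit false

/-!
# The modules together
-/

namespace Pool.Agent.Helper62.RH.All

open Pool.Agent.Helper62.RE

theorem key {a b : Qb} {n : ℕ} (hab : 4 * a ^ 3 + 27 * b ^ 2 ≠ 0) : Cons.Key a b n := by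
  have hSLC : S_SLC := SLC.main
  have hINT : S_INT := INT.main
  have hTOR : S_TOR := TOR.main
  have hIRR : S_IRR := IRR.main hSLC hINT hTOR
  have hTRA : S_TRA := TRA.main hSLC
  have hHLB : S_HLB := HLB.main
  have hKDM : S_KDM := KDM.main KRB.main PRM.main
  have hEQU : S_EQU := EQU.main hKDM hIRR hINT hTOR
  have hRLI : S_RLI := RLI.main RCO.main (RAD.main LAW.main)
  have hCON : S_CON := CON.main
  have hHOM : S_HOM := HOM.main
  have hDGV : S_DGV := DGV.main (HBV.main hRLI hCON hIRR hHLB)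
  have hEMV : S_EMV := EMV.main hRLI hCON hSLC hTOR
  have hTRV : S_TRV := TRV.main hRLI hCON hHOM hTRA
  have hCLV : S_CLV := CLV.main hRLI hCON
  intro Γ K ha hb hL v hv
  exact AsmV.small_form hRLI hCON hHOM hTOR hIRR hEMV hTRV hDGV hEQU hCLV EXT.main hab Γ K ha hb hL v hv

end Pool.Agent.Helper62.RH.All
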