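import Pool.Agent.Helper62.RE.Main

set_option autoImplicit false

/-!
# Lehmer groups in `E^n`, literal definition: definitions for the theorem on hypersurfaces

Lehmer groups `LehmerGroup`, `Saturated` (in `Pool/Agent/Helper62/RE/Main.lean`), the Néron-Tate height
`ht`, the rank `rk`, `FinRk`, `coordGroup`, `FGModTorsion` (in `Pool/Agent/Helper62/RE/Base.lean`) and
`K(Γ)`, `coordField` (in `Pool/Agent/Helper62/RE/EDefs.lean`) are as in the theorem on powers of elliptic
curves. Here `K` is any field of algebraic numbers containing `a` and `b`.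
-/

namespace Pool.Agent.Helper62.RH

open Pool.Agent.Helper62.RE
open scoped Classical

section generic

variable {M : Type} [AddCommGroup M] {n : ℕ}

/-- `z` has a positive multiple of the form `v_1 γ_1 + … + v_n γ_n` with `γ` in `Γ` -/
def InForm (Γ : AddSubgroup (Fin n → M)) (v : Fin n → ℤ) (z : M) : Prop :=
  ∃ m : ℕ, 0 < m ∧ ∃ γ ∈ Γ, m • z = ∑ i, v i • γ i

/-- all `v_1 γ_1 + … + v_n γ_n`, `γ` in `Γ`, are torsion -/
def TorsionForm (Γ : AddSubgroup (Fin n → M)) (v : Fin n → ℤ) : Prop :=
  ∀ γ ∈ Γ, ∃ m : ℕ, 0 < m ∧ m • ∑ i, v i • γ i = 0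

/-- the subgroup `D` of `M` is equal to its saturation -/
def Sat (D : AddSubgroup M) : Prop := ∀ (x : M) (m : ℕ), 0 < m → m • x ∈ D → x ∈ D

/-- the product of the groups `D i` -/
def prodGroup (D : Fin n → AddSubgroup M) : AddSubgroup (Fin n → M) where
  carrier := {x | ∀ i, x i ∈ D i}
  add_mem' := fun hx hy i => (D i).add_mem (hx i) (hy i)
  zero_mem' := fun i => (D i).zero_mem
  neg_mem' := fun hx i => (D i).neg_mem (hx i)

end generic

variable {a b : Qb} {n : ℕ}

/-- the degree of the point `z` over the field `L` -/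
noncomputable def degOver (L : IntermediateField ℚ Qb) (z : EPt a b) : ℕ :=
  Module.finrank L (IntermediateField.adjoin L (coords z))

/-- the points `z` of `E` for which the product of the degree over `K(Γ)` and of the height is
sufficiently small have positive multiples of the form `v_1 γ_1 + … + v_n γ_n` with `γ` in `Γ` -/
def SmallInForm (K : IntermediateField ℚ Qb) (Γ : AddSubgroup (Fin n → EPt a b)) (v : Fin n → ℤ) :
    Prop :=
  ∃ ε : ℝ, 0 < ε ∧ ∀ z : EPt a b, (degOver (coordField K Γ) z : ℝ) * ht z < ε → InForm Γ v z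

/-- `Γ` is not a Lehmer group over any field `K` of algebraic numbers containing `a` and `b` -/
def NeverLehmer (Γ : AddSubgroup (Fin n → EPt a b)) : Prop :=
  ∀ K : IntermediateField ℚ Qb, a ∈ K → b ∈ K → ¬ Main.LehmerGroup K Γ

end Pool.Agent.Helper62.RH
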