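import Pool.Agent.Helper62.RE.Main

set_option autoImplicit false

/-!
# Rémond's conjecture for `E^n`, literal definition: the hypersurfaces `x_i = z`. Module statements.

`E : y² = x³ + a x + b` over the algebraic numbers. If `Γ ⊆ E^n` is a Lehmer group (literally as in the
problem), the inequality for `V = {x | x_i = z}` gives: all `z` with `[K(Γ)(z) : K(Γ)] ht z < ε` have a
positive multiple in the `i`-th projection of `Γ`. Consequence: no group `Γ₁ × torsion × … × torsion`,
`Γ₁` saturated of positive rank, is a Lehmer group, for every elliptic curve `E` and every `n ≥ 2`.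

Useful lemmas: `Pool/Agent/Helper62/RE/Geo.lean` (closed sets, unions, points, `obstruction_le`,
`degree_nonneg`, `closedOver_of_stable`), `RE/FIN.lean`, `RE/Hts.lean`, `RE/DBL.lean`, `RE/HT2.lean`.
-/

namespace Pool.Agent.Helper62.RH

open Pool.Agent.Helper62.RE
open scoped Classical

/-- SLC: closed sets and lines. Proof of (1): substitute in the polynomials the homogeneous coordinates
of `y` for the three variables of index `j` (the degree in these variables becomes `0`). Of (2): if
some polynomial `f` of the system does not vanish at some point `update x j y₀`, then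
`f (x, …, (X, Y, Z), …)` is a homogeneous polynomial in three variables which does not vanish on all of
`E`, so it has finitely many zeros on `E`: see `theorem main : S_FIN` in RE/FIN.lean (the proof there
does not use that `B` is a subgroup; adapt it). -/
def S_SLC : Prop := ∀ (a b : Qb), 4 * a ^ 3 + 27 * b ^ 2 ≠ 0 → ∀ (n : ℕ)
  (A : Set (Fin n → EPt a b)), IsZClosed A → ∀ j : Fin n,
    (∀ y : EPt a b, IsZClosed {x : Fin n → EPt a b | Function.update x j y ∈ A}) ∧
    ∀ x : Fin n → EPt a b, {y : EPt a b | Function.update x j y ∈ A}.Finite ∨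
      ∀ y : EPt a b, Function.update x j y ∈ A

/-- INT: intersections of closed sets; the sets `x_i = z`; and pull-back by the `i`-th projection, also
over a field `L` (rename the variables `(0, l)` to `(i, l)`; degree `d 0` in the `i`-th triple and `0` in
the other triples). -/
def S_INT : Prop := ∀ (a b : Qb) (n : ℕ),
  (∀ (ι : Type) (A : ι → Set (Fin n → EPt a b)), (∀ k, IsZClosed (A k)) → IsZClosed (⋂ k, A k)) ∧
  (∀ (i : Fin n) (z : EPt a b), IsZClosed {x : Fin n → EPt a b | x i = z}) ∧
  ∀ (i : Fin n) (L : IntermediateField ℚ Qb) (Q : Set (Fin 1 → EPt a b)), IsClosedOver L Q →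
    IsClosedOver L {x : Fin n → EPt a b | (fun _ : Fin 1 => x i) ∈ Q}

/-- TOR: `E` has infinitely many torsion points. (Let `e` be a zero of `x³ + a x + b`; the point `(e, 0)`
has order two; halve it repeatedly, `DBL`: points `T_k` with `2 T_(k+1) = T_k` are distinct.) -/
def S_TOR : Prop := ∀ (a b : Qb), 4 * a ^ 3 + 27 * b ^ 2 ≠ 0 →
  {y : EPt a b | ∃ m : ℕ, 0 < m ∧ m • y = 0}.Infinite

/-- IRR: the sets obtained by fixing some coordinates are subvarieties, and `E^n` is one. Proof by
induction on `T`, the set of the free coordinates: if `V_T ⊆ A ∪ B` and `j ∈ T`, `T' = T \ {j}`, then for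
every `x ∈ V_T'` the line `{update x j y}` is contained in `A` or in `B`, by SLC (2) and since `E` is
infinite (TOR). So `V_T' ⊆ A_j ∪ B_j` where `A_j = ⋂_y {x | update x j y ∈ A}` is closed; by
induction `V_T' ⊆ A_j`, say, and then `V_T ⊆ A` (for `x ∈ V_T` take `x' = update x j (p j)`, in `V_T'`,
and `x = update x' j (x j)`). -/
def S_IRR : Prop := ∀ (a b : Qb), 4 * a ^ 3 + 27 * b ^ 2 ≠ 0 → ∀ (n : ℕ)
  (T : Finset (Fin n)) (p : Fin n → EPt a b),
    IsSubvariety {x : Fin n → EPt a b | ∀ i, i ∉ T → x i = p i}

/-- ESS: the essential minimum of `x_i = z` is at most `3 ht z`. Proof: let `W` be closed and contain all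
`x` with `x i = z` and `x j` torsion for `j ≠ i` (`hG x = 3 ht z` for them; the height of a torsion point
is `0`, see RE/Hts.lean `f_nsmul` with HT2). By induction on the finite set `T` of indices different from
`i`, `W` contains all `x` with `x i = z` and `x j` torsion for the `j ≠ i` not in `T`: SLC (2) and TOR. -/
def S_ESS : Prop := ∀ (a b : Qb), 4 * a ^ 3 + 27 * b ^ 2 ≠ 0 → ∀ (n : ℕ) (i : Fin n) (z : EPt a b),
  0 ≤ essMin {x : Fin n → EPt a b | x i = z} ∧
    essMin {x : Fin n → EPt a b | x i = z} ≤ 3 * ht z

/-- TRA: if `x_i = z` is contained in a proper torsion subvariety then `z` has a positive multiple in the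
`i`-th projection. Proof: let `{x | x i = z} ⊆ γ + B`. Differences: `B` contains all `x` with `x i = 0`,
and the element with `i`-th coordinate `z - γ i` and other coordinates `0`. Let `B_i` be the group of the
`t ∈ E` such that `update 0 i t ∈ B`; `x ∈ B` iff `x i ∈ B_i`. By SLC (2) `B_i` is finite or `E`, in the
second case `B` is everything and the torsion subvariety is not proper. If `B_i` is finite then
`z - γ i` is torsion. -/
def S_TRA : Prop := ∀ (a b : Qb), 4 * a ^ 3 + 27 * b ^ 2 ≠ 0 → ∀ (n : ℕ) (i : Fin n) (z : EPt a b)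
  (Γ : AddSubgroup (Fin n → EPt a b)) (T : Set (Fin n → EPt a b)), Main.TorsionVariety Γ T →
    T ≠ Set.univ → {x : Fin n → EPt a b | x i = z} ⊆ T → ∃ m : ℕ, 0 < m ∧ ∃ γ ∈ Γ, m • z = γ i

/-- HLB: the Hilbert function of `{x | x_i ∈ Q}`, `Q` a finite set, in `E^(n+1)`. Proof: modulo the
equation of the curve, homogeneous polynomials of degree `N` in `X, Y, Z` are combinations, as functions
of the coordinates `homog P`, of `X^u Y^v Z^w`, `u ≤ 2`, `u + v + w = N`, at most `3 (N + 1)` monomials
(`X³ = Y² Z - a X Z² - b Z³`). For each `q ∈ Q` the functions `value f` on the set `x_i = q` are combinations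
of products over `j ≠ i` of such monomials, at most `(3 (N + 1)) ^ n`, extended by `0` outside of
`x_i = q`. -/
def S_HLB : Prop := ∀ (a b : Qb) (n : ℕ) (i : Fin (n + 1)) (Q : Set (EPt a b)), Q.Finite → ∀ N : ℕ,
  hilb {x : Fin (n + 1) → EPt a b | x i ∈ Q} N ≤ Q.ncard * (3 * (N + 1)) ^ n

/-- DGR: the degree, from HLB: `(3 (N + 1)) ^ n ≤ (6 N) ^ n` for `N ≥ 1` (compare
`degree_le_of_finite` in RE/Geo.lean). -/
def S_DGR : Prop := ∀ (a b : Qb) (n : ℕ) (i : Fin (n + 1)) (Q : Set (EPt a b)), Q.Finite →
  degree {x : Fin (n + 1) → EPt a b | x i ∈ Q} n ≤ (Q.ncard : ℝ) * ((n.factorial : ℝ) * 6 ^ n)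

/-- KRB (rings only): Krull dimension of a ring integral over `Qb[s_1, …, s_n]`. (The polynomial ring in
`n` variables has dimension `n` in Mathlib; a quotient of it has dimension at most `n`; in an integral
extension a strict chain of primes contracts to a strict chain.) -/
def S_KRB : Prop := ∀ (n : ℕ) (R : Type) [CommRing R] [Algebra Qb R] (s : Fin n → R),
  (∀ r : R, IsIntegral (Algebra.adjoin Qb (Set.range s)) r) → ringKrullDim R ≤ (n : WithBot ℕ∞)

/-- the index of a nonvanishing homogeneous coordinate of `P` -/
noncomputable def chart {a b : Qb} (P : EPt a b) : Fin 3 := if P = 0 then 1 else 2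

/-- PRM: subvarieties through the point `P` and prime ideals. `I W` is the ideal of all polynomials `f`
which vanish at `(homog (x j) l / homog (x j) (chart (P j)))_(j, l)` for all `x ∈ W` such that all
`homog (x j) (chart (P j))` are not zero. It is prime: for `f` of total degree at most `D` the
homogenization (multiply each monomial, for each `j`, by the power of the variable `(j, chart (P j))`
which makes the degree in the `j`-th triple equal to `D`) has the value `f (…) ∏_j homog (x j) (chart (P
j)) ^ D`; if `f g ∈ I W`, then `W` is contained in the union of the zero sets of the homogenizations of `f`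
and `g` and of the variables `(j, chart (P j))`, the last ones do not contain `P ∈ W`. Strictness: some
multihomogeneous `f` vanishes on `W` and not on all of `W'`; if it would be in `I W'` then `W'` would be
contained in the union of the zero set of `f` and of these variables. -/
def S_PRM : Prop := ∀ (a b : Qb) (n : ℕ) (P : Fin n → EPt a b),
  ∃ I : Set (Fin n → EPt a b) → Ideal (MvPolynomial (Fin n × Fin 3) Qb),
    (∀ W, IsSubvariety W → P ∈ W → (I W).IsPrime) ∧
    (∀ W W', IsSubvariety W → IsSubvariety W' → P ∈ W → W ⊂ W' → I W' < I W) ∧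
    ∀ W f, f ∈ I W ↔ ∀ x ∈ W, (∀ j, homog (x j) (chart (P j)) ≠ 0) →
      MvPolynomial.eval (fun p : Fin n × Fin 3 => homog (x p.1) p.2 / homog (x p.1) (chart (P p.1))) f = 0

/-- KDM: the dimension of `x_i = z` in `E^(n+1)` is at most `n`. Proof from KRB and PRM: let
`W_0 < … < W_m` be a chain of subvarieties of `{x | x i = z}`, `P ∈ W_0`. All ideals `I (W_k)` contain the
ideal `J = I {x | x i = z}` of the polynomials which vanish at the normalized coordinates of all points with
`x i = z`. In the ring `R = polynomials / J` the images of the variables are integral over the algebra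
generated by `s_j`, `j ≠ i`, where `s_j` is the variable `(j, 0)` if `chart (P j) = 2` and `(j, 2)` if
`chart (P j) = 1`: the variable `(j, chart)` is `1`; if the chart is `2` the variable `(j, 1)` satisfies
`y² = s³ + a s + b`; if it is `1`, the variable `(j, 0)` satisfies `x³ + a x s² + b s³ - s = 0`; the
variables `(i, l)` are constants. So the chain has length at most `n`, by KRB. -/
def S_KDM : Prop := ∀ (a b : Qb), 4 * a ^ 3 + 27 * b ^ 2 ≠ 0 → ∀ (n : ℕ) (i : Fin (n + 1))
  (z : EPt a b), Order.krullDim {W : Set (Fin (n + 1) → EPt a b) // IsSubvariety W ∧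
    W ⊆ {x : Fin (n + 1) → EPt a b | x i = z}} ≤ (n : WithBot ℕ∞)

/-- EQU: `{x | x_i ∈ Q}`, `Q` finite, is equidimensional of dimension `n` in `E^(n+1)`. Proof from KDM,
IRR (and TOR for `E` has two points): the chain `V_T`, `T ⊆ {j ≠ i}` increasing, of IRR shows that the
dimension of `x_i = z` is at least `n`. A maximal subvariety `W` of `{x | x_i ∈ Q}` is contained in the
finite union of the closed sets `x_i = q`, so in one of them (induction on `Q`), and equal to it. -/
def S_EQU : Prop := ∀ (a b : Qb), 4 * a ^ 3 + 27 * b ^ 2 ≠ 0 → ∀ (n : ℕ) (i : Fin (n + 1))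
  (Q : Set (EPt a b)), Q.Finite → IsEquidim {x : Fin (n + 1) → EPt a b | x i ∈ Q} n

/-- RKR (groups only): the rank of the saturation of a group with a basis of `r` elements. -/
def S_RKR : Prop := ∀ (M : Type) [AddCommGroup M] (r : ℕ) (g : Fin r → M) (D : AddSubgroup M),
  (∀ c : Fin r → ℤ, ∑ j, c j • g j = 0 → c = 0) →
  (∀ x : M, x ∈ D ↔ ∃ m : ℕ, 0 < m ∧ m • x ∈ AddSubgroup.closure (Set.range g)) →
  FinRk D ∧ rk D = r

end Pool.Agent.Helper62.RH
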