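import Pool.Agent.Helper62.RE.Bridge
import Pool.Agent.Helper62.RH.Defs
import Pool.Agent.Helper62.RH.Stm

set_option autoImplicit false

/-!
# Consequences
-/

namespace Pool.Agent.Helper62.RH.Cor

open Pool.Agent.Helper62.RE Pool.Agent.Helper62.RE.Hts
open scoped Classical

variable {a b : Qb} {n : ℕ}

/-- the coordinates of the points of the coordinate group are in `K(Γ)` -/
lemma coords_mem {K : IntermediateField ℚ Qb} (ha : a ∈ K) (hb : b ∈ K)
    (Γ : AddSubgroup (Fin n → EPt a b)) {z : EPt a b} (hz : z ∈ coordGroup Γ) :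
    coords z ⊆ (coordField K Γ : Set Qb) := by
  have hKL : K ≤ coordField K Γ := le_sup_left
  obtain ⟨G, hG⟩ := Rat.exists_group (coordField K Γ) (hKL ha) (hKL hb)
  rw [← hG]
  have h1 : coordGroup Γ ≤ G := by
    unfold coordGroup
    rw [AddSubgroup.closure_le]
    rintro y ⟨g, hg, i, rfl⟩
    show g i ∈ G
    rw [hG]
    intro c hc
    have h2 : IntermediateField.adjoin ℚ {c | ∃ g ∈ Γ, ∃ i, c ∈ coords (g i)} ≤ coordField K Γ :=
      le_sup_right
    exact h2 (IntermediateField.subset_adjoin _ _ ⟨g, hg, i, hc⟩)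
  exact h1 hz

lemma deg_one {L : IntermediateField ℚ Qb} {z : EPt a b} (h : coords z ⊆ (L : Set Qb)) :
    degOver L z = 1 := by
  unfold degOver
  have h1 : IntermediateField.adjoin L (coords z) = ⊥ := by
    rw [IntermediateField.adjoin_eq_bot_iff]
    intro c hc
    rw [SetLike.mem_coe, IntermediateField.mem_bot]
    exact ⟨⟨c, h hc⟩, rfl⟩
  rw [h1]
  exact IntermediateField.finrank_bot

/-- halves in the coordinate group of a saturated group -/
lemma half (hab : 4 * a ^ 3 + 27 * b ^ 2 ≠ 0) {Γ : AddSubgroup (Fin n → EPt a b)}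
    (hsat : Main.Saturated Γ) {z : EPt a b} (hz : z ∈ coordGroup Γ) :
    ∃ y ∈ coordGroup Γ, 2 • y = z := by
  unfold coordGroup at hz
  induction hz using AddSubgroup.closure_induction with
  | mem x hx =>
    obtain ⟨g, hg, i, rfl⟩ := hx
    choose y hy using fun i => (DBL.main a b hab).1 (g i)
    have h : 2 • y = g := funext hy
    exact ⟨y i, AddSubgroup.subset_closure ⟨y, hsat y 2 two_pos (by rw [h]; exact hg), i, rfl⟩, hy i⟩
  | zero => exact ⟨0, zero_mem _, by rw [two_nsmul, add_zero]⟩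
  | add x y _ _ hx hy =>
    obtain ⟨x', hx', ex⟩ := hx
    obtain ⟨y', hy', ey⟩ := hy
    refine ⟨x' + y', add_mem hx' hy', ?_⟩
    rw [← ex, ← ey, two_nsmul, two_nsmul, two_nsmul]
    abel
  | neg x _ hx =>
    obtain ⟨x', hx', ex⟩ := hx
    refine ⟨-x', neg_mem hx', ?_⟩
    rw [← ex, two_nsmul, two_nsmul]
    abel

lemma half_pow (hab : 4 * a ^ 3 + 27 * b ^ 2 ≠ 0) {Γ : AddSubgroup (Fin n → EPt a b)}
    (hsat : Main.Saturated Γ) (k : ℕ) : ∀ z ∈ coordGroup Γ,
    ∃ y ∈ coordGroup Γ, (2 ^ k : ℕ) • y = z := by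
  induction k with
  | zero => exact fun z hz => ⟨z, hz, by rw [pow_zero, one_smul]⟩
  | succ k ih =>
    intro z hz
    obtain ⟨y, hy, e⟩ := half hab hsat hz
    obtain ⟨w, hw, e'⟩ := ih y hy
    exact ⟨w, hw, by rw [pow_succ', mul_smul, e', e]⟩

/-- a property of the form (small points have multiples in `S`) implies that all points of the coordinate
group of a saturated group have multiples in `S` -/
theorem sat_of_small (hab : 4 * a ^ 3 + 27 * b ^ 2 ≠ 0) {K : IntermediateField ℚ Qb} (ha : a ∈ K)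
    (hb : b ∈ K) {Γ : AddSubgroup (Fin n → EPt a b)} (hsat : Main.Saturated Γ)
    {S : EPt a b → Prop} (hS : ∀ (m : ℕ) (z : EPt a b), 0 < m → S z → S (m • z))
    (h : ∃ ε : ℝ, 0 < ε ∧ ∀ z : EPt a b, (degOver (coordField K Γ) z : ℝ) * ht z < ε →
      ∃ m : ℕ, 0 < m ∧ S (m • z)) : ∀ z ∈ coordGroup Γ, ∃ m : ℕ, 0 < m ∧ S (m • z) := by
  intro z hz
  obtain ⟨ε, hε, h⟩ := h
  obtain ⟨-, hpos, hpar⟩ := HT2.main a b hab
  obtain ⟨k, hk⟩ := pow_unbounded_of_one_lt (ht z / ε) (by norm_num : (1 : ℝ) < 4)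
  obtain ⟨y, hy, e⟩ := half_pow hab hsat k z hz
  have h1 : ht z = 4 ^ k * ht y := by
    rw [← e, f_nsmul hpar]
    congr 1
    push_cast
    rw [← pow_mul, mul_comm k 2, pow_mul]
    norm_num
  have h2 : ht y < ε := by
    rw [h1, div_lt_iff₀ hε] at hk
    have h4 : (0 : ℝ) < 4 ^ k := by positivity
    exact lt_of_mul_lt_mul_left hk h4.le
  obtain ⟨m, hm, hmy⟩ := h y (by
    rw [deg_one (coords_mem ha hb Γ hy), Nat.cast_one, one_mul]
    exact h2)
  refine ⟨m, hm, ?_⟩
  have h5 : m • z = (2 ^ k : ℕ) • (m • y) := by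
    rw [← e, ← mul_smul, ← mul_smul, mul_comm]
  rw [h5]
  exact hS _ _ (by positivity) hmy

end Pool.Agent.Helper62.RH.Cor
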