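import Pool.Agent.Helper62.RE.Main
import Pool.Agent.Helper62.RH.Stm

set_option autoImplicit false

/-!
# The hypersurfaces `v_1 x_1 + … + v_n x_n = z` of `E^n`, literal definition. Module statements.

Stronger form of project RH: with `A` in `GL(n, ℤ)` and `lin A x = (∑_l A_kl x_l)_k`, the hypersurface
`{x | (lin A x) i = z}` is used instead of `{x | x i = z}`. Result: no subgroup `Γ` of finite rank less
than `n` of `E^n` which is not finitely generated modulo torsion is a Lehmer group (literal definition).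
-/

namespace Pool.Agent.Helper62.RH

open Pool.Agent.Helper62.RE
open scoped Classical

/-- the complete addition law of the curve `y² = x³ + a x + b` (Renes, Costello, Batina) -/
def addLaw {R : Type} [CommRing R] (a b : R) (u v : Fin 3 → R) : Fin 3 → R :=
  ![(u 0 * v 1 + v 0 * u 1) * (u 1 * v 1 - a * (u 0 * v 2 + v 0 * u 2) - 3 * b * (u 2 * v 2)) -
      (u 1 * v 2 + v 1 * u 2) * (a * (u 0 * v 0) + 3 * b * (u 0 * v 2 + v 0 * u 2) -
        a ^ 2 * (u 2 * v 2)),
    (3 * (u 0 * v 0) + a * (u 2 * v 2)) * (a * (u 0 * v 0) + 3 * b * (u 0 * v 2 + v 0 * u 2) -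
        a ^ 2 * (u 2 * v 2)) +
      (u 1 * v 1 + a * (u 0 * v 2 + v 0 * u 2) + 3 * b * (u 2 * v 2)) *
        (u 1 * v 1 - a * (u 0 * v 2 + v 0 * u 2) - 3 * b * (u 2 * v 2)),
    (u 1 * v 2 + v 1 * u 2) * (u 1 * v 1 + a * (u 0 * v 2 + v 0 * u 2) + 3 * b * (u 2 * v 2)) +
      (u 0 * v 1 + v 0 * u 1) * (3 * (u 0 * v 0) + a * (u 2 * v 2))]

/-- LAW: the addition law gives a multiple (possibly `0`) of the homogeneous coordinates of `P + Q`, not `0`
if `P - Q` does not have order exactly two (checked numerically). Cases `P = 0` or `Q = 0`: direct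
(`x³ + a x + b = y²`). `P = Q`, `P = -Q`, and `x₁ ≠ x₂`: in the last case `r = Z₃ = ± (x₁ - x₂)³ y(P - Q)`,
`y(P - Q)` the second coordinate of `P - Q`. -/
def S_LAW : Prop := ∀ (a b : Qb), 4 * a ^ 3 + 27 * b ^ 2 ≠ 0 → ∀ P Q : EPt a b, ∃ r : Qb,
  (∀ l, addLaw a b (homog P) (homog Q) l = r * homog (P + Q) l) ∧
  (r = 0 → P ≠ Q ∧ 2 • (P - Q) = 0)

variable {a b : Qb} {n : ℕ}

/-- `g : E^n → E` is a regular map of degree `D`: for every point `y₀` there are multihomogeneous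
polynomials, of degree `D` in each triple, whose values are a multiple (possibly `0`) of the homogeneous
coordinates of `g y` for all `y`, and a nonzero multiple for `y₀` -/
def Reg (D : ℕ) (g : (Fin n → EPt a b) → EPt a b) : Prop :=
  ∀ y₀ : Fin n → EPt a b, ∃ (G : Fin 3 → MvPolynomial (Fin n × Fin 3) Qb)
    (r : (Fin n → EPt a b) → Qb), (∀ l, MultiHomog (G l) (fun _ => D)) ∧ r y₀ ≠ 0 ∧
      ∀ y l, value (G l) y = r y * homog (g y) l

/-- the linear map of `E^n` given by a matrix -/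
noncomputable def lin (A : Matrix (Fin n) (Fin n) ℤ) (x : Fin n → EPt a b) : Fin n → EPt a b :=
  fun k => ∑ l, A k l • x l

theorem lin_lin (A B : Matrix (Fin n) (Fin n) ℤ) (x : Fin n → EPt a b) :
    lin A (lin B x) = lin (A * B) x := by
  have h1 : ∀ (f : Fin n → ℤ) (P : EPt a b), (∑ j, f j) • P = ∑ j, f j • P :=
    fun f P => map_sum (zmultiplesHom (EPt a b) P) f Finset.univ
  have h2 : ∀ (m : ℤ) (f : Fin n → EPt a b), m • (∑ j, f j) = ∑ j, m • f j :=
    fun m f => Finset.smul_sum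
  have h3 : ∀ (m k : ℤ) (P : EPt a b), (m * k) • P = m • k • P := fun m k P => mul_smul m k P
  funext k
  unfold lin
  simp only [Matrix.mul_apply, h1, h2, h3]
  rw [Finset.sum_comm]

theorem lin_one (x : Fin n → EPt a b) : lin 1 x = x := by
  funext k
  unfold lin
  rw [Finset.sum_eq_single k]
  · rw [Matrix.one_apply_eq, one_zsmul]
  · intro l _ hl
    rw [Matrix.one_apply_ne (Ne.symm hl), zero_zsmul]
  · intro h
    exact absurd (Finset.mem_univ k) h

theorem lin_add (A : Matrix (Fin n) (Fin n) ℤ) (x y : Fin n → EPt a b) :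
    lin A (x + y) = lin A x + lin A y := by
  funext k
  unfold lin
  simp only [Pi.add_apply, zsmul_add, Finset.sum_add_distrib]

/-- RCO: constants, coordinates, negatives, larger degrees. (Multiply by the variables `(j, c)` with
`homog (y₀ j) c ≠ 0`. For the negative use `![G 0, -G 1, G 2]` and `r' y = - r y` if `g y = 0`.) -/
def S_RCO : Prop := ∀ (a b : Qb) (n : ℕ),
  (∀ (c : EPt a b) (D : ℕ), Reg (n := n) D fun _ => c) ∧
  (∀ (i : Fin n) (D : ℕ), 1 ≤ D → Reg (a := a) (b := b) D fun y => y i) ∧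
  (∀ (D : ℕ) (g : (Fin n → EPt a b) → EPt a b), Reg D g → Reg D fun y => - g y) ∧
  (∀ (D D' : ℕ) (g : (Fin n → EPt a b) → EPt a b), D ≤ D' → Reg D g → Reg D' g)

/-- RAD: sums of regular maps. Let `y₀` be given, `P₀ = g₁ y₀`, `Q₀ = g₂ y₀`. `E` is infinite and has
finitely many points `T` with `2 T = 0` and finitely many halves of each point (`DBL`), so there is
`c ∈ E` such that `P₀ - c`, `Q₀ + c`, `(P₀ + c) - (Q₀ - c)` do not have order two. Use
`addLaw (addLaw (G₁, homog c), addLaw (G₂, homog (-c)))`. -/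
def S_RAD : Prop := ∀ (a b : Qb), 4 * a ^ 3 + 27 * b ^ 2 ≠ 0 → ∀ (n D₁ D₂ : ℕ)
  (g₁ g₂ : (Fin n → EPt a b) → EPt a b), Reg D₁ g₁ → Reg D₂ g₂ →
    Reg (4 * (D₁ + D₂)) fun y => g₁ y + g₂ y

/-- RLI: linear forms, with a degree independent of the row. -/
def S_RLI : Prop := ∀ (a b : Qb), 4 * a ^ 3 + 27 * b ^ 2 ≠ 0 → ∀ (n : ℕ)
  (A : Matrix (Fin n) (Fin n) ℤ), ∃ D : ℕ, ∀ k, Reg (a := a) (b := b) D fun y => lin A y k

/-- CON: regular maps are continuous. Let `W` be the zero set of `S`. For `f ∈ S` of multidegree `d` and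
`y₀`, with `G_k`, `r_k` for the `k`-th coordinate at `y₀`, the polynomial `F = f (G)` is multihomogeneous
and `value F y = (∏_k r_k y ^ d_k) * value f (ψ y)`. The set is the zero set of all these `F`. -/
def S_CON : Prop := ∀ (a b : Qb) (n D : ℕ) (ψ : (Fin n → EPt a b) → Fin n → EPt a b),
  (∀ k, Reg D fun y => ψ y k) → ∀ W : Set (Fin n → EPt a b), IsZClosed W → IsZClosed (ψ ⁻¹' W)

/-- HOM: transfer by homeomorphisms (formal). -/
def S_HOM : Prop := ∀ (a b : Qb) (n : ℕ) (ψ φ : (Fin n → EPt a b) → Fin n → EPt a b),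
  (∀ x, φ (ψ x) = x) → (∀ x, ψ (φ x) = x) →
  (∀ W : Set (Fin n → EPt a b), IsZClosed W → IsZClosed (ψ ⁻¹' W)) →
  (∀ W : Set (Fin n → EPt a b), IsZClosed W → IsZClosed (φ ⁻¹' W)) →
  (∀ V : Set (Fin n → EPt a b), IsSubvariety V → IsSubvariety (ψ ⁻¹' V)) ∧
  ∀ (Z : Set (Fin n → EPt a b)) (d : ℕ), IsEquidim Z d → IsEquidim (ψ ⁻¹' Z) d

/-- HBV: the Hilbert function of `{x | (lin A x) i ∈ Q}`, `A B = B A = 1`. Proof: this set is the union of
the `X_q = {x | (lin A x) i = q} = lin B (Y_q)`, `Y_q = {y | y i = q}`. Fix `q` and `y₀ ∈ Y_q`; let `G_k`,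
`r_k` be as in `Reg D` for `y ↦ lin B y k` at `y₀`. For `f` of degree `N` in each triple
`F = f (G)` has degree `(n + 1) N D` in each triple and `value F y = (∏_k r_k y) ^ N * value f (lin B y)`. If
`F` vanishes on `Y_q`, then `Y_q` is contained in the union of the closed set `{y | value f (lin B y) = 0}`
(CON) and of the closed sets `{y | ∀ l, value (G_k l) y = 0}`, which do not contain `y₀`; so `f` vanishes
on `X_q` (IRR: `Y_q` is irreducible). So the space of the functions `f` on `X_q` has dimension at most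
`hilb Y_q ((n + 1) N D) ≤ (3 ((n + 1) N D + 1)) ^ n` (HLB for `{q}`). Sum over `q ∈ Q`. -/
def S_HBV : Prop := ∀ (a b : Qb), 4 * a ^ 3 + 27 * b ^ 2 ≠ 0 → ∀ (n : ℕ) (i : Fin (n + 1))
  (A B : Matrix (Fin (n + 1)) (Fin (n + 1)) ℤ), A * B = 1 → B * A = 1 → ∃ D : ℕ,
  ∀ Q : Set (EPt a b), Q.Finite → ∀ N : ℕ,
    hilb {x : Fin (n + 1) → EPt a b | lin A x i ∈ Q} N ≤ Q.ncard * (3 * ((n + 1) * N * D + 1)) ^ n

/-- DGV: the degree, from HBV. -/
def S_DGV : Prop := ∀ (a b : Qb), 4 * a ^ 3 + 27 * b ^ 2 ≠ 0 → ∀ (n : ℕ) (i : Fin (n + 1))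
  (A B : Matrix (Fin (n + 1)) (Fin (n + 1)) ℤ), A * B = 1 → B * A = 1 → ∃ C : ℝ, 0 < C ∧
  ∀ Q : Set (EPt a b), Q.Finite →
    degree {x : Fin (n + 1) → EPt a b | lin A x i ∈ Q} n ≤ (Q.ncard : ℝ) * C

/-- EMV: the essential minimum. Let `W` be closed and contain `lin B y` for all `y` with `y i = z` and
`y j` torsion for `j ≠ i`. The set `{y | lin B y ∈ W}` is closed (CON), so it contains all `y` with
`y i = z` (proof of ESS); the height of `∑_l B_kl y_l` is `B_ki ^ 2 ht z`, as adding a torsion point does not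
change the height (`m (P + T) = m P`, RE/Hts.lean `f_nsmul`). -/
def S_EMV : Prop := ∀ (a b : Qb), 4 * a ^ 3 + 27 * b ^ 2 ≠ 0 → ∀ (n : ℕ) (i : Fin n)
  (A B : Matrix (Fin n) (Fin n) ℤ), A * B = 1 → B * A = 1 → ∃ C : ℝ, 0 < C ∧ ∀ z : EPt a b,
    0 ≤ essMin {x : Fin n → EPt a b | lin A x i = z} ∧
      essMin {x : Fin n → EPt a b | lin A x i = z} ≤ C * ht z

/-- TRV: transversality, from TRA applied to `Γ' = lin A (Γ)` and `T' = lin A (T) = {y | lin B y ∈ T}` (by
CON and HOM the image of the subvariety `B₀` in the torsion variety `T = γ + B₀` is a subvariety). -/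
def S_TRV : Prop := ∀ (a b : Qb), 4 * a ^ 3 + 27 * b ^ 2 ≠ 0 → ∀ (n : ℕ) (i : Fin n)
  (A B : Matrix (Fin n) (Fin n) ℤ), A * B = 1 → B * A = 1 → ∀ (z : EPt a b)
  (Γ : AddSubgroup (Fin n → EPt a b)) (T : Set (Fin n → EPt a b)), Main.TorsionVariety Γ T →
    T ≠ Set.univ → {x : Fin n → EPt a b | lin A x i = z} ⊆ T →
      ∃ m : ℕ, 0 < m ∧ ∃ γ ∈ Γ, m • z = lin A γ i

/-- EXT (integers only): every nonzero integral vector is a multiple of the first row of a unimodular
matrix. (Induction with elementary operations and Euclid, or Smith normal form.) -/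
def S_EXT : Prop := ∀ (n : ℕ) (v : Fin (n + 1) → ℤ), v ≠ 0 → ∃ (d : ℕ)
  (A B : Matrix (Fin (n + 1)) (Fin (n + 1)) ℤ), 0 < d ∧ A * B = 1 ∧ B * A = 1 ∧
    ∀ l, v l = d * A 0 l

/-- CLV: the hypersurfaces are defined over `L`: `{x | lin A x i ∈ Q}` is closed by CON, and stable under
the automorphisms over `L` (which commute with `lin A`, see `DEG.act`); use `closedOver_of_stable`
(RE/Geo.lean) with `DSC.main`. -/
def S_CLV : Prop := ∀ (a b : Qb), 4 * a ^ 3 + 27 * b ^ 2 ≠ 0 → ∀ (n : ℕ) (i : Fin n)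
  (A : Matrix (Fin n) (Fin n) ℤ) (L : IntermediateField ℚ Qb), a ∈ L → b ∈ L →
  ∀ Q : Set (EPt a b), Q.Finite →
    (∀ σ : Qb ≃ₐ[L] Qb, ∀ q ∈ Q, ∃ q' ∈ Q, ∀ j, homog q' j = σ (homog q j)) →
    IsClosedOver L {x : Fin n → EPt a b | lin A x i ∈ Q}

end Pool.Agent.Helper62.RH
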