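import Pool.Agent.Helper62.RE.Bridge
import Pool.Agent.Helper62.RH.Stm2
import Pool.Agent.Helper62.RH.Cor

set_option autoImplicit false

/-!
# Rémond's conjecture for `E^n`, literal definition: assembly, hypersurfaces `v_1 x_1 + … + v_n x_n = z`
-/

namespace Pool.Agent.Helper62.RH.AsmV

open Pool.Agent.Helper62.RE
open scoped Classical

variable {a b : Qb} {n : ℕ}

/-- the orbit of `z` over `L` -/
lemma orbit {L : IntermediateField ℚ Qb} (ha : a ∈ L) (hb : b ∈ L)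
    (z : EPt a b) : ∃ Q : Set (EPt a b), Q.Finite ∧ z ∈ Q ∧ Q.ncard ≤ degOver L z ∧
      ∀ σ : Qb ≃ₐ[L] Qb, ∀ q ∈ Q, ∃ q' ∈ Q, ∀ j, homog q' j = σ (homog q j) := by
  obtain ⟨Z, hZ, hzZ, hcard, hst⟩ := ORB.main a b 1 L ha hb (fun _ => z)
  have hinj : Function.Injective (fun (q : EPt a b) (_ : Fin 1) => q) := fun p q h => congrFun h 0
  refine ⟨{q | (fun _ => q) ∈ Z}, ?_, hzZ, ?_, ?_⟩
  · exact hZ.preimage hinj.injOn
  · have h1 : (⋃ i : Fin 1, coords ((fun _ : Fin 1 => z) i)) = coords z := by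
      ext c
      simp
    rw [h1] at hcard
    refine le_trans ?_ hcard
    exact Set.ncard_le_ncard_of_injOn (fun (q : EPt a b) (_ : Fin 1) => q) (fun q hq => hq)
      hinj.injOn hZ
  · intro σ q hq
    obtain ⟨q', hq', h⟩ := hst σ _ hq
    refine ⟨q' 0, ?_, fun j => h 0 j⟩
    have : (fun _ => q' 0) = q' := by
      funext k
      rw [Subsingleton.elim k 0]
    show (fun _ => q' 0) ∈ Z
    rw [this]
    exact hq'

lemma infinite_E (hab : 4 * a ^ 3 + 27 * b ^ 2 ≠ 0) (hT : S_TOR) : Infinite (EPt a b) :=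
  Set.infinite_univ_iff.1 ((hT a b hab).mono (Set.subset_univ _))

/-- the set `x_i = z` is a subvariety -/
lemma sub_z (hab : 4 * a ^ 3 + 27 * b ^ 2 ≠ 0) (hR : S_IRR) (i : Fin n) (z : EPt a b) :
    IsSubvariety {x : Fin n → EPt a b | x i = z} := by
  have h := hR a b hab n (Finset.univ.erase i) (fun _ => z)
  have e : {x : Fin n → EPt a b | ∀ j, j ∉ Finset.univ.erase i → x j = z} =
      {x : Fin n → EPt a b | x i = z} := by
    ext x
    simp only [Set.mem_ofPred_eq, Finset.mem_erase, Finset.mem_univ, and_true, not_not]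
    exact ⟨fun h => h i rfl, fun h j hj => hj ▸ h⟩
  rw [← e]
  exact h

lemma ne_univ (hab : 4 * a ^ 3 + 27 * b ^ 2 ≠ 0) (hT : S_TOR) (i : Fin n)
    {A B : Matrix (Fin n) (Fin n) ℤ} (hAB : A * B = 1) {Q : Set (EPt a b)}
    (hQ : Q.Finite) : {x : Fin n → EPt a b | lin A x i ∈ Q} ≠ Set.univ := by
  intro h
  have hinf := infinite_E hab hT
  obtain ⟨y, hy⟩ := hQ.infinite_compl.nonempty
  have h1 : lin B (fun _ => y) ∈ {x : Fin n → EPt a b | lin A x i ∈ Q} := by rw [h]; trivial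
  have h2 : lin A (lin B (fun _ => y)) i ∈ Q := h1
  rw [lin_lin, hAB, lin_one] at h2
  exact hy h2

/-- the inequality for the hypersurface `(lin A x)_i = z` -/
theorem key (hRL : S_RLI) (hCo : S_CON) (hH : S_HOM) (hT : S_TOR) (hR : S_IRR) (hE : S_EMV)
    (hV : S_TRV) (hD : S_DGV) (hQ : S_EQU) (hC : S_CLV) (hab : 4 * a ^ 3 + 27 * b ^ 2 ≠ 0)
    (Γ : AddSubgroup (Fin (n + 1) → EPt a b))
    (K : IntermediateField ℚ Qb) (ha : a ∈ K) (hb : b ∈ K) (h : Main.LehmerGroup K Γ)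
    (i : Fin (n + 1)) (A B : Matrix (Fin (n + 1)) (Fin (n + 1)) ℤ) (hAB : A * B = 1)
    (hBA : B * A = 1) : ∃ ε : ℝ, 0 < ε ∧ ∀ z : EPt a b,
      (degOver (coordField K Γ) z : ℝ) * ht z < ε → ∃ m : ℕ, 0 < m ∧ ∃ γ ∈ Γ, m • z = lin A γ i := by
  obtain ⟨c, hc, hL⟩ := h
  obtain ⟨C, hC0, hDeg⟩ := hD a b hab n i A B hAB hBA
  obtain ⟨C', hC0', hEss⟩ := hE a b hab (n + 1) i A B hAB hBA
  obtain ⟨DA, hDA⟩ := hRL a b hab (n + 1) A
  obtain ⟨DB, hDB⟩ := hRL a b hab (n + 1) B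
  have hcA := hCo a b (n + 1) DA (fun y => lin A y) hDA
  have hcB := hCo a b (n + 1) DB (fun y => lin B y) hDB
  obtain ⟨hSub, hEq⟩ := hH a b (n + 1) (fun y => lin A y) (fun y => lin B y)
    (fun x => by show lin B (lin A x) = x; rw [lin_lin, hBA, lin_one])
    (fun x => by show lin A (lin B x) = x; rw [lin_lin, hAB, lin_one]) hcA hcB
  refine ⟨c / (C * C'), by positivity, fun z hz => ?_⟩
  by_contra hcon
  have hKL : K ≤ coordField K Γ := le_sup_left
  obtain ⟨Q, hQf, hzQ, hcard, hst⟩ := orbit (hKL ha) (hKL hb) z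
  have h1 := hL {x | lin A x i = z} (hSub _ (sub_z hab hR i z)) (by
    have := ne_univ (n := n + 1) hab hT i hAB (Set.finite_singleton z)
    simpa using this) (fun T hTV hTu hsub => hcon
      (hV a b hab (n + 1) i A B hAB hBA z Γ T hTV hTu hsub))
  obtain ⟨e0, e1⟩ := hEss z
  have h2 : obstruction (coordField K Γ) {x : Fin (n + 1) → EPt a b | lin A x i = z} ≤
      degree {x : Fin (n + 1) → EPt a b | lin A x i ∈ Q} n := by
    unfold obstruction
    apply csInf_le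
    · refine ⟨0, ?_⟩
      rintro w ⟨Z, d, _, _, _, _, rfl⟩
      exact Real.rpow_nonneg (degree_nonneg Z d) _
    · refine ⟨{x : Fin (n + 1) → EPt a b | lin A x i ∈ Q}, n, ne_univ hab hT i hAB hQf,
        hC a b hab (n + 1) i A _ (hKL ha) (hKL hb) Q hQf hst,
        hEq _ n (hQ a b hab n i Q hQf), fun x hx => ?_, ?_⟩
      · have hx' : lin A x i = z := hx
        show lin A x i ∈ Q
        rw [hx']
        exact hzQ
      · have : (1 : ℝ) / (((n + 1 : ℕ) : ℝ) - (n : ℝ)) = 1 := by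
          push_cast
          rw [add_sub_cancel_left, div_one]
        rw [this, Real.rpow_one]
  have h3 := hDeg Q hQf
  have h4 : ((Q.ncard : ℕ) : ℝ) * C ≤ (degOver (coordField K Γ) z : ℝ) * C :=
    mul_le_mul_of_nonneg_right (by exact_mod_cast hcard) hC0.le
  have h5 := mul_le_mul (h2.trans (h3.trans h4)) e1 e0 (by positivity)
  have h6 := h1.trans h5
  rw [lt_div_iff₀ (by positivity)] at hz
  nlinarith

/-- small points have multiples in the image of `Γ` by a linear form -/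
theorem small_form (hRL : S_RLI) (hCo : S_CON) (hH : S_HOM) (hT : S_TOR) (hR : S_IRR) (hE : S_EMV)
    (hV : S_TRV) (hD : S_DGV) (hQ : S_EQU) (hC : S_CLV) (hX : S_EXT)
    (hab : 4 * a ^ 3 + 27 * b ^ 2 ≠ 0) (Γ : AddSubgroup (Fin n → EPt a b))
    (K : IntermediateField ℚ Qb) (ha : a ∈ K) (hb : b ∈ K) (h : Main.LehmerGroup K Γ)
    (v : Fin n → ℤ) (hv : v ≠ 0) : ∃ ε : ℝ, 0 < ε ∧ ∀ z : EPt a b,
      (degOver (coordField K Γ) z : ℝ) * ht z < ε →
        ∃ m : ℕ, 0 < m ∧ ∃ γ ∈ Γ, m • z = ∑ i, v i • γ i := by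
  rcases n with _ | n
  · exact absurd (Subsingleton.elim v 0) hv
  obtain ⟨d, A, B, hd, hAB, hBA, hvA⟩ := hX n v hv
  obtain ⟨ε, hε, h1⟩ := key hRL hCo hH hT hR hE hV hD hQ hC hab Γ K ha hb h 0 A B hAB hBA
  refine ⟨ε, hε, fun z hz => ?_⟩
  obtain ⟨m, hm, γ, hγ, e⟩ := h1 z hz
  refine ⟨d * m, by positivity, γ, hγ, ?_⟩
  rw [mul_smul, e]
  unfold lin
  rw [Finset.smul_sum]
  refine Finset.sum_congr rfl fun l _ => ?_
  rw [hvA, mul_smul, natCast_zsmul]

end Pool.Agent.Helper62.RH.AsmV
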