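import Pool.Agent.Helper62.RH.Stm

set_option autoImplicit false

/-! The degree of `{x | x_i ∈ Q}` (module DGR). -/

namespace Pool.Agent.Helper62.RH.DGR

open Pool.Agent.Helper62.RE Pool.Agent.Helper62.RH
open scoped Classical

theorem main (h : S_HLB) : S_DGR := by
  intro a b n i Q hQ
  unfold degree
  refine Filter.limsup_le_of_le ?_ ?_
  · refine Filter.isCoboundedUnder_le_of_le Filter.atTop (x := 0) fun N => ?_
    positivity
  · filter_upwards [Filter.eventually_ge_atTop 1] with N hN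
    have h1 := h a b n i Q hQ N
    have hN0 : (0 : ℝ) < (N : ℝ) ^ n := by
      have : (0 : ℝ) < N := by exact_mod_cast hN
      positivity
    rw [div_le_iff₀ hN0]
    have h2 : (hilb {x : Fin (n + 1) → EPt a b | x i ∈ Q} N : ℝ) ≤
        (Q.ncard : ℝ) * (3 * ((N : ℝ) + 1)) ^ n := by exact_mod_cast h1
    have h3 : (3 * ((N : ℝ) + 1)) ^ n ≤ 6 ^ n * (N : ℝ) ^ n := by
      rw [← mul_pow]
      have : (1 : ℝ) ≤ N := by exact_mod_cast hN
      exact pow_le_pow_left₀ (by positivity) (by linarith) n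
    calc (n.factorial : ℝ) * (hilb {x : Fin (n + 1) → EPt a b | x i ∈ Q} N : ℝ)
        ≤ (n.factorial : ℝ) * ((Q.ncard : ℝ) * (6 ^ n * (N : ℝ) ^ n)) := by
          refine mul_le_mul_of_nonneg_left (h2.trans ?_) (by positivity)
          exact mul_le_mul_of_nonneg_left h3 (by positivity)
      _ = (Q.ncard : ℝ) * ((n.factorial : ℝ) * 6 ^ n) * (N : ℝ) ^ n := by ring

end Pool.Agent.Helper62.RH.DGR
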