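import Pool.Agent.Helper62.RH.Stm
import Pool.Agent.Helper62.RE.Geo
import Pool.Agent.Helper62.RE.Hts
import Pool.Agent.Helper62.RE.HT2

set_option autoImplicit false

/-! Module ESS (helper23): the essential minimum of `x_i = z`. -/

namespace Pool.Agent.Helper62.RH.ESS

open Pool.Agent.Helper62.RE
open scoped Classical

lemma ht_torsion {a b : Qb} (hab : 4 * a ^ 3 + 27 * b ^ 2 ≠ 0) (y : EPt a b) (m : ℕ) (hm : 0 < m)
    (h : m • y = 0) : ht y = 0 := by
  obtain ⟨_, h2, h3⟩ := HT2.main a b hab
  have e1 := Hts.f_nsmul h3 y m
  rw [h, Hts.f_zero h3] at e1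
  have h4 : ((m : ℝ) ^ 2) ≠ 0 := by positivity
  exact (mul_eq_zero.1 e1.symm).resolve_left h4

theorem main (hS : S_SLC) (hT : S_TOR) : S_ESS := by
  intro a b hab n i z
  obtain ⟨_, hnn, hpar⟩ := HT2.main a b hab
  have hpos : ∀ θ ∈ {θ : ℝ | ∀ W : Set (Fin n → EPt a b), IsZClosed W →
      {x | x ∈ {x : Fin n → EPt a b | x i = z} ∧ hG x ≤ θ} ⊆ W →
        {x : Fin n → EPt a b | x i = z} ⊆ W}, 0 ≤ θ := by
    intro θ hθ
    by_contra hcon
    rw [not_le] at hcon
    have h1 := hθ ∅ isZClosed_empty (by
      rintro x ⟨_, hx⟩
      have h2 : 0 ≤ hG x := by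
        unfold hG
        have h3 : 0 ≤ ∑ j, ht (x j) := Finset.sum_nonneg (fun j _ => hnn (x j))
        linarith
      exfalso
      linarith)
    exact h1 (show (fun _ : Fin n => z) ∈ {x : Fin n → EPt a b | x i = z} from rfl)
  constructor
  · unfold essMin
    exact Real.sInf_nonneg hpos
  · unfold essMin
    refine csInf_le ⟨0, fun θ hθ => hpos θ hθ⟩ ?_
    intro W hW hsub
    have key : ∀ T : Finset (Fin n), i ∉ T → ∀ x : Fin n → EPt a b, x i = z →
        (∀ j, j ≠ i → j ∉ T → ∃ m : ℕ, 0 < m ∧ m • x j = 0) → x ∈ W := by
      intro T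
      induction T using Finset.induction_on with
      | empty =>
        intro _ x hx htor
        refine hsub ⟨hx, ?_⟩
        have h1 : ∑ j, ht (x j) = ht z := by
          rw [Finset.sum_eq_single i, hx]
          · intro j _ hj
            obtain ⟨m, hm, h2⟩ := htor j hj (Finset.notMem_empty j)
            exact ht_torsion hab _ m hm h2
          · intro h
            exact absurd (Finset.mem_univ i) h
        unfold hG
        rw [h1]
      | insert j T hj ih =>
        intro hi x hx htor
        rw [Finset.mem_insert, not_or] at hi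
        have hline : ∀ y : EPt a b, (∃ m : ℕ, 0 < m ∧ m • y = 0) → Function.update x j y ∈ W := by
          intro y hy
          refine ih hi.2 _ ?_ ?_
          · rw [Function.update_of_ne hi.1, hx]
          · intro k hk hkT
            by_cases hkj : k = j
            · subst hkj
              rw [Function.update_self]
              exact hy
            · rw [Function.update_of_ne hkj]
              refine htor k hk ?_
              rw [Finset.mem_insert, not_or]
              exact ⟨hkj, hkT⟩
        rcases (hS a b hab n W hW j).2 x with h1 | h1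
        · exact absurd (h1.subset (fun y hy => hline y hy)) (hT a b hab)
        · have h2 := h1 (x j)
          rwa [Function.update_eq_self] at h2
    intro x hx
    refine key (Finset.univ.erase i) (Finset.notMem_erase i _) x hx ?_
    intro j hj hj2
    exact absurd (Finset.mem_erase.2 ⟨hj, Finset.mem_univ j⟩) hj2

end Pool.Agent.Helper62.RH.ESS
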