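import Pool.Agent.Helper62.RH.Stm2
import Pool.Agent.Helper62.RH.RCO
import Pool.Agent.Helper62.RH.TOR
import Pool.Agent.Helper62.RE.DBL

set_option autoImplicit false

namespace Pool.Agent.Helper62.RH.RAD

open Pool.Agent.Helper62.RE Pool.Agent.Helper62.RH MvPolynomial
open scoped Classical

variable {a b : Qb} {n : ℕ}

theorem addLaw_map {R S : Type} [CommRing R] [CommRing S] (φ : R →+* S) (a b : R) (u v : Fin 3 → R)
    (l : Fin 3) : φ (addLaw a b u v l) = addLaw (φ a) (φ b) (fun i => φ (u i)) (fun i => φ (v i)) l := by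
  have h3 : φ 3 = 3 := map_ofNat φ 3
  fin_cases l <;> simp [addLaw, h3]

theorem addLaw_scale {R : Type} [CommRing R] (a b r s : R) (u v : Fin 3 → R)
    (l : Fin 3) : addLaw a b (fun i => r * u i) (fun i => s * v i) l =
      r ^ 2 * s ^ 2 * addLaw a b u v l := by
  fin_cases l <;> simp [addLaw] <;> ring

theorem mh_add {f g : MvPolynomial (Fin n × Fin 3) Qb} {D : ℕ} (hf : MultiHomog f fun _ => D)
    (hg : MultiHomog g fun _ => D) : MultiHomog (f + g) fun _ => D :=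
  fun i => (hf i).add (hg i)

theorem mh_sub {f g : MvPolynomial (Fin n × Fin 3) Qb} {D : ℕ} (hf : MultiHomog f fun _ => D)
    (hg : MultiHomog g fun _ => D) : MultiHomog (f - g) fun _ => D := by
  intro i
  rw [sub_eq_add_neg]
  refine (hf i).add ?_
  have h := (RCO.mh_mul (RCO.mh_C (n := n) (-1)) hg) i
  simpa using h

theorem mh_mul' {f g : MvPolynomial (Fin n × Fin 3) Qb} {D E F : ℕ} (hf : MultiHomog f fun _ => D)
    (hg : MultiHomog g fun _ => E) (h : D + E = F) : MultiHomog (f * g) fun _ => F := by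
  subst h
  exact RCO.mh_mul hf hg

theorem mh_cmul (c : Qb) {f : MvPolynomial (Fin n × Fin 3) Qb} {D : ℕ}
    (hf : MultiHomog f fun _ => D) : MultiHomog (C c * f) fun _ => D :=
  mh_mul' (RCO.mh_C c) hf (Nat.zero_add D)

theorem three_C : (3 : MvPolynomial (Fin n × Fin 3) Qb) = C 3 := by
  rw [map_ofNat]

theorem mh_law {U V : Fin 3 → MvPolynomial (Fin n × Fin 3) Qb} {D E : ℕ}
    (hU : ∀ l, MultiHomog (U l) fun _ => D) (hV : ∀ l, MultiHomog (V l) fun _ => E) (l : Fin 3) :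
    MultiHomog (addLaw (C a) (C b) U V l) fun _ => 2 * (D + E) := by
  have p : ∀ i j, MultiHomog (U i * V j) fun _ => D + E := fun i j => mh_mul' (hU i) (hV j) rfl
  have p' : ∀ i j, MultiHomog (V i * U j) fun _ => D + E :=
    fun i j => mh_mul' (hV i) (hU j) (Nat.add_comm _ _)
  have q : ∀ {f g : MvPolynomial (Fin n × Fin 3) Qb}, (MultiHomog f fun _ => D + E) →
      (MultiHomog g fun _ => D + E) → MultiHomog (f * g) fun _ => 2 * (D + E) :=
    fun hf hg => mh_mul' hf hg (two_mul _).symm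
  have k3 : ∀ {f : MvPolynomial (Fin n × Fin 3) Qb}, (MultiHomog f fun _ => D + E) →
      MultiHomog (3 * f) fun _ => D + E := fun hf => by rw [three_C]; exact mh_cmul 3 hf
  have k3b : ∀ {f : MvPolynomial (Fin n × Fin 3) Qb}, (MultiHomog f fun _ => D + E) →
      MultiHomog (3 * C b * f) fun _ => D + E := fun hf => by
    rw [three_C, ← C_mul]; exact mh_cmul _ hf
  have ka2 : ∀ {f : MvPolynomial (Fin n × Fin 3) Qb}, (MultiHomog f fun _ => D + E) →
      MultiHomog (C a ^ 2 * f) fun _ => D + E := fun hf => by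
    rw [← C_pow]; exact mh_cmul _ hf
  have w : MultiHomog (U 0 * V 2 + V 0 * U 2) fun _ => D + E := mh_add (p 0 2) (p' 0 2)
  have t : MultiHomog (C a * (U 0 * V 0) + 3 * C b * (U 0 * V 2 + V 0 * U 2) -
      C a ^ 2 * (U 2 * V 2)) fun _ => D + E :=
    mh_sub (mh_add (mh_cmul a (p 0 0)) (k3b w)) (ka2 (p 2 2))
  have s1 : MultiHomog (U 1 * V 1 - C a * (U 0 * V 2 + V 0 * U 2) - 3 * C b * (U 2 * V 2))
      fun _ => D + E := mh_sub (mh_sub (p 1 1) (mh_cmul a w)) (k3b (p 2 2))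
  have s2 : MultiHomog (U 1 * V 1 + C a * (U 0 * V 2 + V 0 * U 2) + 3 * C b * (U 2 * V 2))
      fun _ => D + E := mh_add (mh_add (p 1 1) (mh_cmul a w)) (k3b (p 2 2))
  have m : MultiHomog (3 * (U 0 * V 0) + C a * (U 2 * V 2)) fun _ => D + E :=
    mh_add (k3 (p 0 0)) (mh_cmul a (p 2 2))
  have e1 : MultiHomog (U 0 * V 1 + V 0 * U 1) fun _ => D + E := mh_add (p 0 1) (p' 0 1)
  have e2 : MultiHomog (U 1 * V 2 + V 1 * U 2) fun _ => D + E := mh_add (p 1 2) (p' 1 2)
  fin_cases l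
  · exact mh_sub (q e1 s1) (q e2 t)
  · exact mh_add (q m t) (q s2 s1)
  · exact mh_add (q e2 s2) (q e1 m)

/-- one step -/
theorem step (hL : S_LAW) (hab : 4 * a ^ 3 + 27 * b ^ 2 ≠ 0) {D E : ℕ}
    {g h : (Fin n → EPt a b) → EPt a b} {y₀ : Fin n → EPt a b}
    {G H : Fin 3 → MvPolynomial (Fin n × Fin 3) Qb} {r s : (Fin n → EPt a b) → Qb}
    (hG : ∀ l, MultiHomog (G l) fun _ => D) (hH : ∀ l, MultiHomog (H l) fun _ => E)
    (hr : r y₀ ≠ 0) (hs : s y₀ ≠ 0) (eG : ∀ y l, value (G l) y = r y * homog (g y) l)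
    (eH : ∀ y l, value (H l) y = s y * homog (h y) l) (h2 : 2 • (g y₀ - h y₀) ≠ 0 ∨ g y₀ = h y₀) :
    ∃ (F : Fin 3 → MvPolynomial (Fin n × Fin 3) Qb) (t : (Fin n → EPt a b) → Qb),
      (∀ l, MultiHomog (F l) fun _ => 2 * (D + E)) ∧ t y₀ ≠ 0 ∧
      ∀ y l, value (F l) y = t y * homog (g y + h y) l := by
  choose ρ hρ using fun y => hL a b hab (g y) (h y)
  refine ⟨addLaw (C a) (C b) G H, fun y => r y ^ 2 * s y ^ 2 * ρ y, mh_law hG hH, ?_, ?_⟩
  · have h3 : ρ y₀ ≠ 0 := fun h0 => by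
      obtain ⟨h4, h5⟩ := (hρ y₀).2 h0
      rcases h2 with h2 | h2
      · exact h2 h5
      · exact h4 h2
    exact mul_ne_zero (mul_ne_zero (pow_ne_zero _ hr) (pow_ne_zero _ hs)) h3
  · intro y l
    have h6 : value (addLaw (C a) (C b) G H l) y =
        addLaw a b (fun i => value (G i) y) (fun i => value (H i) y) l := by
      unfold value
      rw [addLaw_map]
      simp only [eval_C]
    rw [h6]
    have h7 : (fun i => value (G i) y) = fun i => r y * homog (g y) i := funext (eG y)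
    have h8 : (fun i => value (H i) y) = fun i => s y * homog (h y) i := funext (eH y)
    rw [h7, h8, addLaw_scale, (hρ y).1 l]
    ring

/-- `2 c` avoids a point -/
theorem fin2 (hab : 4 * a ^ 3 + 27 * b ^ 2 ≠ 0) (S : EPt a b) : {c : EPt a b | 2 • c = S}.Finite :=
  ((DBL.main a b hab).2 S).1

theorem main : S_LAW → S_RAD := by
  intro hL a b hab n D₁ D₂ g₁ g₂ h₁ h₂ y₀
  obtain ⟨G, r, hG, hr, eG⟩ := h₁ y₀
  obtain ⟨H, s, hH, hs, eH⟩ := h₂ y₀
  have hinf : Infinite (EPt a b) :=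
    Set.infinite_univ_iff.1 ((TOR.main a b hab).mono (Set.subset_univ _))
  have hf1 := fin2 hab (2 • g₁ y₀)
  have hf2 := fin2 hab (-(2 • g₂ y₀))
  have hf3 : {c : EPt a b | 2 • (2 • c) = 2 • (g₂ y₀ - g₁ y₀)}.Finite := by
    have h := (fin2 hab (2 • (g₂ y₀ - g₁ y₀))).biUnion (fun d _ => fin2 hab d)
    refine h.subset fun c hc => ?_
    rw [Set.mem_iUnion₂]
    exact ⟨2 • c, hc, rfl⟩
  obtain ⟨c, hc⟩ := ((hf1.union hf2).union hf3).infinite_compl.nonempty
  simp only [Set.mem_compl_iff, Set.mem_union, Set.mem_ofPred_eq, not_or] at hc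
  obtain ⟨⟨hc1, hc2⟩, hc3⟩ := hc
  -- `g₁ + c`
  obtain ⟨F, t, hF, ht, eF⟩ := step hL hab (g := g₁) (h := fun _ => c) (y₀ := y₀) hG
    (fun l => RCO.mh_C (n := n) (homog c l)) hr (s := fun _ => 1) one_ne_zero eG
    (fun y l => by rw [RCO.value_C, one_mul]) (Or.inl (fun h => hc1 (by
      rw [nsmul_sub, sub_eq_zero] at h
      exact h.symm)))
  obtain ⟨F', t', hF', ht', eF'⟩ := step hL hab (g := g₂) (h := fun _ => -c) (y₀ := y₀) hH
    (fun l => RCO.mh_C (n := n) (homog (-c) l)) hs (s := fun _ => 1) one_ne_zero eH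
    (fun y l => by rw [RCO.value_C, one_mul]) (Or.inl (fun h => hc2 (by
      rw [sub_neg_eq_add, nsmul_add] at h
      exact eq_neg_of_add_eq_zero_right h)))
  obtain ⟨F'', t'', hF'', ht'', eF''⟩ := step hL hab (g := fun y => g₁ y + c)
    (h := fun y => g₂ y + -c) (y₀ := y₀) hF hF' ht ht' eF eF' (Or.inl (fun h => hc3 (by
      have e : 2 • (2 • c) - 2 • (g₂ y₀ - g₁ y₀) = 2 • (g₁ y₀ + c - (g₂ y₀ + -c)) := by
        simp only [two_nsmul]
        abel
      rw [← sub_eq_zero, e]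
      exact h)))
  refine ⟨F'', t'', ?_, ht'', ?_⟩
  · intro l
    have h := hF'' l
    have e : 2 * (2 * (D₁ + 0) + 2 * (D₂ + 0)) = 4 * (D₁ + D₂) := by ring
    rw [e] at h
    exact h
  · intro y l
    rw [eF'' y l]
    congr 2
    abel

end Pool.Agent.Helper62.RH.RAD
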